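import Pool.Agent.Q106.OP.Ball

/-!
# Strassen's ball for several functions, with the energy
-/

set_option autoImplicit false

namespace Pool.Agent.Q106.FL

open Finset MeasureTheory Filter
open scoped Topology

/-- The functions `φ i` on `[0, 1]` are the integrals of square integrable functions `g i` with
`∑ ∫ (g i)² = e`. -/
def Energy {r : ℕ} (φ : Fin r → ℝ → ℝ) (e : ℝ) : Prop :=
  ∃ g : Fin r → ℝ → ℝ,
    (∀ i, IntervalIntegrable (g i) volume 0 1 ∧ IntervalIntegrable (fun s => g i s ^ 2) volume 0 1 ∧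
      ∀ t, 0 ≤ t → t ≤ 1 → φ i t = ∫ s in (0 : ℝ)..t, g i s) ∧
    ∑ i, ∫ s in (0 : ℝ)..1, g i s ^ 2 = e

section

variable {q : ℕ}

/-- A polygon. -/
theorem polygon (hq : 1 ≤ q) (Δ : ℕ → ℝ) :
    ∃ g : ℝ → ℝ, IntervalIntegrable g volume 0 1 ∧ IntervalIntegrable (fun s => g s ^ 2) volume 0 1 ∧
      (∫ s in (0 : ℝ)..1, g s ^ 2) = ∑ l ∈ range q, (q : ℝ) * Δ l ^ 2 ∧
      (∀ i ≤ q, (∫ s in (0 : ℝ)..((i : ℝ) / q), g s) = ∑ l ∈ range i, Δ l) ∧
      ∀ i < q, ∀ t : ℝ, (i : ℝ) / q ≤ t → t ≤ ((i : ℝ) + 1) / q →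
        |(∫ s in (0 : ℝ)..t, g s) - ∫ s in (0 : ℝ)..((i : ℝ) / q), g s| ≤ |Δ i| := by
  have hq0 : (0 : ℝ) < q := by exact_mod_cast hq
  obtain ⟨g, hg⟩ : ∃ g : ℝ → ℝ, g = fun s => q * Δ (⌈(q : ℝ) * s⌉₊ - 1) := ⟨_, rfl⟩
  -- the value on a cell
  have hcell : ∀ i : ℕ, ∀ s : ℝ, (i : ℝ) / q < s → s ≤ ((i : ℝ) + 1) / q → g s = q * Δ i := by
    intro i s h1 h2
    rw [div_lt_iff₀ hq0] at h1
    rw [le_div_iff₀ hq0] at h2
    have e1 : ⌈(q : ℝ) * s⌉₊ = i + 1 := by
      rw [Nat.ceil_eq_iff (by omega), Nat.add_sub_cancel]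
      push_cast
      constructor <;> linarith
    rw [hg]
    simp only
    rw [e1, Nat.add_sub_cancel]
  have hsub : ∀ i : ℕ, ∀ t : ℝ, (i : ℝ) / q ≤ t → t ≤ ((i : ℝ) + 1) / q →
      IntervalIntegrable g volume ((i : ℝ) / q) t ∧ (∫ s in ((i : ℝ) / q)..t, g s) = q * Δ i * (t - (i : ℝ) / q) ∧
      IntervalIntegrable (fun s => g s ^ 2) volume ((i : ℝ) / q) t ∧
      (∫ s in ((i : ℝ) / q)..t, g s ^ 2) = (q * Δ i) ^ 2 * (t - (i : ℝ) / q) := by
    intro i t h1 h2
    have e1 : ∀ s ∈ Set.Ioc ((i : ℝ) / q) t, g s = q * Δ i := fun s hs => hcell i s hs.1 (hs.2.trans h2)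
    refine ⟨?_, ?_, ?_, ?_⟩
    · rw [intervalIntegrable_iff_integrableOn_Ioc_of_le h1]
      refine IntegrableOn.congr_fun (f := fun _ => q * Δ i) ?_ (fun s hs => (e1 s hs).symm) measurableSet_Ioc
      exact (intervalIntegrable_iff_integrableOn_Ioc_of_le h1).1 intervalIntegrable_const
    · rw [intervalIntegral.integral_congr_ae (g := fun _ => q * Δ i) (Eventually.of_forall (fun s hs => e1 s (by
        rwa [Set.uIoc_of_le h1] at hs))), intervalIntegral.integral_const, smul_eq_mul]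
      ring
    · rw [intervalIntegrable_iff_integrableOn_Ioc_of_le h1]
      refine IntegrableOn.congr_fun (f := fun _ => (q * Δ i) ^ 2) ?_ (fun s hs => by simp only [e1 s hs]) measurableSet_Ioc
      exact (intervalIntegrable_iff_integrableOn_Ioc_of_le h1).1 intervalIntegrable_const
    · rw [intervalIntegral.integral_congr_ae (g := fun _ => (q * Δ i) ^ 2) (Eventually.of_forall (fun s hs => by
        rw [Set.uIoc_of_le h1] at hs
        rw [e1 s hs])), intervalIntegral.integral_const, smul_eq_mul]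
      ring
  have hstep : ∀ i : ℕ, (i : ℝ) / q ≤ ((i : ℝ) + 1) / q := fun i => by gcongr; linarith
  have hlen : ∀ i : ℕ, ((i : ℝ) + 1) / q - (i : ℝ) / q = 1 / q := fun i => by ring
  -- integrability and the integrals up to i / q
  have hint : ∀ i : ℕ, IntervalIntegrable g volume 0 ((i : ℝ) / q) ∧
      (∫ s in (0 : ℝ)..((i : ℝ) / q), g s) = ∑ l ∈ range i, Δ l ∧
      IntervalIntegrable (fun s => g s ^ 2) volume 0 ((i : ℝ) / q) ∧
      (∫ s in (0 : ℝ)..((i : ℝ) / q), g s ^ 2) = ∑ l ∈ range i, (q : ℝ) * Δ l ^ 2 := by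
    intro i
    induction i with
    | zero => simp
    | succ i ih =>
      obtain ⟨a1, a2, a3, a4⟩ := ih
      obtain ⟨b1, b2, b3, b4⟩ := hsub i (((i : ℝ) + 1) / q) (hstep i) le_rfl
      push_cast
      refine ⟨a1.trans b1, ?_, a3.trans b3, ?_⟩
      · rw [← intervalIntegral.integral_add_adjacent_intervals a1 b1, a2, b2, hlen, sum_range_succ]
        field_simp
      · rw [← intervalIntegral.integral_add_adjacent_intervals a3 b3, a4, b4, hlen, sum_range_succ]
        field_simp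
  have hqq : (q : ℝ) / q = 1 := by field_simp
  refine ⟨g, ?_, ?_, ?_, fun i _ => (hint i).2.1, ?_⟩
  · have := (hint q).1
    rwa [hqq] at this
  · have := (hint q).2.2.1
    rwa [hqq] at this
  · have := (hint q).2.2.2
    rwa [hqq] at this
  · intro i _ t h1 h2
    obtain ⟨b1, b2, _, _⟩ := hsub i t h1 h2
    have e1 : (∫ s in (0 : ℝ)..t, g s) - (∫ s in (0 : ℝ)..((i : ℝ) / q), g s) = q * Δ i * (t - (i : ℝ) / q) := by
      rw [← intervalIntegral.integral_add_adjacent_intervals (hint i).1 b1, b2]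
      ring
    rw [e1, abs_mul, abs_mul, abs_of_pos hq0, abs_of_nonneg (show 0 ≤ t - (i : ℝ) / q by linarith)]
    have e2 : t - (i : ℝ) / q ≤ 1 / q := by
      rw [← hlen i]
      linarith
    have e3 : (q : ℝ) * (t - (i : ℝ) / q) ≤ 1 := by
      calc (q : ℝ) * (t - (i : ℝ) / q) ≤ q * (1 / q) := mul_le_mul_of_nonneg_left e2 hq0.le
        _ = 1 := by field_simp
    calc q * |Δ i| * (t - (i : ℝ) / q) = (q * (t - (i : ℝ) / q)) * |Δ i| := by ring
      _ ≤ 1 * |Δ i| := mul_le_mul_of_nonneg_right e3 (abs_nonneg _)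
      _ = |Δ i| := one_mul _

/-- The increments of an integral. -/
theorem incr {g : ℝ → ℝ} (h1 : IntervalIntegrable g volume 0 1) (h2 : IntervalIntegrable (fun s => g s ^ 2) volume 0 1)
    (hq : 1 ≤ q) :
    (∑ i ∈ range q, (q : ℝ) * ((∫ s in (0 : ℝ)..(((i : ℝ) + 1) / q), g s) - ∫ s in (0 : ℝ)..((i : ℝ) / q), g s) ^ 2 ≤
      ∫ s in (0 : ℝ)..1, g s ^ 2) ∧
    ∀ s t : ℝ, 0 ≤ s → s ≤ t → t ≤ 1 → ((∫ u in (0 : ℝ)..t, g u) - ∫ u in (0 : ℝ)..s, g u) ^ 2 ≤
      (∫ s in (0 : ℝ)..1, g s ^ 2) * (t - s) := by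
  have hq0 : (0 : ℝ) < q := by exact_mod_cast hq
  have hsub1 : ∀ s t : ℝ, 0 ≤ s → s ≤ t → t ≤ 1 → IntervalIntegrable g volume s t := fun s t a b c =>
    h1.mono_set (by
      rw [Set.uIcc_of_le b, Set.uIcc_of_le zero_le_one]
      exact Set.Icc_subset_Icc a c)
  have hsub2 : ∀ s t : ℝ, 0 ≤ s → s ≤ t → t ≤ 1 → IntervalIntegrable (fun s => g s ^ 2) volume s t := fun s t a b c =>
    h2.mono_set (by
      rw [Set.uIcc_of_le b, Set.uIcc_of_le zero_le_one]
      exact Set.Icc_subset_Icc a c)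
  have hdiff : ∀ s t : ℝ, 0 ≤ s → s ≤ t → t ≤ 1 → (∫ u in (0 : ℝ)..t, g u) - (∫ u in (0 : ℝ)..s, g u) = ∫ u in s..t, g u := by
    intro s t a b c
    rw [← intervalIntegral.integral_add_adjacent_intervals (hsub1 0 s le_rfl a (by linarith)) (hsub1 s t a b c)]
    ring
  have hcs : ∀ s t : ℝ, 0 ≤ s → s ≤ t → t ≤ 1 → ((∫ u in (0 : ℝ)..t, g u) - ∫ u in (0 : ℝ)..s, g u) ^ 2 ≤
      (t - s) * ∫ u in s..t, g u ^ 2 := by
    intro s t a b c
    rw [hdiff s t a b c]
    exact OP.cs_int b (hsub1 s t a b c) (hsub2 s t a b c)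
  refine ⟨?_, ?_⟩
  · have e1 : ∀ i ∈ range q, (q : ℝ) * ((∫ s in (0 : ℝ)..(((i : ℝ) + 1) / q), g s) - ∫ s in (0 : ℝ)..((i : ℝ) / q), g s) ^ 2 ≤
        ∫ u in ((i : ℝ) / q)..(((i + 1 : ℕ) : ℝ) / q), g u ^ 2 := by
      intro i hi
      rw [mem_range] at hi
      have a1 : (0 : ℝ) ≤ (i : ℝ) / q := by positivity
      have a2 : (i : ℝ) / q ≤ ((i : ℝ) + 1) / q := by gcongr; linarith
      have a3 : ((i : ℝ) + 1) / q ≤ 1 := by
        rw [div_le_one hq0]
        exact_mod_cast hi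
      have e2 := hcs _ _ a1 a2 a3
      have e3 : ((i : ℝ) + 1) / q - (i : ℝ) / q = 1 / q := by ring
      rw [e3] at e2
      push_cast
      refine (mul_le_mul_of_nonneg_left e2 hq0.le).trans (le_of_eq ?_)
      field_simp
    refine (sum_le_sum e1).trans ?_
    have e2 := intervalIntegral.sum_integral_adjacent_intervals (f := fun u => g u ^ 2) (μ := volume)
      (a := fun i : ℕ => (i : ℝ) / q) (n := q) (fun k hk => hsub2 _ _ (by positivity) (by gcongr; simp) (by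
        rw [div_le_one hq0]
        exact_mod_cast hk))
    rw [e2]
    have e3 : (q : ℝ) / q = 1 := by field_simp
    simp only [Nat.cast_zero, zero_div]
    rw [e3]
  · intro s t a b c
    refine (hcs s t a b c).trans ?_
    have e1 : (∫ u in s..t, g u ^ 2) ≤ ∫ u in (0 : ℝ)..1, g u ^ 2 := by
      refine intervalIntegral.integral_mono_interval a b c ?_ h2
      exact Eventually.of_forall (fun u => sq_nonneg _)
    rw [mul_comm]
    exact mul_le_mul_of_nonneg_right e1 (by linarith)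

/-- **The energy of the polygons converges.** -/
theorem approx {g : ℝ → ℝ} (h1 : IntervalIntegrable g volume 0 1) (h2 : IntervalIntegrable (fun s => g s ^ 2) volume 0 1)
    {δ : ℝ} (hδ : 0 < δ) : ∀ᶠ q : ℕ in atTop, (∫ s in (0 : ℝ)..1, g s ^ 2) - δ ≤
      ∑ i ∈ range q, (q : ℝ) * ((∫ s in (0 : ℝ)..(((i : ℝ) + 1) / q), g s) - ∫ s in (0 : ℝ)..((i : ℝ) / q), g s) ^ 2 := by
  -- a continuous function near g
  have hmem : MemLp g 2 (volume.restrict (Set.Ioc (0 : ℝ) 1)) := by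
    have hm : AEStronglyMeasurable g (volume.restrict (Set.Ioc (0 : ℝ) 1)) := h1.1.aestronglyMeasurable
    rw [memLp_two_iff_integrable_sq hm]
    exact h2.1
  obtain ⟨h, hh1, hh2⟩ := hmem.exists_boundedContinuous_eLpNorm_sub_le (by norm_num) (ε := ENNReal.ofReal (√(δ / 4))) (by
    rw [Ne, ENNReal.ofReal_eq_zero, not_le]
    exact Real.sqrt_pos.2 (by linarith))
  have hsub : (∫ s in (0 : ℝ)..1, (g s - h s) ^ 2) ≤ δ / 4 := by
    have hd : MemLp (g - ⇑h) 2 (volume.restrict (Set.Ioc (0 : ℝ) 1)) := hmem.sub hh2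
    have e1 := hd.eLpNorm_eq_integral_rpow_norm (by norm_num) (by norm_num)
    rw [e1] at hh1
    rw [ENNReal.ofReal_le_ofReal_iff (Real.sqrt_nonneg _)] at hh1
    have e2 : (∫ s, ‖(g - ⇑h) s‖ ^ (2 : ENNReal).toReal ∂(volume.restrict (Set.Ioc (0 : ℝ) 1))) =
        ∫ s in (0 : ℝ)..1, (g s - h s) ^ 2 := by
      rw [intervalIntegral.integral_of_le zero_le_one]
      refine integral_congr_ae (Eventually.of_forall (fun s => ?_))
      simp only [Pi.sub_apply, ENNReal.toReal_ofNat, Real.rpow_ofNat, Real.norm_eq_abs, sq_abs]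
    rw [e2] at hh1
    simp only [ENNReal.toReal_ofNat] at hh1
    have e3 : 0 ≤ ∫ s in (0 : ℝ)..1, (g s - h s) ^ 2 := intervalIntegral.integral_nonneg zero_le_one (fun _ _ => sq_nonneg _)
    have e4 : (∫ s in (0 : ℝ)..1, (g s - h s) ^ 2) ^ ((2 : ℝ)⁻¹) = √(∫ s in (0 : ℝ)..1, (g s - h s) ^ 2) := by
      rw [Real.sqrt_eq_rpow]
      norm_num
    rw [e4] at hh1
    have e5 := Real.sqrt_le_sqrt_iff (x := ∫ s in (0 : ℝ)..1, (g s - h s) ^ 2) (y := δ / 4) (by linarith)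
    exact e5.1 hh1
  -- uniform continuity
  have huc : UniformContinuousOn h (Set.Icc (0 : ℝ) 1) :=
    isCompact_Icc.uniformContinuousOn_of_continuous h.continuous.continuousOn
  obtain ⟨η, hη, hunif⟩ := Metric.uniformContinuousOn_iff.1 huc (√(δ / 4)) (Real.sqrt_pos.2 (by linarith))
  obtain ⟨q₀, hq₀⟩ := exists_nat_gt (1 / η)
  filter_upwards [eventually_ge_atTop (q₀ + 1)] with q hq
  have hq1 : 1 ≤ q := by omega
  have hq0 : (0 : ℝ) < q := by exact_mod_cast hq1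
  have hqη : 1 / (q : ℝ) < η := by
    have e1 : (q₀ : ℝ) < q := by exact_mod_cast (show q₀ < q by omega)
    rw [div_lt_iff₀ hq0]
    rw [div_lt_iff₀ hη] at hq₀
    nlinarith
  have hdint : IntervalIntegrable (fun s => (g s - h s) ^ 2) volume 0 1 := by
    have hd : MemLp (g - ⇑h) 2 (volume.restrict (Set.Ioc (0 : ℝ) 1)) := hmem.sub hh2
    rw [intervalIntegrable_iff_integrableOn_Ioc_of_le zero_le_one]
    exact hd.integrable_sq
  obtain ⟨G, hG⟩ : ∃ G : ℝ → ℝ, G = fun s => g s ^ 2 - 2 * (g s - h s) ^ 2 - δ / 2 := ⟨_, rfl⟩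
  have hGint : IntervalIntegrable G volume 0 1 := by
    rw [hG]
    exact (h2.sub (hdint.const_mul 2)).sub intervalIntegrable_const
  have hsubset : ∀ s t : ℝ, 0 ≤ s → s ≤ t → t ≤ 1 → Set.uIcc s t ⊆ Set.uIcc 0 1 := fun s t a b c => by
    rw [Set.uIcc_of_le b, Set.uIcc_of_le zero_le_one]
    exact Set.Icc_subset_Icc a c
  have hcell : ∀ i ∈ range q, (∫ u in ((i : ℝ) / q)..(((i + 1 : ℕ) : ℝ) / q), G u) ≤
      (q : ℝ) * ((∫ s in (0 : ℝ)..(((i : ℝ) + 1) / q), g s) - ∫ s in (0 : ℝ)..((i : ℝ) / q), g s) ^ 2 := by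
    intro i hi
    rw [mem_range] at hi
    have a1 : (0 : ℝ) ≤ (i : ℝ) / q := by positivity
    have a2 : (i : ℝ) / q ≤ ((i : ℝ) + 1) / q := by gcongr; linarith
    have a3 : ((i : ℝ) + 1) / q ≤ 1 := by
      rw [div_le_one hq0]
      exact_mod_cast hi
    have a4 : ((i : ℝ) + 1) / q - (i : ℝ) / q = 1 / q := by ring
    push_cast
    have b0 := hsubset _ _ a1 a2 a3
    have b1 : IntervalIntegrable g volume ((i : ℝ) / q) (((i : ℝ) + 1) / q) := h1.mono_set b0
    have b2 : IntervalIntegrable (fun s => g s ^ 2) volume ((i : ℝ) / q) (((i : ℝ) + 1) / q) := h2.mono_set b0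
    have b3 : IntervalIntegrable G volume ((i : ℝ) / q) (((i : ℝ) + 1) / q) := hGint.mono_set b0
    have b4 : IntervalIntegrable g volume 0 ((i : ℝ) / q) := h1.mono_set (hsubset _ _ le_rfl a1 (a2.trans a3))
    obtain ⟨x, hx⟩ : ∃ x, x = ∫ s in ((i : ℝ) / q)..(((i : ℝ) + 1) / q), g s := ⟨_, rfl⟩
    have e1 : (∫ s in (0 : ℝ)..(((i : ℝ) + 1) / q), g s) - (∫ s in (0 : ℝ)..((i : ℝ) / q), g s) = x := by
      rw [← intervalIntegral.integral_add_adjacent_intervals b4 b1, hx]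
      ring
    obtain ⟨c, hc⟩ : ∃ c, c = h ((i : ℝ) / q) := ⟨_, rfl⟩
    rw [e1]
    have e2 : (∫ u in ((i : ℝ) / q)..(((i : ℝ) + 1) / q), (2 * c * g u - c ^ 2)) = 2 * c * x - c ^ 2 * (1 / q) := by
      rw [intervalIntegral.integral_sub (b1.const_mul _) intervalIntegrable_const, intervalIntegral.integral_const_mul,
        intervalIntegral.integral_const, a4, ← hx, smul_eq_mul]
      ring
    have e3 : 2 * c * x - c ^ 2 * (1 / q) ≤ q * x ^ 2 := by
      have e4 := sq_nonneg (q * x - c)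
      have e5 : q * (q * x ^ 2 - (2 * c * x - c ^ 2 * (1 / q))) = (q * x - c) ^ 2 := by
        field_simp
        ring
      rw [← e5] at e4
      have := (mul_nonneg_iff_of_pos_left hq0).1 e4
      linarith
    refine le_trans ?_ e3
    rw [← e2]
    refine intervalIntegral.integral_mono_on a2 b3 ((b1.const_mul _).sub intervalIntegrable_const) ?_
    intro u hu
    have hu0 : u ∈ Set.Icc (0 : ℝ) 1 := ⟨a1.trans hu.1, hu.2.trans a3⟩
    have hi0 : (i : ℝ) / q ∈ Set.Icc (0 : ℝ) 1 := ⟨a1, a2.trans a3⟩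
    have e6 := hunif u hu0 _ hi0 (by
      rw [Real.dist_eq, abs_lt]
      constructor <;> linarith [hu.1, hu.2])
    rw [Real.dist_eq, ← hc] at e6
    have e7 : (h u - c) ^ 2 ≤ δ / 4 := by
      have e8 := pow_le_pow_left₀ (abs_nonneg _) e6.le 2
      rwa [sq_abs, Real.sq_sqrt (by linarith)] at e8
    rw [hG]
    simp only
    have e9 := sq_nonneg (g u - h u - (h u - c))
    nlinarith
  have hsum := sum_le_sum hcell
  have e2 := intervalIntegral.sum_integral_adjacent_intervals (f := G) (μ := volume)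
    (a := fun i : ℕ => (i : ℝ) / q) (n := q) (fun k hk => hGint.mono_set (hsubset _ _ (by positivity) (by gcongr; simp) (by
      rw [div_le_one hq0]
      exact_mod_cast hk)))
  rw [e2] at hsum
  have e3 : (q : ℝ) / q = 1 := by field_simp
  simp only [Nat.cast_zero, zero_div] at hsum
  rw [e3] at hsum
  refine le_trans ?_ hsum
  rw [hG, intervalIntegral.integral_sub (h2.sub (hdint.const_mul 2)) intervalIntegrable_const,
    intervalIntegral.integral_sub h2 (hdint.const_mul 2), intervalIntegral.integral_const_mul,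
    intervalIntegral.integral_const, smul_eq_mul]
  linarith

end

end Pool.Agent.Q106.FL
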