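import Pool.Agent.Q106.FL.Ball
import Pool.Agent.Q106.MD.Tr
import Pool.Agent.Q106.OP.Fun

/-!
# Functional laws from the laws of the increments
-/

set_option autoImplicit false

namespace Pool.Agent.Q106.FL

open Finset MeasureTheory Filter Pool.Agent.Q106.MD
open scoped Topology

variable {r : ℕ}

/-- The functions `p i` and `φ i` differ by at most `ε` on `[0, 1]`. -/
def Near (ε : ℝ) (p φ : Fin r → ℝ → ℝ) : Prop := ∀ i t, 0 ≤ t → t ≤ 1 → |p i t - φ i t| ≤ ε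

/-- The increments on the cells of length `1 / q`, multiplied by `√q`. -/
noncomputable def inc (q : ℕ) (p : Fin r → ℝ → ℝ) (x : Fin (r * q)) : ℝ :=
  √(q : ℝ) * (p (finProdFinEquiv.symm x).1 (((((finProdFinEquiv.symm x).2 : Fin q) : ℕ) : ℝ) / q + 1 / q) -
    p (finProdFinEquiv.symm x).1 (((((finProdFinEquiv.symm x).2 : Fin q) : ℕ) : ℝ) / q))

/-- The functional law: the limit set is Strassen's ball, and the number of the `n ≤ x` with a path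
near a function of energy `e < 1` is `x^(1 - e)` up to `x^(±δ)`. -/
def FLaw (P : ℕ → Fin r → ℝ → ℝ) : Prop :=
  (∀ ε > 0, ∀ᶠ n in atTop, ∃ φ e, e ≤ 1 ∧ Energy φ e ∧ Near ε (P n) φ) ∧
  (∀ φ e, e ≤ 1 → Energy φ e → ∀ ε > 0, ∃ᶠ n in atTop, Near ε (P n) φ) ∧
  ∀ φ e, e < 1 → Energy φ e → ∀ δ > 0, ∃ ε₀ > 0, ∀ ε, 0 < ε → ε ≤ ε₀ → ∀ᶠ x : ℕ in atTop,
    (x : ℝ) ^ (1 - e - δ) ≤ ({n : ℕ | n ≤ x ∧ Near ε (P n) φ}.ncard : ℝ) ∧
    ({n : ℕ | n ≤ x ∧ Near ε (P n) φ}.ncard : ℝ) ≤ (x : ℝ) ^ (1 - e + δ)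

theorem sum_prod {q : ℕ} (F : Fin r × Fin q → ℝ) :
    ∑ x : Fin (r * q), F (finProdFinEquiv.symm x) = ∑ i, ∑ l : Fin q, F (i, l) := by
  rw [← Fintype.sum_prod_type]
  exact Fintype.sum_equiv finProdFinEquiv.symm _ _ (fun x => rfl)

theorem inc_sq {q : ℕ} (p : Fin r → ℝ → ℝ) : ∑ x, inc q p x ^ 2 =
    ∑ i, ∑ l ∈ range q, (q : ℝ) * (p i (((l : ℝ) + 1) / q) - p i ((l : ℝ) / q)) ^ 2 := by
  obtain ⟨F, hF⟩ : ∃ F : Fin r × Fin q → ℝ, F = fun y : Fin r × Fin q =>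
      (q : ℝ) * (p y.1 ((((y.2 : Fin q) : ℕ) : ℝ) / q + 1 / q) - p y.1 ((((y.2 : Fin q) : ℕ) : ℝ) / q)) ^ 2 := ⟨_, rfl⟩
  have h1 : ∀ x : Fin (r * q), inc q p x ^ 2 = F (finProdFinEquiv.symm x) := by
    intro x
    rw [hF]
    unfold inc
    rw [mul_pow, Real.sq_sqrt (Nat.cast_nonneg q)]
  rw [sum_congr rfl (fun x _ => h1 x), sum_prod, hF]
  refine sum_congr rfl (fun i _ => ?_)
  rw [sum_range]
  refine sum_congr rfl (fun l _ => ?_)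
  simp only
  rw [← add_div]

theorem inc_apply {q : ℕ} (p : Fin r → ℝ → ℝ) (i : Fin r) (l : Fin q) :
    inc q p (finProdFinEquiv (i, l)) = √(q : ℝ) * (p i ((((l : ℕ) : ℝ) + 1) / q) - p i (((l : ℕ) : ℝ) / q)) := by
  unfold inc
  rw [Equiv.symm_apply_apply]
  simp only
  rw [← add_div]

/-- The increments of a function in the ball. -/
theorem Energy.incr {q : ℕ} {φ : Fin r → ℝ → ℝ} {e : ℝ} (hφ : Energy φ e) (hq : 1 ≤ q) :
    ∑ x, inc q φ x ^ 2 ≤ e ∧ (∀ i, φ i 0 = 0) ∧ 0 ≤ e ∧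
      ∀ i s t, 0 ≤ s → s ≤ t → t ≤ 1 → (φ i t - φ i s) ^ 2 ≤ e * (t - s) := by
  have hq0 : (0 : ℝ) < q := by exact_mod_cast hq
  obtain ⟨g, h1, h2⟩ := hφ
  have hnn : ∀ i, 0 ≤ ∫ s in (0 : ℝ)..1, g i s ^ 2 := fun i =>
    intervalIntegral.integral_nonneg zero_le_one (fun _ _ => sq_nonneg _)
  refine ⟨?_, ?_, ?_, ?_⟩
  · rw [inc_sq, ← h2]
    refine sum_le_sum (fun i _ => ?_)
    refine le_trans (le_of_eq ?_) (FL.incr (h1 i).1 (h1 i).2.1 hq).1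
    refine sum_congr rfl (fun l hl => ?_)
    rw [mem_range] at hl
    have e1 : ((l : ℝ) + 1) / q ≤ 1 := by
      rw [div_le_one hq0]
      exact_mod_cast hl
    rw [(h1 i).2.2 _ (by positivity) e1, (h1 i).2.2 _ (by positivity) (le_trans (by gcongr; linarith) e1)]
  · intro i
    rw [(h1 i).2.2 0 le_rfl zero_le_one, intervalIntegral.integral_same]
  · rw [← h2]
    exact sum_nonneg (fun i _ => hnn i)
  · intro i s t a b c
    rw [(h1 i).2.2 t (a.trans b) c, (h1 i).2.2 s a (b.trans c)]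
    refine ((FL.incr (h1 i).1 (h1 i).2.1 hq).2 s t a b c).trans ?_
    refine mul_le_mul_of_nonneg_right ?_ (by linarith)
    rw [← h2]
    exact single_le_sum (f := fun i => ∫ s in (0 : ℝ)..1, g i s ^ 2) (fun i _ => hnn i) (mem_univ i)

/-- The energy is the limit of the energies of the polygons. -/
theorem Energy.approx {φ : Fin r → ℝ → ℝ} {e : ℝ} (hφ : Energy φ e) {δ : ℝ} (hδ : 0 < δ) :
    ∀ᶠ q : ℕ in atTop, e - δ ≤ ∑ x, inc q φ x ^ 2 := by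
  obtain ⟨g, h1, h2⟩ := hφ
  have h3 : ∀ᶠ q : ℕ in atTop, ∀ i, (∫ s in (0 : ℝ)..1, g i s ^ 2) - δ / (r + 1) ≤
      ∑ l ∈ range q, (q : ℝ) * ((∫ s in (0 : ℝ)..(((l : ℝ) + 1) / q), g i s) - ∫ s in (0 : ℝ)..((l : ℝ) / q), g i s) ^ 2 :=
    eventually_all.2 (fun i => FL.approx (h1 i).1 (h1 i).2.1 (by positivity))
  filter_upwards [h3, eventually_ge_atTop 1] with q hq hq1
  have hq0 : (0 : ℝ) < q := by exact_mod_cast hq1
  rw [inc_sq, ← h2]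
  have h4 := sum_le_sum (fun i (_ : i ∈ (univ : Finset (Fin r))) => hq i)
  rw [sum_sub_distrib, sum_const, card_univ, Fintype.card_fin, nsmul_eq_mul] at h4
  have h5 : (r : ℝ) * (δ / (r + 1)) ≤ δ := by
    rw [mul_div_assoc', div_le_iff₀ (by positivity)]
    nlinarith
  have h6 : ∑ i, ∑ l ∈ range q, (q : ℝ) * (φ i (((l : ℝ) + 1) / q) - φ i ((l : ℝ) / q)) ^ 2 =
      ∑ i, ∑ l ∈ range q, (q : ℝ) * ((∫ s in (0 : ℝ)..(((l : ℝ) + 1) / q), g i s) - ∫ s in (0 : ℝ)..((l : ℝ) / q), g i s) ^ 2 := by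
    refine sum_congr rfl (fun i _ => sum_congr rfl (fun l hl => ?_))
    rw [mem_range] at hl
    have e1 : ((l : ℝ) + 1) / q ≤ 1 := by
      rw [div_le_one hq0]
      exact_mod_cast hl
    rw [(h1 i).2.2 _ (by positivity) e1, (h1 i).2.2 _ (by positivity) (le_trans (by gcongr; linarith) e1)]
  rw [h6]
  linarith

/-- A path starting at zero at a mesh point. -/
theorem mesh {q : ℕ} {p : ℝ → ℝ} (hp : p 0 = 0) (j : ℕ) :
    p ((j : ℝ) / q) = ∑ l ∈ range j, (p (((l : ℝ) + 1) / q) - p ((l : ℝ) / q)) := by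
  have := sum_range_sub (fun l : ℕ => p ((l : ℝ) / q)) j
  simp only [Nat.cast_zero, zero_div, hp, sub_zero] at this
  rw [← this]
  refine sum_congr rfl (fun l _ => ?_)
  push_cast
  rfl

/-- **Near the increments means near the function.** -/
theorem near_of {q : ℕ} {φ p : Fin r → ℝ → ℝ} {e ε₁ ε₂ ε : ℝ} (hφ : Energy φ e) (hq : 1 ≤ q) (hp : ∀ i, p i 0 = 0)
    (hosc : ∀ i s t, 0 ≤ s → s ≤ t → t ≤ 1 → t - s ≤ 1 / (q : ℝ) → |p i t - p i s| ≤ ε₁)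
    (hinc : ∀ x, |inc q p x - inc q φ x| ≤ ε₂) (hε : ε₁ + √(q : ℝ) * ε₂ + √(e / q) ≤ ε) : Near ε p φ := by
  have hq0 : (0 : ℝ) < q := by exact_mod_cast hq
  have hsq : 0 < √(q : ℝ) := Real.sqrt_pos.2 hq0
  obtain ⟨h1, h2, h3, h4⟩ := hφ.incr hq
  intro i t ht0 ht1
  obtain ⟨l, hl, hl1, hl2⟩ := OP.exists_cell (T := 1) hq le_rfl ht0 (by exact_mod_cast ht1)
  rw [mul_one] at hl
  have e1 : ((l : ℝ) + 1) / q - (l : ℝ) / q = 1 / q := by ring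
  have hl0 : (0 : ℝ) ≤ (l : ℝ) / q := by positivity
  have a1 := hosc i _ t hl0 hl1 ht1 (by linarith)
  have a2 : |φ i t - φ i ((l : ℝ) / q)| ≤ √(e / q) := by
    refine Real.abs_le_sqrt ((h4 i _ t hl0 hl1 ht1).trans ?_)
    have e2 : e / q = e * (1 / q) := by ring
    rw [e2]
    exact mul_le_mul_of_nonneg_left (by linarith) h3
  have a3 : |p i ((l : ℝ) / q) - φ i ((l : ℝ) / q)| ≤ √(q : ℝ) * ε₂ := by
    rw [mesh (hp i), mesh (h2 i), ← sum_sub_distrib]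
    refine (abs_sum_le_sum_abs _ _).trans ?_
    have b1 : ∀ l' ∈ range l, |(p i (((l' : ℝ) + 1) / q) - p i ((l' : ℝ) / q)) - (φ i (((l' : ℝ) + 1) / q) - φ i ((l' : ℝ) / q))| ≤
        ε₂ / √(q : ℝ) := by
      intro l' hl'
      rw [mem_range] at hl'
      have b2 := hinc (finProdFinEquiv (i, ⟨l', by omega⟩))
      rw [inc_apply, inc_apply, ← mul_sub, abs_mul, abs_of_pos hsq] at b2
      rw [le_div_iff₀ hsq, mul_comm]
      exact b2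
    have hε₂ : 0 ≤ ε₂ := (abs_nonneg _).trans (hinc (finProdFinEquiv (i, ⟨l, hl⟩)))
    refine (sum_le_sum b1).trans ?_
    rw [sum_const, card_range, nsmul_eq_mul]
    have b3 : (l : ℝ) ≤ q := by exact_mod_cast hl.le
    calc (l : ℝ) * (ε₂ / √(q : ℝ)) ≤ q * (ε₂ / √(q : ℝ)) := mul_le_mul_of_nonneg_right b3 (by positivity)
      _ = √(q : ℝ) * √(q : ℝ) * (ε₂ / √(q : ℝ)) := by rw [Real.mul_self_sqrt hq0.le]
      _ = √(q : ℝ) * ε₂ := by field_simp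
  have e2 : p i t - φ i t = (p i t - p i ((l : ℝ) / q)) + (p i ((l : ℝ) / q) - φ i ((l : ℝ) / q)) - (φ i t - φ i ((l : ℝ) / q)) := by
    ring
  rw [e2]
  refine (abs_sub _ _).trans ?_
  have := abs_add_le (p i t - p i ((l : ℝ) / q)) (p i ((l : ℝ) / q) - φ i ((l : ℝ) / q))
  linarith

/-- **A path is near the ball.** -/
theorem near_ball {q : ℕ} {p : Fin r → ℝ → ℝ} {δ ε ε₁ : ℝ} (hq : 1 ≤ q) (hp : ∀ i, p i 0 = 0)
    (hosc : ∀ i s t, 0 ≤ s → s ≤ t → t ≤ 1 → t - s ≤ 1 / (q : ℝ) → |p i t - p i s| ≤ ε₁) (hδ : 0 ≤ δ) (hδ1 : δ ≤ 1)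
    (hup : ∑ x, inc q p x ^ 2 ≤ 1 + δ) (hε : 2 * ε₁ + 2 * δ ≤ ε) : ∃ φ e, e ≤ 1 ∧ Energy φ e ∧ Near ε p φ := by
  have hq0 : (0 : ℝ) < q := by exact_mod_cast hq
  obtain ⟨ρ, hρ⟩ : ∃ ρ, ρ = 1 / √(1 + δ) := ⟨_, rfl⟩
  have hs1 : 1 ≤ √(1 + δ) := by
    rw [Real.one_le_sqrt]
    linarith
  have hρ0 : 0 ≤ ρ := by rw [hρ]; positivity
  have hρ1 : ρ ≤ 1 := by
    rw [hρ, div_le_one (by linarith)]
    exact hs1
  have hρ2 : ρ ^ 2 * (1 + δ) = 1 := by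
    rw [hρ, div_pow, Real.sq_sqrt (by linarith)]
    field_simp
  have hρδ : 1 - ρ ≤ δ := by
    have : 1 ≤ ρ * (1 + δ) := by
      calc 1 = ρ ^ 2 * (1 + δ) := hρ2.symm
        _ ≤ ρ * (1 + δ) := by
          apply mul_le_mul_of_nonneg_right _ (by linarith)
          nlinarith
    nlinarith
  have hpoly := fun i : Fin r => polygon hq (fun l => ρ * (p i (((l : ℝ) + 1) / q) - p i ((l : ℝ) / q)))
  choose g hg1 hg2 hg3 hg4 hg5 using hpoly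
  refine ⟨fun i t => ∫ s in (0 : ℝ)..t, g i s, ∑ i, ∫ s in (0 : ℝ)..1, g i s ^ 2, ?_, ⟨g, fun i => ⟨hg1 i, hg2 i, fun t _ _ => rfl⟩, rfl⟩, ?_⟩
  · have e1 : ∑ i, ∫ s in (0 : ℝ)..1, g i s ^ 2 = ρ ^ 2 * ∑ x, inc q p x ^ 2 := by
      rw [inc_sq, mul_sum]
      refine sum_congr rfl (fun i _ => ?_)
      rw [hg3 i, mul_sum]
      exact sum_congr rfl (fun l _ => by ring)
    rw [e1, ← hρ2]
    exact mul_le_mul_of_nonneg_left hup (sq_nonneg ρ)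
  · intro i t ht0 ht1
    obtain ⟨l, hl, hl1, hl2⟩ := OP.exists_cell (T := 1) hq le_rfl ht0 (by exact_mod_cast ht1)
    rw [mul_one] at hl
    have e1 : ((l : ℝ) + 1) / q - (l : ℝ) / q = 1 / q := by ring
    have hl0 : (0 : ℝ) ≤ (l : ℝ) / q := by positivity
    have hl3 : ((l : ℝ) + 1) / q ≤ 1 := by
      rw [div_le_one hq0]
      exact_mod_cast hl
    have a1 := hosc i _ t hl0 hl1 ht1 (by linarith)
    have a2 := hg5 i l hl t hl1 hl2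
    have a3 := hosc i _ (((l : ℝ) + 1) / q) hl0 (hl1.trans hl2) hl3 e1.le
    have a4 := hg4 i l hl.le
    rw [← mul_sum, ← mesh (hp i)] at a4
    rw [abs_mul, abs_of_nonneg hρ0] at a2
    have a5 : ρ * |p i (((l : ℝ) + 1) / q) - p i ((l : ℝ) / q)| ≤ ε₁ := by
      have := abs_nonneg (p i (((l : ℝ) + 1) / q) - p i ((l : ℝ) / q))
      nlinarith
    have a6 : |p i ((l : ℝ) / q)| ≤ 2 := by
      refine abs_le_of_sq_le_sq ?_ (by norm_num)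
      rw [mesh (hp i)]
      have e6 := sq_sum_le_card_mul_sum_sq (s := range l) (f := fun l : ℕ => p i (((l : ℝ) + 1) / q) - p i ((l : ℝ) / q))
      rw [card_range] at e6
      have e7 : ∑ l ∈ range l, (p i (((l : ℝ) + 1) / q) - p i ((l : ℝ) / q)) ^ 2 ≤
          ∑ l ∈ range q, (p i (((l : ℝ) + 1) / q) - p i ((l : ℝ) / q)) ^ 2 :=
        sum_le_sum_of_subset_of_nonneg (range_subset_range.2 hl.le) (fun l _ _ => sq_nonneg _)
      have e8 : (q : ℝ) * ∑ l ∈ range q, (p i (((l : ℝ) + 1) / q) - p i ((l : ℝ) / q)) ^ 2 ≤ 2 := by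
        rw [mul_sum]
        rw [inc_sq] at hup
        have := single_le_sum (f := fun i => ∑ l ∈ range q, (q : ℝ) * (p i (((l : ℝ) + 1) / q) - p i ((l : ℝ) / q)) ^ 2)
          (fun i _ => sum_nonneg (fun l _ => by positivity)) (mem_univ i)
        linarith
      have e9 : (l : ℝ) ≤ q := by exact_mod_cast hl.le
      have e10 : 0 ≤ ∑ l ∈ range q, (p i (((l : ℝ) + 1) / q) - p i ((l : ℝ) / q)) ^ 2 := sum_nonneg (fun l _ => sq_nonneg _)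
      have e11 := mul_le_mul e9 e7 (sum_nonneg (fun l _ => sq_nonneg _)) hq0.le
      linarith
    have e2 : p i t - (∫ s in (0 : ℝ)..t, g i s) = (p i t - p i ((l : ℝ) / q)) + (1 - ρ) * p i ((l : ℝ) / q) -
        ((∫ s in (0 : ℝ)..t, g i s) - ∫ s in (0 : ℝ)..((l : ℝ) / q), g i s) := by
      rw [a4]
      ring
    show |p i t - (∫ s in (0 : ℝ)..t, g i s)| ≤ ε
    rw [e2]
    refine (abs_sub _ _).trans ?_
    have e3 := abs_add_le (p i t - p i ((l : ℝ) / q)) ((1 - ρ) * p i ((l : ℝ) / q))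
    rw [abs_mul, abs_of_nonneg (show 0 ≤ 1 - ρ by linarith)] at e3
    have e4 : (1 - ρ) * |p i ((l : ℝ) / q)| ≤ δ * 2 := mul_le_mul hρδ a6 (abs_nonneg _) hδ
    linarith

/-- The facts: oscillations and increments. -/
structure Facts (P : ℕ → Fin r → ℝ → ℝ) : Prop where
  zero : ∀ n i, P n i 0 = 0
  osc : ∀ ε > 0, ∃ q₀ : ℕ, ∀ q ≥ q₀, ∀ᶠ n in atTop, ∀ i s t, 0 ≤ s → s ≤ t → t ≤ 1 → t - s ≤ 1 / (q : ℝ) →
    |P n i t - P n i s| ≤ ε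
  up : ∀ q ≥ 1, ∀ ε > 0, ∀ᶠ n in atTop, ∑ x, inc q (P n) x ^ 2 ≤ 1 + ε
  low : ∀ q ≥ 1, ∀ d : Fin (r * q) → ℝ, ∑ x, d x ^ 2 ≤ 1 → ∀ ε > 0, ∃ᶠ n in atTop, ∀ x, |inc q (P n) x - d x| < ε

theorem exists_mesh {e ε : ℝ} (he : 0 ≤ e) (hε : 0 < ε) : ∀ᶠ q : ℕ in atTop, √(e / q) ≤ ε := by
  obtain ⟨q₀, hq₀⟩ := exists_nat_gt (e / ε ^ 2)
  filter_upwards [eventually_ge_atTop (q₀ + 1)] with q hq
  have hq0 : (0 : ℝ) < q := by exact_mod_cast (show 0 < q by omega)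
  rw [Real.sqrt_le_left hε.le, div_le_iff₀ hq0]
  rw [div_lt_iff₀ (by positivity)] at hq₀
  have : (q₀ : ℝ) ≤ q := by exact_mod_cast (show q₀ ≤ q by omega)
  nlinarith [sq_nonneg ε]

theorem Facts.near {P : ℕ → Fin r → ℝ → ℝ} (h : Facts P) {ε : ℝ} (hε : 0 < ε) :
    ∀ᶠ n in atTop, ∃ φ e, e ≤ 1 ∧ Energy φ e ∧ Near ε (P n) φ := by
  obtain ⟨q₀, hq₀⟩ := h.osc (ε / 4) (by positivity)
  obtain ⟨q, hq⟩ : ∃ q, q = q₀ + 1 := ⟨_, rfl⟩
  filter_upwards [hq₀ q (by omega), h.up q (by omega) (min 1 (ε / 4)) (lt_min one_pos (by positivity))] with n h1 h2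
  refine near_ball (q := q) (by omega) (h.zero n) h1 (le_min zero_le_one (by positivity)) (min_le_left _ _) h2 ?_
  have := min_le_right 1 (ε / 4)
  linarith

theorem Facts.dense {P : ℕ → Fin r → ℝ → ℝ} (h : Facts P) {φ : Fin r → ℝ → ℝ} {e : ℝ} (he : e ≤ 1) (hφ : Energy φ e)
    {ε : ℝ} (hε : 0 < ε) : ∃ᶠ n in atTop, Near ε (P n) φ := by
  obtain ⟨_, _, he0, _⟩ := hφ.incr (q := 1) le_rfl
  obtain ⟨q₀, hq₀⟩ := h.osc (ε / 4) (by positivity)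
  obtain ⟨q, hq1, hq2, hq3⟩ := ((exists_mesh he0 (show 0 < ε / 4 by positivity)).and
    ((eventually_ge_atTop 1).and (eventually_ge_atTop q₀))).exists
  have hq0 : (0 : ℝ) < q := by exact_mod_cast hq2
  have hsq : 0 < √(q : ℝ) := Real.sqrt_pos.2 hq0
  have h1 := h.low q hq2 (inc q φ) ((hφ.incr hq2).1.trans he) (ε / (4 * √(q : ℝ))) (by positivity)
  refine (h1.and_eventually (hq₀ q hq3)).mono (fun n hn => ?_)
  refine near_of hφ hq2 (h.zero n) hn.2 (fun x => (hn.1 x).le) ?_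
  have : √(q : ℝ) * (ε / (4 * √(q : ℝ))) = ε / 4 := by field_simp
  rw [this]
  linarith

theorem Near.inc {q : ℕ} {p φ : Fin r → ℝ → ℝ} {ε : ℝ} (h : Near ε p φ) (hq : 1 ≤ q) (x : Fin (r * q)) :
    |inc q p x - inc q φ x| ≤ 2 * √(q : ℝ) * ε := by
  have hq0 : (0 : ℝ) < q := by exact_mod_cast hq
  obtain ⟨⟨i, l⟩, rfl⟩ := finProdFinEquiv.surjective x
  rw [inc_apply, inc_apply, ← mul_sub, abs_mul, abs_of_nonneg (Real.sqrt_nonneg _)]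
  have e1 : (((l : ℕ) : ℝ) + 1) / q ≤ 1 := by
    rw [div_le_one hq0]
    exact_mod_cast l.2
  have e2 : ((l : ℕ) : ℝ) / q ≤ 1 := le_trans (by gcongr; linarith) e1
  have a1 := h i _ (by positivity) e1
  have a2 := h i _ (by positivity) e2
  have e3 : (p i ((((l : ℕ) : ℝ) + 1) / q) - p i (((l : ℕ) : ℝ) / q)) - (φ i ((((l : ℕ) : ℝ) + 1) / q) - φ i (((l : ℕ) : ℝ) / q)) =
      (p i ((((l : ℕ) : ℝ) + 1) / q) - φ i ((((l : ℕ) : ℝ) + 1) / q)) - (p i (((l : ℕ) : ℝ) / q) - φ i (((l : ℕ) : ℝ) / q)) := by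
    ring
  rw [e3]
  have e4 := abs_sub (p i ((((l : ℕ) : ℝ) + 1) / q) - φ i ((((l : ℕ) : ℝ) + 1) / q)) (p i (((l : ℕ) : ℝ) / q) - φ i (((l : ℕ) : ℝ) / q))
  have e5 := mul_le_mul_of_nonneg_left (e4.trans (add_le_add a1 a2)) (Real.sqrt_nonneg (q : ℝ))
  linarith

theorem facts_of {P : ℕ → Fin r → ℝ → ℝ} (h0 : ∀ n i, P n i 0 = 0)
    (hosc : ∀ ε > 0, ∃ q₀ : ℕ, ∀ q ≥ q₀, ∀ᶠ n in atTop, ∀ i s t, 0 ≤ s → s ≤ t → t ≤ 1 → t - s ≤ 1 / (q : ℝ) →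
      |P n i t - P n i s| ≤ ε)
    (hlaw : ∀ q ≥ 1, Law (fun n => inc q (P n))) : Facts P :=
  ⟨h0, hosc, fun q hq => (hlaw q hq).1, fun q hq => (hlaw q hq).2.1⟩

/-- **The functional law.** -/
theorem flaw_of {P : ℕ → Fin r → ℝ → ℝ} (h0 : ∀ n i, P n i 0 = 0)
    (hosc : ∀ ε > 0, ∃ q₀ : ℕ, ∀ q ≥ q₀, ∀ᶠ n in atTop, ∀ i s t, 0 ≤ s → s ≤ t → t ≤ 1 → t - s ≤ 1 / (q : ℝ) →
      |P n i t - P n i s| ≤ ε)
    (hlaw : ∀ q ≥ 1, Law (fun n => inc q (P n))) : FLaw P := by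
  have hF := facts_of h0 hosc hlaw
  refine ⟨fun ε hε => hF.near hε, fun φ e he hφ ε hε => hF.dense he hφ hε, ?_⟩
  intro φ e he hφ δ hδ
  obtain ⟨_, _, he0, _⟩ := hφ.incr (q := 1) le_rfl
  obtain ⟨δ', hδ'⟩ : ∃ δ', δ' = min δ ((1 - e) / 2) := ⟨_, rfl⟩
  have hδ0 : 0 < δ' := by
    rw [hδ']
    exact lt_min hδ (by linarith)
  have hδ1 : δ' ≤ δ := by rw [hδ']; exact min_le_left _ _
  have hδ2 : δ' ≤ (1 - e) / 2 := by rw [hδ']; exact min_le_right _ _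
  obtain ⟨q₁, hq1, hq2⟩ := ((hφ.approx (show 0 < δ / 2 by positivity)).and (eventually_ge_atTop 1)).exists
  have hs1 := (hφ.incr hq2).1
  have hq10 : (0 : ℝ) < q₁ := by exact_mod_cast hq2
  have hsq1 : 0 < √(q₁ : ℝ) := Real.sqrt_pos.2 hq10
  obtain ⟨ε₁, hε₁, hU⟩ := (hlaw q₁ hq2).2.2 (inc q₁ φ) (lt_of_le_of_lt hs1 he) (δ / 2) (by positivity)
  refine ⟨ε₁ / (4 * √(q₁ : ℝ)), by positivity, ?_⟩
  intro ε hε hε0
  obtain ⟨q₀, hq₀⟩ := hosc (ε / 4) (by positivity)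
  obtain ⟨q₂, hq3, hq4, hq5⟩ := ((exists_mesh he0 (show 0 < ε / 4 by positivity)).and
    ((eventually_ge_atTop 1).and (eventually_ge_atTop q₀))).exists
  have hs2 := (hφ.incr hq4).1
  have hq20 : (0 : ℝ) < q₂ := by exact_mod_cast hq4
  have hsq2 : 0 < √(q₂ : ℝ) := Real.sqrt_pos.2 hq20
  obtain ⟨ε₂, hε₂, hL⟩ := (hlaw q₂ hq4).2.2 (inc q₂ φ) (lt_of_le_of_lt hs2 he) (δ' / 2) (by positivity)
  obtain ⟨n₀, hn₀⟩ := eventually_atTop.1 (hq₀ q₂ hq5)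
  have hL' := hL (min ε₂ (ε / (4 * √(q₂ : ℝ)))) (lt_min hε₂ (by positivity)) (min_le_left _ _)
  have hfin : ∀ x : ℕ, {n : ℕ | n ≤ x ∧ Near ε (P n) φ}.Finite := fun x =>
    (Set.finite_Iic x).subset (fun _ hn => hn.1)
  filter_upwards [hL', hU ε₁ hε₁ le_rfl, rpow_absorb (N := (n₀ : ℝ)) (a := 1 - e - δ') (b := 1 - e - δ' / 2) (by linarith)
    (by linarith), eventually_ge_atTop 1] with x h1 h2 h3 h4
  have hx1 : (1 : ℝ) ≤ x := by exact_mod_cast h4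
  constructor
  · have k1 : nearSet (fun n => inc q₂ (P n)) (inc q₂ φ) (min ε₂ (ε / (4 * √(q₂ : ℝ)))) x ⊆
        (Finset.range n₀ : Set ℕ) ∪ {n : ℕ | n ≤ x ∧ Near ε (P n) φ} := by
      intro n hn
      by_cases hc : n < n₀
      · left
        rw [Finset.mem_coe, mem_range]
        exact hc
      · right
        refine ⟨hn.1, near_of hφ hq4 (h0 n) (hn₀ n (by omega)) (fun y => (hn.2 y).le) ?_⟩
        have e1 := mul_le_mul_of_nonneg_left (min_le_right ε₂ (ε / (4 * √(q₂ : ℝ)))) hsq2.le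
        have e2 : √(q₂ : ℝ) * (ε / (4 * √(q₂ : ℝ))) = ε / 4 := by field_simp
        linarith
    have k2 := Set.ncard_le_ncard k1 ((Finset.finite_toSet _).union (hfin x))
    have k3 := k2.trans (Set.ncard_union_le _ _)
    rw [Set.ncard_coe_finset, card_range] at k3
    have k4 : ((nearSet (fun n => inc q₂ (P n)) (inc q₂ φ) (min ε₂ (ε / (4 * √(q₂ : ℝ)))) x).ncard : ℝ) ≤
        n₀ + ({n : ℕ | n ≤ x ∧ Near ε (P n) φ}.ncard : ℝ) := by exact_mod_cast k3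
    have k5 : (x : ℝ) ^ (1 - e - δ' / 2) ≤ (x : ℝ) ^ (1 - ∑ i, inc q₂ φ i ^ 2 - δ' / 2) :=
      Real.rpow_le_rpow_of_exponent_le hx1 (by linarith)
    have k6 : (x : ℝ) ^ (1 - e - δ) ≤ (x : ℝ) ^ (1 - e - δ') := Real.rpow_le_rpow_of_exponent_le hx1 (by linarith)
    linarith [h1.1]
  · have k1 : {n : ℕ | n ≤ x ∧ Near ε (P n) φ} ⊆ nearSet (fun n => inc q₁ (P n)) (inc q₁ φ) ε₁ x := by
      rintro n ⟨hn1, hn2⟩
      refine ⟨hn1, fun y => lt_of_le_of_lt (hn2.inc hq2 y) ?_⟩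
      have e1 := mul_le_mul_of_nonneg_left hε0 (show 0 ≤ 2 * √(q₁ : ℝ) by positivity)
      have e2 : 2 * √(q₁ : ℝ) * (ε₁ / (4 * √(q₁ : ℝ))) = ε₁ / 2 := by
        field_simp
        norm_num
      linarith
    have k2 : ({n : ℕ | n ≤ x ∧ Near ε (P n) φ}.ncard : ℝ) ≤ ((nearSet (fun n => inc q₁ (P n)) (inc q₁ φ) ε₁ x).ncard : ℝ) := by
      exact_mod_cast Set.ncard_le_ncard k1 (nearSet_finite _ _ _ _)
    have k5 : (x : ℝ) ^ (1 - ∑ i, inc q₁ φ i ^ 2 + δ / 2) ≤ (x : ℝ) ^ (1 - e + δ) :=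
      Real.rpow_le_rpow_of_exponent_le hx1 (by linarith)
    linarith [h2.2]

end Pool.Agent.Q106.FL
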