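import Pool.Agent.Q106.MD.Tr

/-!
# Laws of sequences and shifts
-/

set_option autoImplicit false

namespace Pool.Agent.Q106.FL

open Finset Filter Pool.Agent.Q106.MD
open scoped Topology

variable {r : ℕ}

theorem nearSet_shift {D : ℕ → Fin r → ℝ} {d : Fin r → ℝ} {ε : ℝ} (k x : ℕ) :
    (nearSet D d ε x).ncard ≤ k + (nearSet (fun n => D (n + k)) d ε x).ncard ∧
      (nearSet (fun n => D (n + k)) d ε x).ncard ≤ k + (nearSet D d ε x).ncard := by
  constructor
  · have h1 : nearSet D d ε x ⊆ (Finset.range k : Set ℕ) ∪ (fun n => n + k) '' nearSet (fun n => D (n + k)) d ε x := by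
      intro n hn
      by_cases h : n < k
      · left
        rw [Finset.mem_coe, mem_range]
        exact h
      · right
        refine ⟨n - k, ⟨by have := hn.1; omega, ?_⟩, by simp only; omega⟩
        have e1 : n - k + k = n := by omega
        simp only [e1]
        exact hn.2
    have h2 := Set.ncard_le_ncard h1 ((Finset.finite_toSet _).union ((nearSet_finite _ d ε x).image _))
    have h3 := h2.trans (Set.ncard_union_le _ _)
    rw [Set.ncard_coe_finset, card_range] at h3
    have h4 := Set.ncard_image_le (f := fun n => n + k) (nearSet_finite (fun n => D (n + k)) d ε x)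
    omega
  · have h1 : (fun n => n + k) '' nearSet (fun n => D (n + k)) d ε x ⊆ (Finset.Ioc x (x + k) : Set ℕ) ∪ nearSet D d ε x := by
      rintro _ ⟨n, hn, rfl⟩
      by_cases h : x < n + k
      · left
        rw [Finset.mem_coe, mem_Ioc]
        simp only
        have := hn.1
        omega
      · right
        exact ⟨by simp only; omega, hn.2⟩
    have h2 := Set.ncard_le_ncard h1 ((Finset.finite_toSet _).union (nearSet_finite D d ε x))
    have h3 := h2.trans (Set.ncard_union_le _ _)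
    rw [Set.ncard_coe_finset, Nat.card_Ioc, Set.ncard_image_of_injective _ (add_left_injective k)] at h3
    omega

/-- **The law does not depend on the first terms.** -/
theorem law_shift {D : ℕ → Fin r → ℝ} (k : ℕ) (h : Law (fun n => D (n + k))) : Law D := by
  obtain ⟨h1, h2, h3⟩ := h
  refine ⟨?_, ?_, ?_⟩
  · intro ε hε
    obtain ⟨N, hN⟩ := eventually_atTop.1 (h1 ε hε)
    filter_upwards [eventually_ge_atTop (N + k)] with n hn
    have := hN (n - k) (by omega)
    have e1 : n - k + k = n := by omega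
    simpa only [e1] using this
  · intro d hd ε hε
    exact (tendsto_add_atTop_nat k).frequently (h2 d hd ε hε)
  · intro d hd δ hδ
    obtain ⟨δ', hδ'⟩ : ∃ δ', δ' = min δ ((1 - ∑ i, d i ^ 2) / 2) := ⟨_, rfl⟩
    have hδ0 : 0 < δ' := by
      rw [hδ']
      exact lt_min hδ (by linarith)
    have hδ1 : δ' ≤ δ := by rw [hδ']; exact min_le_left _ _
    have hδ2 : δ' ≤ (1 - ∑ i, d i ^ 2) / 2 := by rw [hδ']; exact min_le_right _ _
    obtain ⟨ε₀, hε₀, hmain⟩ := h3 d hd (δ' / 2) (by positivity)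
    refine ⟨ε₀, hε₀, fun ε hε hε1 => ?_⟩
    filter_upwards [hmain ε hε hε1, rpow_absorb (N := (k : ℝ)) (a := 1 - ∑ i, d i ^ 2 - δ') (b := 1 - ∑ i, d i ^ 2 - δ' / 2)
      (by linarith) (by linarith), rpow_absorb (N := (k : ℝ)) (a := 1 - ∑ i, d i ^ 2 + δ' / 2) (b := 1 - ∑ i, d i ^ 2 + δ')
      (by linarith) (by linarith), eventually_ge_atTop 1] with x g1 g2 g3 g4
    have hx1 : (1 : ℝ) ≤ x := by exact_mod_cast g4
    obtain ⟨s1, s2⟩ := nearSet_shift (D := D) (d := d) (ε := ε) k x
    have s1' : ((nearSet D d ε x).ncard : ℝ) ≤ k + ((nearSet (fun n => D (n + k)) d ε x).ncard : ℝ) := by exact_mod_cast s1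
    have s2' : ((nearSet (fun n => D (n + k)) d ε x).ncard : ℝ) ≤ k + ((nearSet D d ε x).ncard : ℝ) := by exact_mod_cast s2
    have k6 : (x : ℝ) ^ (1 - ∑ i, d i ^ 2 - δ) ≤ (x : ℝ) ^ (1 - ∑ i, d i ^ 2 - δ') :=
      Real.rpow_le_rpow_of_exponent_le hx1 (by linarith)
    have k7 : (x : ℝ) ^ (1 - ∑ i, d i ^ 2 + δ') ≤ (x : ℝ) ^ (1 - ∑ i, d i ^ 2 + δ) :=
      Real.rpow_le_rpow_of_exponent_le hx1 (by linarith)
    constructor
    · linarith [g1.1]
    · linarith [g1.2]

end Pool.Agent.Q106.FL
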