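import Pool.Agent.Q106.FL.OscFun
import Pool.Agent.Q106.FL.Det
import Pool.Agent.Q106.FL.Shift

/-!
# The cells of windows
-/

set_option autoImplicit false

namespace Pool.Agent.Q106.FL

open Finset MeasureTheory ProbabilityTheory Filter Pool.Agent.Q120.GM Pool.Agent.Q106.UR Pool.Agent.Q106.MD
  Pool.Agent.Q106.CH Pool.Agent.Q106.UV
open scoped Topology

variable {σ : Type*} {r : ℕ}

/-- The point at the time `t` of the window `[a, b)`. -/
noncomputable def pt (a b : ℕ) (t : ℝ) : ℕ := a + ⌊t * ((b : ℝ) - a)⌋₊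

theorem pt_zero (a b : ℕ) : pt a b 0 = a := by
  unfold pt
  simp

theorem pt_ge (a b : ℕ) (t : ℝ) : a ≤ pt a b t := Nat.le_add_right _ _

theorem pt_mono {a b : ℕ} (hab : a ≤ b) {s t : ℝ} (hst : s ≤ t) : pt a b s ≤ pt a b t := by
  unfold pt
  have h : (a : ℝ) ≤ b := by exact_mod_cast hab
  have := Nat.floor_le_floor (mul_le_mul_of_nonneg_right hst (show 0 ≤ (b : ℝ) - a by linarith))
  omega

theorem pt_one {a b : ℕ} (hab : a ≤ b) : pt a b 1 = b := by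
  unfold pt
  rw [one_mul]
  have : (b : ℝ) - a = ((b - a : ℕ) : ℝ) := (Nat.cast_sub hab).symm
  rw [this, Nat.floor_natCast]
  omega

theorem pt_le {a b : ℕ} (hab : a ≤ b) {t : ℝ} (ht : t ≤ 1) : pt a b t ≤ b := by
  have := pt_mono hab ht
  rwa [pt_one hab] at this

theorem pt_diff {a b : ℕ} (hab : a ≤ b) {s t : ℝ} (hs : 0 ≤ s) (hst : s ≤ t) :
    (pt a b t : ℝ) - pt a b s ≤ (t - s) * ((b : ℝ) - a) + 1 ∧ (t - s) * ((b : ℝ) - a) - 1 ≤ (pt a b t : ℝ) - pt a b s := by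
  have h : (a : ℝ) ≤ b := by exact_mod_cast hab
  have h1 : 0 ≤ (b : ℝ) - a := by linarith
  unfold pt
  push_cast
  have e1 := Nat.floor_le (mul_nonneg hs h1)
  have e2 := Nat.lt_floor_add_one (s * ((b : ℝ) - a))
  have e3 := Nat.floor_le (mul_nonneg (hs.trans hst) h1)
  have e4 := Nat.lt_floor_add_one (t * ((b : ℝ) - a))
  constructor <;> linarith

theorem fN_add (A : Set ℕ) (S : Finset σ) (f : σ → ℕ → ℕ) {u v w : ℕ} (h1 : u ≤ v) (h2 : v ≤ w) :
    fN A S f u w = fN A S f u v + fN A S f v w := by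
  unfold fN
  have hfin : ∀ x y : ℕ, {m : ℕ | x ≤ m ∧ m < y ∧ ∀ s ∈ S, f s m ∈ A}.Finite := fun x y =>
    (Set.finite_Iio y).subset (fun m hm => hm.2.1)
  have e1 : {m : ℕ | u ≤ m ∧ m < w ∧ ∀ s ∈ S, f s m ∈ A} =
      {m : ℕ | u ≤ m ∧ m < v ∧ ∀ s ∈ S, f s m ∈ A} ∪ {m : ℕ | v ≤ m ∧ m < w ∧ ∀ s ∈ S, f s m ∈ A} := by
    ext m
    simp only [Set.mem_setOf_eq, Set.mem_union]
    constructor
    · rintro ⟨a1, a2, a3⟩
      by_cases h : m < v
      · exact Or.inl ⟨a1, h, a3⟩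
      · exact Or.inr ⟨by omega, a2, a3⟩
    · rintro (⟨a1, a2, a3⟩ | ⟨a1, a2, a3⟩)
      · exact ⟨a1, by omega, a3⟩
      · exact ⟨by omega, a2, a3⟩
  rw [e1, Set.ncard_union_eq _ (hfin u v) (hfin v w)]
  · push_cast
    rfl
  · rw [Set.disjoint_left]
    rintro m ⟨_, a2, _⟩ ⟨a3, _, _⟩
    omega

theorem fex_add (Q : ℕ) (S : Finset σ) (f : σ → ℕ → ℕ) {u v w : ℕ} (h1 : u ≤ v) (h2 : v ≤ w) :
    fex Q S f u w = fex Q S f u v + fex Q S f v w := by
  unfold fex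
  rw [← mul_add, sum_Ico_consecutive _ h1 h2]

/-- The path. -/
noncomputable def fP (Q : ℕ) (A : Set ℕ) (S : Fin r → Finset σ) (f : ℕ → Fin r → σ → ℕ → ℕ) (a b : ℕ → Fin r → ℕ) (n : ℕ)
    (i : Fin r) (t : ℝ) : ℝ :=
  (fN A (S i) (f n i) (a n i) (pt (a n i) (b n i) t) - fex Q (S i) (f n i) (a n i) (pt (a n i) (b n i) t)) /
    √(2 * fex Q (S i) (f n i) (a n i) (b n i) * Real.log n)

theorem fP_zero (Q : ℕ) (A : Set ℕ) (S : Fin r → Finset σ) (f : ℕ → Fin r → σ → ℕ → ℕ) (a b : ℕ → Fin r → ℕ) (n : ℕ)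
    (i : Fin r) : fP Q A S f a b n i 0 = 0 := by
  unfold fP
  rw [pt_zero]
  have h1 : fN A (S i) (f n i) (a n i) (a n i) = 0 := by
    unfold fN
    have : {m : ℕ | a n i ≤ m ∧ m < a n i ∧ ∀ s ∈ S i, f n i s m ∈ A} = ∅ := by
      ext m
      simp only [Set.mem_setOf_eq, Set.mem_empty_iff_false, iff_false]
      rintro ⟨h1, h2, _⟩
      omega
    rw [this]
    simp
  have h2 : fex Q (S i) (f n i) (a n i) (a n i) = 0 := by
    unfold fex
    simp
  rw [h1, h2]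
  simp

theorem fP_sub {Q : ℕ} {A : Set ℕ} {S : Fin r → Finset σ} {f : ℕ → Fin r → σ → ℕ → ℕ} {a b : ℕ → Fin r → ℕ} {n : ℕ}
    {i : Fin r} (hab : a n i ≤ b n i) {s t : ℝ} (hst : s ≤ t) : fP Q A S f a b n i t - fP Q A S f a b n i s =
      (fN A (S i) (f n i) (pt (a n i) (b n i) s) (pt (a n i) (b n i) t) -
        fex Q (S i) (f n i) (pt (a n i) (b n i) s) (pt (a n i) (b n i) t)) /
        √(2 * fex Q (S i) (f n i) (a n i) (b n i) * Real.log n) := by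
  unfold fP
  rw [fN_add A (S i) (f n i) (pt_ge (a n i) (b n i) s) (pt_mono hab hst),
    fex_add Q (S i) (f n i) (pt_ge (a n i) (b n i) s) (pt_mono hab hst), ← sub_div]
  congr 1
  ring

/-- The first component of the index of a cell. -/
def c1 {q : ℕ} (x : Fin (r * q)) : Fin r := (finProdFinEquiv.symm x).1

/-- The second component of the index of a cell. -/
def c2 {q : ℕ} (x : Fin (r * q)) : ℕ := ((finProdFinEquiv.symm x).2 : Fin q)

theorem c2_lt {q : ℕ} (x : Fin (r * q)) : c2 x < q := (finProdFinEquiv.symm x).2.2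

theorem c_ext {q : ℕ} {x y : Fin (r * q)} (h1 : c1 x = c1 y) (h2 : c2 x = c2 y) : x = y := by
  apply finProdFinEquiv.symm.injective
  exact Prod.ext h1 (Fin.ext h2)

/-- The left end of a cell. -/
noncomputable def lft {q : ℕ} (a b : ℕ → Fin r → ℕ) (n : ℕ) (x : Fin (r * q)) : ℕ :=
  pt (a n (c1 x)) (b n (c1 x)) ((c2 x : ℝ) / q)

/-- The right end of a cell. -/
noncomputable def rgt {q : ℕ} (a b : ℕ → Fin r → ℕ) (n : ℕ) (x : Fin (r * q)) : ℕ :=
  pt (a n (c1 x)) (b n (c1 x)) ((c2 x : ℝ) / q + 1 / q)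

theorem cell_bounds {q : ℕ} (hq : 1 ≤ q) {a b : ℕ → Fin r → ℕ} {n : ℕ} (hab : ∀ i, a n i ≤ b n i) (x : Fin (r * q)) :
    a n (c1 x) ≤ lft a b n x ∧ lft a b n x ≤ rgt a b n x ∧ rgt a b n x ≤ b n (c1 x) := by
  have hq0 : (0 : ℝ) < q := by exact_mod_cast hq
  refine ⟨pt_ge _ _ _, pt_mono (hab _) (by have : (0 : ℝ) ≤ 1 / q := by positivity
                                           linarith), pt_le (hab _) ?_⟩
  rw [← add_div, div_le_one hq0]
  exact_mod_cast c2_lt x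

theorem cell_size {q : ℕ} (hq : 1 ≤ q) {a b : ℕ → Fin r → ℕ} {n : ℕ} (hab : ∀ i, a n i ≤ b n i) (x : Fin (r * q)) :
    (rgt a b n x : ℝ) - lft a b n x ≤ 1 / q * ((b n (c1 x) : ℝ) - a n (c1 x)) + 1 ∧
      1 / q * ((b n (c1 x) : ℝ) - a n (c1 x)) - 1 ≤ (rgt a b n x : ℝ) - lft a b n x := by
  have hq0 : (0 : ℝ) < q := by exact_mod_cast hq
  have h0 : (0 : ℝ) ≤ 1 / q := by positivity
  have := pt_diff (hab (c1 x)) (s := (c2 x : ℝ) / q) (t := (c2 x : ℝ) / q + 1 / q) (by positivity) (by linarith)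
  rw [add_sub_cancel_left] at this
  exact this

theorem cell_eq {q : ℕ} (hq : 1 ≤ q) {a b : ℕ → Fin r → ℕ} {n : ℕ} (hab : ∀ i, a n i ≤ b n i) {x y : Fin (r * q)}
    (h1 : c1 x = c1 y) {m : ℕ} (hx : lft a b n x ≤ m) (hx' : m < rgt a b n x) (hy : lft a b n y ≤ m)
    (hy' : m < rgt a b n y) : x = y := by
  have hq0 : (0 : ℝ) < q := by exact_mod_cast hq
  have key : ∀ x y : Fin (r * q), c1 x = c1 y → c2 x < c2 y → m < rgt a b n x → lft a b n y ≤ m → False := by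
    intro x y h1 h2 h3 h4
    unfold rgt at h3
    unfold lft at h4
    rw [← h1] at h4
    have h5 : (c2 x : ℝ) / q + 1 / q ≤ (c2 y : ℝ) / q := by
      rw [← add_div]
      refine div_le_div_of_nonneg_right ?_ hq0.le
      exact_mod_cast h2
    have := pt_mono (hab (c1 x)) h5
    omega
  refine c_ext h1 ?_
  rcases lt_trichotomy (c2 x) (c2 y) with h | h | h
  · exact (key x y h1 h hx' hy).elim
  · exact h
  · exact (key y x h1.symm h hy' hx).elim

end Pool.Agent.Q106.FL
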