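import Pool.Agent.Q106.FL.Tail

/-!
# Oscillations of the numbers of patterns: almost sure bounds
-/

set_option autoImplicit false

namespace Pool.Agent.Q106.FL

open Finset MeasureTheory ProbabilityTheory Filter Pool.Agent.Q120.GM Pool.Agent.Q106.UR Pool.Agent.Q106.MD
open scoped Topology

variable {Ω : Type*} [MeasurableSpace Ω] {μ : Measure Ω} [IsProbabilityMeasure μ] {ι : Type*} [DecidableEq ι]
  {p : ι → ℝ} {A : Ω → Set ι}

/-- The probability of the bad event for one window. -/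
theorem bad_le {T : ℕ → Finset ι} (hA : IsModel μ p A) {y a b q : ℕ} {D s P₀ B V L Λ S ε K : ℝ} (hW : Win p T y a b D s P₀)
    (hab : a ≤ b) (hB : B = (b : ℝ) - a) (hV : V = P₀ * B) (hP : P₀ ≤ 1) (hV0 : 0 < V) (hL : 1 ≤ L) (hΛ : 1 ≤ Λ)
    (hS : S = √(V * L)) (hε : 0 < ε) (hε1 : ε ≤ 1) (hq : 1 ≤ q) (hK : K = 29 * (D * q) ^ 2) (hH : K * (Λ ^ 3 * B * S) ≤ V ^ 2)
    (hBq : q * Λ ≤ B) :
    μ.real (Bad p A T y a b (⌊B / (q * Λ)⌋₊ + 1) (4 * B / q) (ε / 3 * S)) ≤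
      (2 * (q * Λ)) ^ 2 * (2 * Real.exp (L - ε ^ 2 * q * L / 144)) +
      4 * B * (2 * Real.exp (L - ε ^ 2 * q * Λ * L / 72)) := by
  have hq0 : (1 : ℝ) ≤ q := by exact_mod_cast hq
  have hD := hW.oneD
  have hB0 : 0 < B := by nlinarith
  have hP0 : 0 < P₀ := by
    by_contra hcon
    push Not at hcon
    nlinarith
  have hVB : V ≤ B := by rw [hV]; nlinarith
  have hVL : 0 < V * L := by positivity
  have hS2 : S ^ 2 = V * L := by rw [hS, Real.sq_sqrt hVL.le]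
  have hS0 : 0 < S := by rw [hS]; exact Real.sqrt_pos.2 hVL
  have hqΛ : 0 < (q : ℝ) * Λ := by positivity
  obtain ⟨w, hw⟩ : ∃ w, w = ⌊B / (q * Λ)⌋₊ + 1 := ⟨_, rfl⟩
  rw [← hw]
  have hw1 : B / (q * Λ) ≤ w := by
    rw [hw]
    push_cast
    exact (Nat.lt_floor_add_one _).le
  have hw2 : (w : ℝ) ≤ 2 * B / (q * Λ) := by
    rw [hw]
    push_cast
    have e1 := Nat.floor_le (show 0 ≤ B / (q * Λ) by positivity)
    have e2 : 1 ≤ B / (q * Λ) := by rw [one_le_div hqΛ]; exact hBq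
    have e3 : 2 * B / (q * Λ) = B / (q * Λ) + B / (q * Λ) := by ring
    linarith
  have hw0 : (0 : ℝ) < w := lt_of_lt_of_le (by positivity) hw1
  obtain ⟨τ, hτ⟩ : ∃ τ, τ = ε / 3 * S := ⟨_, rfl⟩
  rw [← hτ]
  have hτ0 : 0 < τ := by rw [hτ]; positivity
  have hτS : τ ≤ S := by
    rw [hτ]
    nlinarith
  have hτ2 : τ ^ 2 = ε ^ 2 / 9 * (V * L) := by
    rw [hτ, mul_pow, hS2]
    ring
  have hDq : 1 ≤ D * q := by nlinarith
  have hKbig : 29 * (D * q) ≤ K := by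
    rw [hK]
    nlinarith
  have hK0 : 0 < K := by linarith
  have hD0 : 0 < D := by linarith
  have hΛ3 : Λ ≤ Λ ^ 3 := by nlinarith [mul_pos (show 0 < Λ by linarith) (show 0 < Λ by linarith)]
  have hΛ1 : 1 ≤ Λ ^ 3 := by linarith
  have hΛ2 : Λ ^ 2 ≤ Λ ^ 3 := by nlinarith [mul_pos (show 0 < Λ by linarith) (show 0 < Λ by linarith)]
  -- the first exponent
  obtain ⟨θ₁, hθ₁⟩ : ∃ θ₁, θ₁ = τ * q / (8 * V) := ⟨_, rfl⟩
  obtain ⟨θ₂, hθ₂⟩ : ∃ θ₂, θ₂ = τ * q * Λ / (4 * V) := ⟨_, rfl⟩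
  have hθ₁0 : 0 ≤ θ₁ := by rw [hθ₁]; positivity
  have hθ₂0 : 0 ≤ θ₂ := by rw [hθ₂]; positivity
  have hθ12 : θ₁ ≤ θ₂ := by
    rw [hθ₁, hθ₂, div_le_div_iff₀ (by positivity) (by positivity)]
    have : 0 < τ * q * V := by positivity
    nlinarith
  have hSV : 29 * (D * q) * Λ * S ≤ V := by
    have e1 : 29 * (D * q) * Λ * S * V ≤ V * V := by
      calc 29 * (D * q) * Λ * S * V ≤ K * Λ ^ 3 * S * B := by gcongr
        _ = K * (Λ ^ 3 * B * S) := by ring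
        _ ≤ V ^ 2 := hH
        _ = V * V := sq V
    exact le_of_mul_le_mul_right e1 hV0
  have hθ₂D : 56 * (D * θ₂) ≤ 1 := by
    rw [hθ₂]
    have e1 : 56 * (D * (τ * q * Λ / (4 * V))) = 14 * (D * q) * Λ * τ / V := by
      field_simp
      ring
    rw [e1, div_le_one hV0]
    have e2 : 14 * (D * q) * Λ * τ ≤ 29 * (D * q) * Λ * S := by
      have e3 : 14 * (D * q) * Λ * τ ≤ 14 * (D * q) * Λ * S := mul_le_mul_of_nonneg_left hτS (by positivity)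
      have e4 : 0 ≤ (D * q) * Λ * S := by positivity
      linarith
    linarith
  have hθ₁D : 56 * (D * θ₁) ≤ 1 := by
    refine le_trans ?_ hθ₂D
    gcongr
  have hτ3 : τ ^ 3 ≤ S * (V * L) := by
    calc τ ^ 3 ≤ S ^ 3 := by gcongr
      _ = S * S ^ 2 := by ring
      _ = S * (V * L) := by rw [hS2]
  have h1 := bad_prob (w := w) hA hW (ℓ := 4 * B / q) (τ := τ) hθ₁0 hθ₁D hθ₂0 hθ₂D hw2
  refine h1.trans ?_
  have hK1 : ((((b - a) / w + 1 : ℕ)) : ℝ) ≤ 2 * (q * Λ) := by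
    push_cast
    have e1 : (((b - a) / w : ℕ) : ℝ) ≤ B / w := by
      refine (Nat.cast_div_le).trans ?_
      rw [hB, Nat.cast_sub hab]
    have e2 : B / w ≤ q * Λ := by
      rw [div_le_iff₀ hw0]
      rw [div_le_iff₀ hqΛ] at hw1
      linarith
    have e3 : 1 ≤ (q : ℝ) * Λ := by nlinarith
    linarith
  have hE1 : θ₁ ^ 2 * (P₀ * (4 * B / q)) + 29 * (D ^ 2 * θ₁ ^ 3) * (4 * B / q) - θ₁ * τ ≤ L - ε ^ 2 * q * L / 144 := by
    have e1 : θ₁ ^ 2 * (P₀ * (4 * B / q)) = τ ^ 2 * q / (16 * V) := by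
      have : P₀ * (4 * B / q) = 4 * V / q := by rw [hV]; ring
      rw [this, hθ₁]
      field_simp
      ring
    have e2 : θ₁ * τ = τ ^ 2 * q / (8 * V) := by
      rw [hθ₁]
      ring
    have e3 : 29 * (D ^ 2 * θ₁ ^ 3) * (4 * B / q) ≤ L := by
      have e4 : 29 * (D ^ 2 * θ₁ ^ 3) * (4 * B / q) = (29 / 128 * (D * q) ^ 2) * (B * τ ^ 3) / V ^ 3 := by
        rw [hθ₁]
        field_simp
        ring
      rw [e4, div_le_iff₀ (by positivity)]
      calc (29 / 128 * (D * q) ^ 2) * (B * τ ^ 3) ≤ (29 / 128 * (D * q) ^ 2) * (B * (S * (V * L))) := by gcongr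
        _ = (29 / 128 * (D * q) ^ 2 * (1 * B * S)) * (V * L) := by ring
        _ ≤ (29 * (D * q) ^ 2 * (Λ ^ 3 * B * S)) * (V * L) := by gcongr; norm_num
        _ ≤ V ^ 2 * (V * L) := by
          rw [← hK]
          gcongr
        _ = L * V ^ 3 := by ring
    have e5 : τ ^ 2 * q / (16 * V) - τ ^ 2 * q / (8 * V) = - (ε ^ 2 * q * L / 144) := by
      rw [hτ2]
      field_simp
      ring
    linarith
  have hE2 : θ₂ ^ 2 * (P₀ * (2 * B / (q * Λ))) + 29 * (D ^ 2 * θ₂ ^ 3) * (2 * B / (q * Λ)) - θ₂ * τ ≤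
      L - ε ^ 2 * q * Λ * L / 72 := by
    have e1 : θ₂ ^ 2 * (P₀ * (2 * B / (q * Λ))) = τ ^ 2 * q * Λ / (8 * V) := by
      have : P₀ * (2 * B / (q * Λ)) = 2 * V / (q * Λ) := by rw [hV]; ring
      rw [this, hθ₂]
      field_simp
      ring
    have e2 : θ₂ * τ = τ ^ 2 * q * Λ / (4 * V) := by
      rw [hθ₂]
      ring
    have e3 : 29 * (D ^ 2 * θ₂ ^ 3) * (2 * B / (q * Λ)) ≤ L := by
      have e4 : 29 * (D ^ 2 * θ₂ ^ 3) * (2 * B / (q * Λ)) = (29 / 32 * (D * q) ^ 2) * (Λ ^ 2 * B * τ ^ 3) / V ^ 3 := by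
        rw [hθ₂]
        field_simp
        ring
      rw [e4, div_le_iff₀ (by positivity)]
      calc (29 / 32 * (D * q) ^ 2) * (Λ ^ 2 * B * τ ^ 3) ≤ (29 / 32 * (D * q) ^ 2) * (Λ ^ 2 * B * (S * (V * L))) := by gcongr
        _ = (29 / 32 * (D * q) ^ 2 * (Λ ^ 2 * B * S)) * (V * L) := by ring
        _ ≤ (29 * (D * q) ^ 2 * (Λ ^ 3 * B * S)) * (V * L) := by gcongr; norm_num
        _ ≤ V ^ 2 * (V * L) := by
          rw [← hK]
          gcongr
        _ = L * V ^ 3 := by ring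
    have e5 : τ ^ 2 * q * Λ / (8 * V) - τ ^ 2 * q * Λ / (4 * V) = - (ε ^ 2 * q * Λ * L / 72) := by
      rw [hτ2]
      field_simp
      ring
    linarith
  have hKw : ((((b - a) / w + 1 : ℕ)) : ℝ) * w ≤ 4 * B := by
    calc ((((b - a) / w + 1 : ℕ)) : ℝ) * w ≤ 2 * (q * Λ) * (2 * B / (q * Λ)) := by gcongr
      _ = 4 * B := by field_simp; ring
  gcongr

/-- **The oscillations are small.** -/
theorem osc_seq (hA : IsModel μ p A) {T : ℕ → ℕ → Finset ι} {y a b : ℕ → ℕ} {D C : ℝ} {s P₀ B V L Λ S : ℕ → ℝ}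
    (hW : ∀ᶠ n in atTop, Win p (T n) (y n) (a n) (b n) D (s n) (P₀ n)) (hab : ∀ᶠ n in atTop, a n ≤ b n)
    (hB : ∀ n, B n = (b n : ℝ) - a n) (hV : ∀ n, V n = P₀ n * B n) (hP : ∀ᶠ n in atTop, P₀ n ≤ 1 ∧ 0 < V n)
    (hL : Tendsto L atTop atTop) (hLs : Summable (fun n => Real.exp (-2 * L n)))
    (hΛ : ∀ᶠ n in atTop, 1 ≤ Λ n ∧ B n ≤ Real.exp (Λ n) ∧ Λ n ≤ Real.exp (C * L n)) (hS : ∀ n, S n = √(V n * L n))
    (hH : ∀ K : ℝ, ∀ᶠ n in atTop, K * (Λ n ^ 3 * B n * S n) ≤ V n ^ 2) (hBq : ∀ K : ℝ, ∀ᶠ n in atTop, K * Λ n ≤ B n) :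
    ∀ᵐ ω ∂μ, ∀ ε > 0, ∃ q₀ : ℕ, ∀ q ≥ q₀, ∀ᶠ n in atTop, ∀ u v : ℕ, a n ≤ u → u ≤ v → v ≤ b n →
      (v : ℝ) - u ≤ B n / q + 1 → |XX p A (T n) (y n) u v ω| ≤ ε * S n := by
  have key : ∀ ε : ℝ, 0 < ε → ε ≤ 1 → ∃ q₀ : ℕ, 1 ≤ q₀ ∧ ∀ q ≥ q₀, ∀ᵐ ω ∂μ, ∀ᶠ n in atTop,
      ω ∉ Bad p A (T n) (y n) (a n) (b n) (⌊B n / (q * Λ n)⌋₊ + 1) (4 * B n / q) (ε / 3 * S n) := by
    intro ε hε hε1
    obtain ⟨q₀, hq₀⟩ := exists_nat_gt (144 * (4 + 2 * |C|) / ε ^ 2)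
    refine ⟨q₀ + 1, by omega, fun q hq => ?_⟩
    have hq1 : 1 ≤ q := by omega
    have hq0 : (1 : ℝ) ≤ q := by exact_mod_cast hq1
    have hqε : 144 * (4 + 2 * |C|) ≤ ε ^ 2 * q := by
      rw [div_lt_iff₀ (by positivity)] at hq₀
      have : (q₀ : ℝ) ≤ q := by exact_mod_cast (show q₀ ≤ q by omega)
      nlinarith [sq_nonneg ε]
    have hC := abs_nonneg C
    refine bc hLs ?_
    have hlog : Tendsto (fun n => L n) atTop atTop := hL
    filter_upwards [hW, hab, hP, hL.eventually_ge_atTop 1, hL.eventually_ge_atTop (Real.log (16 * (q : ℝ) ^ 2)), hΛ,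
      hH (29 * (D * q) ^ 2), hBq q] with n n1 n2 n3 n4 n5 n6 n7 n8
    have h1 := bad_le (ε := ε) hA n1 n2 (hB n) (hV n) n3.1 n3.2 n4 n6.1 (hS n) hε hε1 hq1 rfl n7 n8
    refine h1.trans ?_
    obtain ⟨l1, l2, l3⟩ := n6
    have hLe : 16 * (q : ℝ) ^ 2 ≤ Real.exp (L n) := by
      rw [← Real.log_le_iff_le_exp (by positivity)]
      exact n5
    have hexp3 : (16 * (q : ℝ) ^ 2) * Real.exp (-3 * L n) ≤ Real.exp (-2 * L n) := by
      calc (16 * (q : ℝ) ^ 2) * Real.exp (-3 * L n) ≤ Real.exp (L n) * Real.exp (-3 * L n) := by gcongr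
        _ = Real.exp (-2 * L n) := by
          rw [← Real.exp_add]
          congr 1
          ring
    have hΛ2 : Λ n ^ 2 ≤ Real.exp (2 * |C| * L n) := by
      have e1 : Λ n ≤ Real.exp (|C| * L n) := l3.trans (Real.exp_le_exp.2 (by
        have := le_abs_self C
        nlinarith))
      calc Λ n ^ 2 ≤ Real.exp (|C| * L n) ^ 2 := by gcongr
        _ = Real.exp (2 * |C| * L n) := by
          rw [← Real.exp_nat_mul]
          congr 1
          push_cast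
          ring
    have t1 : (2 * (q * Λ n)) ^ 2 * (2 * Real.exp (L n - ε ^ 2 * q * L n / 144)) ≤ 1 / 2 * Real.exp (-2 * L n) := by
      have e1 : (2 * (q * Λ n)) ^ 2 * (2 * Real.exp (L n - ε ^ 2 * q * L n / 144)) =
          8 * (q : ℝ) ^ 2 * (Λ n ^ 2 * Real.exp (L n - ε ^ 2 * q * L n / 144)) := by ring
      have e2 : Λ n ^ 2 * Real.exp (L n - ε ^ 2 * q * L n / 144) ≤ Real.exp (-3 * L n) := by
        calc Λ n ^ 2 * Real.exp (L n - ε ^ 2 * q * L n / 144) ≤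
            Real.exp (2 * |C| * L n) * Real.exp (L n - ε ^ 2 * q * L n / 144) := by gcongr
          _ = Real.exp (2 * |C| * L n + (L n - ε ^ 2 * q * L n / 144)) := (Real.exp_add _ _).symm
          _ ≤ Real.exp (-3 * L n) := by
            apply Real.exp_le_exp.2
            have : 144 * (4 + 2 * |C|) * L n ≤ ε ^ 2 * q * L n := mul_le_mul_of_nonneg_right hqε (by linarith)
            linarith
      rw [e1]
      calc 8 * (q : ℝ) ^ 2 * (Λ n ^ 2 * Real.exp (L n - ε ^ 2 * q * L n / 144)) ≤ 8 * (q : ℝ) ^ 2 * Real.exp (-3 * L n) := by gcongr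
        _ = 1 / 2 * ((16 * (q : ℝ) ^ 2) * Real.exp (-3 * L n)) := by ring
        _ ≤ 1 / 2 * Real.exp (-2 * L n) := by gcongr
    have t2 : 4 * B n * (2 * Real.exp (L n - ε ^ 2 * q * Λ n * L n / 72)) ≤ 1 / 2 * Real.exp (-2 * L n) := by
      have e2 : B n * Real.exp (L n - ε ^ 2 * q * Λ n * L n / 72) ≤ Real.exp (-3 * L n) := by
        calc B n * Real.exp (L n - ε ^ 2 * q * Λ n * L n / 72) ≤
            Real.exp (Λ n) * Real.exp (L n - ε ^ 2 * q * Λ n * L n / 72) := by gcongr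
          _ = Real.exp (Λ n + (L n - ε ^ 2 * q * Λ n * L n / 72)) := (Real.exp_add _ _).symm
          _ ≤ Real.exp (-3 * L n) := by
            apply Real.exp_le_exp.2
            have f1 : 144 * (4 + 2 * |C|) * (Λ n * L n) ≤ ε ^ 2 * q * (Λ n * L n) :=
              mul_le_mul_of_nonneg_right hqε (by nlinarith)
            have f2 : L n ≤ Λ n * L n := by nlinarith
            have f3 : Λ n ≤ Λ n * L n := by nlinarith
            have f4 : 0 ≤ |C| * (Λ n * L n) := by positivity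
            nlinarith
      have hq2 : (1 : ℝ) ≤ (q : ℝ) ^ 2 := one_le_pow₀ hq0
      calc 4 * B n * (2 * Real.exp (L n - ε ^ 2 * q * Λ n * L n / 72)) = 8 * (B n * Real.exp (L n - ε ^ 2 * q * Λ n * L n / 72)) := by ring
        _ ≤ 8 * Real.exp (-3 * L n) := by gcongr
        _ ≤ 8 * (q : ℝ) ^ 2 * Real.exp (-3 * L n) := by
          have := Real.exp_pos (-3 * L n)
          nlinarith
        _ = 1 / 2 * ((16 * (q : ℝ) ^ 2) * Real.exp (-3 * L n)) := by ring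
        _ ≤ 1 / 2 * Real.exp (-2 * L n) := by gcongr
    linarith
  have hk : ∀ k : ℕ, (0 : ℝ) < 1 / ((k : ℝ) + 1) ∧ 1 / ((k : ℝ) + 1) ≤ 1 := fun k =>
    ⟨by positivity, by rw [div_le_one (by positivity)]; linarith [Nat.cast_nonneg (α := ℝ) k]⟩
  choose! q₀ hq₀1 hq₀ using fun k : ℕ => key (1 / ((k : ℝ) + 1)) (hk k).1 (hk k).2
  have hall : ∀ᵐ ω ∂μ, ∀ k q : ℕ, q₀ k ≤ q → ∀ᶠ n in atTop,
      ω ∉ Bad p A (T n) (y n) (a n) (b n) (⌊B n / (q * Λ n)⌋₊ + 1) (4 * B n / q) (1 / ((k : ℝ) + 1) / 3 * S n) := by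
    refine ae_all_iff.2 (fun k => ae_all_iff.2 (fun q => ?_))
    by_cases hkq : q₀ k ≤ q
    · filter_upwards [hq₀ k q hkq] with ω hω _
      exact hω
    · exact Eventually.of_forall (fun ω h => absurd h hkq)
  filter_upwards [hall] with ω hω ε hε
  obtain ⟨k, hk2⟩ := exists_nat_one_div_lt hε
  refine ⟨q₀ k, fun q hq => ?_⟩
  have hq1 : 1 ≤ q := (hq₀1 k).trans hq
  have hq0 : (1 : ℝ) ≤ q := by exact_mod_cast hq1
  filter_upwards [hω k q hq, hab, hΛ, hBq q] with n n1 n2 n3 n4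
  intro u v h1 h2 h3 h4
  have hBpos : (q : ℝ) ≤ B n := by nlinarith [n3.1]
  have hS0 : 0 ≤ S n := by rw [hS]; exact Real.sqrt_nonneg _
  have h5 := osc_of_good (Nat.le_add_left 1 _) n1 h1 h2 h3 (by
    have e0 : 0 < (q : ℝ) * Λ n := by nlinarith [n3.1]
    have e1 := Nat.floor_le (show 0 ≤ B n / (q * Λ n) from div_nonneg (by linarith) e0.le)
    have e2 : B n / (q * Λ n) ≤ B n / q := by
      have : (q : ℝ) ≤ q * Λ n := by nlinarith [n3.1]
      exact div_le_div_of_nonneg_left (by linarith) (by linarith) this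
    have e3 : 1 ≤ B n / q := by
      rw [one_le_div (by linarith)]
      exact hBpos
    have e4 : ((v - u : ℕ) : ℝ) = (v : ℝ) - u := Nat.cast_sub h2
    push_cast
    rw [e4]
    have e5 : 4 * B n / q = B n / q + B n / q + B n / q + B n / q := by ring
    linarith)
  refine h5.trans ?_
  have : 3 * (1 / ((k : ℝ) + 1) / 3 * S n) = 1 / ((k : ℝ) + 1) * S n := by ring
  rw [this]
  exact mul_le_mul_of_nonneg_right hk2.le hS0

end Pool.Agent.Q106.FL
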