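import Pool.Agent.Q106.FL.Osc

/-!
# Oscillations of the numbers of the values of systems of increasing functions
-/

set_option autoImplicit false

namespace Pool.Agent.Q106.FL

open Finset MeasureTheory ProbabilityTheory Filter Pool.Agent.Q120.GM Pool.Agent.Q106.UR Pool.Agent.Q106.MD
  Pool.Agent.Q106.CH Pool.Agent.Q106.UV
open scoped Topology

variable {σ : Type*}

/-- The data for the oscillations. -/
structure OD (Q : ℕ) (S : Finset σ) (f : ℕ → σ → ℕ → ℕ) (N a b : ℕ → ℕ) (L : ℕ → ℝ) (δ C : ℝ) : Prop where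
  ne : S.Nonempty
  mono : ∀ n, ∀ s ∈ S, StrictMono (f n s)
  per : ∀ n, ∀ s ∈ S, ∀ m, f n s (m + Q) ≡ f n s m [MOD Q]
  dist : ∀ n m, a n ≤ m → m < b n → Set.InjOn (fun s => f n s m) (S : Set σ)
  bd : ∀ n, ∀ s ∈ S, ∀ m, m < b n → f n s m ≤ N n
  sing : ∀ n, 0 < fser Q S (f n)
  win : ∀ n, 3 ≤ a n ∧ a n ≤ b n
  size : ∀ n, (N n : ℝ) ^ δ ≤ (b n : ℝ) - a n
  lim : Tendsto N atTop atTop
  Llim : Tendsto L atTop atTop
  sum : Summable fun n => Real.exp (-2 * L n)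
  Lle : ∀ᶠ n in atTop, L n ≤ Real.log ((2 * N n : ℕ) : ℝ)
  Lge : ∀ᶠ n in atTop, Real.log ((2 * N n : ℕ) : ℝ) ≤ Real.exp (C * L n)

/-- The truncation. -/
noncomputable def cy (δ : ℝ) (x : ℕ) : ℕ := ⌈(x : ℝ) ^ (δ / 3)⌉₊

theorem cy_lim {δ : ℝ} (hδ : 0 < δ) : Tendsto (fun x => Real.log (cy δ x)) atTop atTop := by
  refine Real.tendsto_log_atTop.comp ?_
  have h1 : Tendsto (fun n : ℕ => (n : ℝ) ^ (δ / 3)) atTop atTop :=
    (tendsto_rpow_atTop (by positivity)).comp tendsto_natCast_atTop_atTop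
  exact tendsto_atTop_mono (fun n => Nat.le_ceil _) h1

/-- The numerical facts. -/
theorem nfacts {δ : ℝ} (hδ : 0 < δ) (hδ1 : δ ≤ 1) {Q k : ℕ} (hQ : 1 ≤ Q) (K : ℝ) : ∀ᶠ x : ℕ in atTop,
    3 ≤ x ∧ qq Q ≤ Real.log (cy δ x) ∧ 1 ≤ Real.log (cy δ x) ∧ K ^ 2 * qq Q ≤ Real.log (cy δ x) ∧
    Real.log (cy δ x) ≤ Real.log ((2 * x : ℕ) : ℝ) ∧ Real.log ((2 * x : ℕ) : ℝ) ≤ 6 / δ * Real.log (cy δ x) ∧
    K ^ 2 * Real.log ((2 * x : ℕ) : ℝ) ^ (7 + 3 * k) ≤ (x : ℝ) ^ δ ∧ K * Real.log ((2 * x : ℕ) : ℝ) ≤ (x : ℝ) ^ δ ∧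
    (K * (cy δ x + 1)) ^ 2 * (Q * Real.log ((2 * x : ℕ) : ℝ) ^ k) ≤ (x : ℝ) ^ δ := by
  have hQ0 : (0 : ℝ) < Q := by exact_mod_cast hQ
  filter_upwards [eventually_ge_atTop 3, (cy_lim hδ).eventually_ge_atTop (qq Q), (cy_lim hδ).eventually_ge_atTop 1,
    (cy_lim hδ).eventually_ge_atTop (K ^ 2 * qq Q), ev_pow_log (K ^ 2) (7 + 3 * k) (s := 0) (t := δ) hδ,
    ev_pow_log K 1 (s := 0) (t := δ) hδ, ev_pow_log ((3 * K) ^ 2 * Q) k (s := 2 * δ / 3) (t := δ) (by linarith)]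
    with x h1 h2 h3 h4 h5 h6 h7
  have hx3 : (3 : ℝ) ≤ x := by exact_mod_cast h1
  have hx0 : (0 : ℝ) < x := by linarith
  have hpow1 : 1 ≤ (x : ℝ) ^ (δ / 3) := Real.one_le_rpow (by linarith) (by positivity)
  have hcy1 : (x : ℝ) ^ (δ / 3) ≤ cy δ x := Nat.le_ceil _
  have hcy2 : (cy δ x : ℝ) ≤ (x : ℝ) ^ (δ / 3) + 1 := (Nat.ceil_lt_add_one (by positivity)).le
  have hpowx : (x : ℝ) ^ (δ / 3) ≤ x := by
    calc (x : ℝ) ^ (δ / 3) ≤ (x : ℝ) ^ (1 : ℝ) := Real.rpow_le_rpow_of_exponent_le (by linarith) (by linarith)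
      _ = x := Real.rpow_one _
  rw [Real.rpow_zero, mul_one] at h5 h6
  rw [pow_one] at h6
  refine ⟨h1, h2, h3, h4, ?_, ?_, h5, h6, ?_⟩
  · refine Real.log_le_log (by linarith) ?_
    push_cast
    linarith
  · have e1 : δ / 3 * Real.log x ≤ Real.log (cy δ x) := by
      rw [← Real.log_rpow hx0]
      exact Real.log_le_log (by positivity) hcy1
    have e2 : Real.log ((2 * x : ℕ) : ℝ) ≤ 2 * Real.log x := by
      push_cast
      rw [Real.log_mul (by norm_num) hx0.ne']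
      have : Real.log 2 ≤ Real.log x := Real.log_le_log (by norm_num) (by linarith)
      linarith
    have e3 : 6 / δ * (δ / 3 * Real.log x) = 2 * Real.log x := by
      field_simp
      ring
    have e4 := mul_le_mul_of_nonneg_left e1 (show 0 ≤ 6 / δ by positivity)
    linarith
  · have hlog : 0 ≤ Real.log ((2 * x : ℕ) : ℝ) := Real.log_natCast_nonneg _
    have e1 : (cy δ x : ℝ) + 1 ≤ 3 * (x : ℝ) ^ (δ / 3) := by linarith
    have e2 : (K * ((cy δ x : ℝ) + 1)) ^ 2 ≤ (3 * K) ^ 2 * (x : ℝ) ^ (2 * δ / 3) := by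
      have e3 : ((x : ℝ) ^ (δ / 3)) ^ 2 = (x : ℝ) ^ (2 * δ / 3) := by
        rw [← Real.rpow_natCast, ← Real.rpow_mul hx0.le]
        congr 1
        push_cast
        ring
      rw [← e3]
      have e4 : 0 ≤ (cy δ x : ℝ) + 1 := by positivity
      calc (K * ((cy δ x : ℝ) + 1)) ^ 2 = K ^ 2 * ((cy δ x : ℝ) + 1) ^ 2 := by ring
        _ ≤ K ^ 2 * (3 * (x : ℝ) ^ (δ / 3)) ^ 2 := by gcongr
        _ = _ := by ring
    calc (K * ((cy δ x : ℝ) + 1)) ^ 2 * (Q * Real.log ((2 * x : ℕ) : ℝ) ^ k) ≤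
        ((3 * K) ^ 2 * (x : ℝ) ^ (2 * δ / 3)) * (Q * Real.log ((2 * x : ℕ) : ℝ) ^ k) := by gcongr
      _ = (3 * K) ^ 2 * Q * (Real.log ((2 * x : ℕ) : ℝ) ^ k * (x : ℝ) ^ (2 * δ / 3)) := by ring
      _ ≤ (x : ℝ) ^ δ := h7

theorem ft_deg_one {S : Finset σ} {f : σ → ℕ → ℕ} (hf : ∀ s ∈ S, StrictMono (f s)) (J : Finset ℕ) (m : ℕ) :
    (((J.filter (fun m' => ¬ Disjoint (ft S f m') (ft S f m))).card : ℕ) : ℝ) ≤ (S.card : ℝ) ^ 2 + 1 := by
  have h1 := ft_deg (r := 1) (fun _ => S) (fun _ => f) (fun _ s hs => (hf s hs).injective) (fun _ => J) (ft S f m)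
    (R := S.card) (by simp) (ft_card S f m)
  refine le_trans ?_ h1
  have h2 : (J.filter (fun m' => ¬ Disjoint (ft S f m') (ft S f m))).card ≤
      (((univ : Finset (Fin 1)).sigma (fun _ => J)).filter (fun x : (_ : Fin 1) × ℕ => ¬ Disjoint (ft S f x.2) (ft S f m))).card := by
    refine card_le_card_of_injOn (fun m' => ⟨0, m'⟩) ?_ ?_
    · intro x hx
      rw [mem_coe, mem_filter] at hx
      rw [mem_coe, mem_filter, mem_sigma]
      exact ⟨⟨mem_univ _, hx.1⟩, hx.2⟩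
    · intro x _ x' _ h
      simpa using h
  exact_mod_cast h2

/-- The window hypotheses. -/
theorem win_of {Q : ℕ} {S : Finset σ} {f : σ → ℕ → ℕ} (hQ : 1 ≤ Q) (hne : S.Nonempty) (hf : ∀ s ∈ S, StrictMono (f s)) {a b y : ℕ}
    (hinj : ∀ m, a ≤ m → m < b → Set.InjOn (fun s => f s m) (S : Set σ))
    (hy : qq Q ≤ Real.log y) (hy1 : 1 ≤ Real.log y) (hy2 : ((S.card : ℝ) ^ 2 + 1) ^ 2 * qq Q ≤ Real.log y) :
    Win (level Q) (ft S f) y a b ((S.card : ℝ) ^ 2 + 1) (√(qq Q / Real.log y)) ((qq Q / Real.log y) ^ S.card) where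
  oneD := by
    have := sq_nonneg (S.card : ℝ)
    linarith
  spos := Real.sqrt_pos.2 (div_pos (qq_pos hQ) (by linarith))
  sone := by
    rw [Real.sqrt_le_one, div_le_one (by linarith)]
    exact hy
  sD := by
    have h1 : 0 ≤ (S.card : ℝ) ^ 2 + 1 := by positivity
    have h2 : √(qq Q / Real.log y) * ((S.card : ℝ) ^ 2 + 1) = √(qq Q / Real.log y * ((S.card : ℝ) ^ 2 + 1) ^ 2) := by
      rw [Real.sqrt_mul (div_nonneg (qq_pos hQ).le (by linarith)), Real.sqrt_sq h1]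
    rw [h2, Real.sqrt_le_one, div_mul_eq_mul_div, div_le_one (by linarith)]
    linarith
  P0 := pow_nonneg (div_nonneg (qq_pos hQ).le (by linarith)) _
  small := by
    intro m hm hmb hym x hx
    rw [Real.sq_sqrt (div_nonneg (qq_pos hQ).le (by linarith))]
    obtain ⟨s, hs, rfl⟩ := mem_ft.1 hx
    have h1 := pos_of_log hy1
    exact level_le (by linarith) (by linarith) (by exact_mod_cast hym.trans (fge hf hs m))
  ne := fun m _ _ _ => hne.image _
  inj := fun m m' _ _ _ _ _ _ h => ft_inj hne hf h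
  deg := fun m _ _ _ => ft_deg_one hf _ m
  prob := by
    intro m hm hmb hym
    rw [prob_ft hf (hinj m hm hmb) hy hy1 hym]
    have hy0 := pos_of_log hy1
    have h1 : fw S f m ≤ (Real.log y)⁻¹ ^ S.card := by
      unfold fw
      rw [← prod_const]
      refine prod_le_prod (fun s hs => ?_) (fun s hs => ?_)
      · exact inv_nonneg.2 (Real.log_natCast_nonneg _)
      · refine inv_anti₀ (by linarith) (Real.log_le_log (by linarith) ?_)
        exact_mod_cast hym.trans (fge hf hs m)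
    have h2 : 0 ≤ fw S f m := by
      unfold fw
      exact prod_nonneg (fun s _ => inv_nonneg.2 (Real.log_natCast_nonneg _))
    have h3 : (if fcop Q S f m then (1 : ℝ) else 0) * fw S f m ≤ (Real.log y)⁻¹ ^ S.card := by
      split_ifs
      · rw [one_mul]
        exact h1
      · rw [zero_mul]
        exact h2.trans h1
    rw [div_eq_mul_inv, mul_pow]
    exact mul_le_mul_of_nonneg_left h3 (pow_nonneg (qq_pos hQ).le _)

variable {Ω : Type*} [MeasurableSpace Ω] {μ : Measure Ω} [IsProbabilityMeasure μ] {A : Ω → Set ℕ}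

/-- The number of values minus the predicted number, and the centred number of the patterns. -/
theorem count_close {Q : ℕ} {S : Finset σ} {f : σ → ℕ → ℕ} (hQ : 1 ≤ Q) (hf : ∀ s ∈ S, StrictMono (f s))
    (hp : ∀ s ∈ S, ∀ m, f s (m + Q) ≡ f s m [MOD Q]) {u v y : ℕ} (huv : u ≤ v) (hu : 3 ≤ u)
    (hinj : ∀ m, u ≤ m → m < v → Set.InjOn (fun s => f s m) (S : Set σ)) (hy : qq Q ≤ Real.log y) (hy1 : 1 ≤ Real.log y)
    (ω : Ω) : |(fN (A ω) S f u v - fex Q S f u v) - XX (level Q) A (ft S f) y u v ω| ≤ y + qq Q ^ S.card * (2 * Q + y) := by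
  have h1 := fN_close A S f (a := u) (b := v) (y := y) ω
  have h2 := fmean hQ hf hp (y := y) huv hu hinj hy hy1
  have h3 : XX (level Q) A (ft S f) y u v ω = nm A ((Ico u v).filter (fun m => y ≤ m)) (fun m => ft S f m) ω -
      ∑ m ∈ (Ico u v).filter (fun m => y ≤ m), pT (level Q) (ft S f m) := by
    unfold XX nm
    rw [sum_sub_distrib]
  rw [h3]
  have h4 : (fN (A ω) S f u v - fex Q S f u v) - (nm A ((Ico u v).filter (fun m => y ≤ m)) (fun m => ft S f m) ω -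
      ∑ m ∈ (Ico u v).filter (fun m => y ≤ m), pT (level Q) (ft S f m)) =
      (fN (A ω) S f u v - nm A ((Ico u v).filter (fun m => y ≤ m)) (fun m => ft S f m) ω) +
      (∑ m ∈ (Ico u v).filter (fun m => y ≤ m), pT (level Q) (ft S f m) - fex Q S f u v) := by ring
  rw [h4]
  exact (abs_add_le _ _).trans (add_le_add h1 h2)

/-- **The oscillations of the numbers of values.** -/
theorem osc_fun {Q : ℕ} {S : Finset σ} {f : ℕ → σ → ℕ → ℕ} {N a b : ℕ → ℕ} {L : ℕ → ℝ} {δ C : ℝ}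
    (hA : IsModel μ (level Q) A) (hG : OD Q S f N a b L δ C) (hQ : 1 ≤ Q) (hδ : 0 < δ) (hδ1 : δ ≤ 1) :
    ∀ᵐ ω ∂μ, ∀ ε > 0, ∃ q₀ : ℕ, ∀ q ≥ q₀, ∀ᶠ n in atTop, ∀ u v : ℕ, a n ≤ u → u ≤ v → v ≤ b n →
      (v : ℝ) - u ≤ ((b n : ℝ) - a n) / q + 1 →
      |fN (A ω) S (f n) u v - fex Q S (f n) u v| ≤ ε * √(2 * fex Q S (f n) (a n) (b n) * L n) := by
  have hQ0 : (0 : ℝ) < Q := by exact_mod_cast hQ
  have hq1 := one_le_qq hQ
  have hqp := qq_pos hQ
  obtain ⟨k, hk⟩ : ∃ k, k = S.card := ⟨_, rfl⟩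
  obtain ⟨D, hD⟩ : ∃ D : ℝ, D = (S.card : ℝ) ^ 2 + 1 := ⟨_, rfl⟩
  obtain ⟨y, hy⟩ : ∃ y : ℕ → ℕ, y = fun n => cy δ (N n) := ⟨_, rfl⟩
  obtain ⟨Λ, hΛ⟩ : ∃ Λ : ℕ → ℝ, Λ = fun n => Real.log ((2 * N n : ℕ) : ℝ) := ⟨_, rfl⟩
  obtain ⟨P₀, hP₀⟩ : ∃ P₀ : ℕ → ℝ, P₀ = fun n => (qq Q / Real.log (y n)) ^ k := ⟨_, rfl⟩
  obtain ⟨B, hB⟩ : ∃ B : ℕ → ℝ, B = fun n => (b n : ℝ) - a n := ⟨_, rfl⟩
  obtain ⟨V, hV⟩ : ∃ V : ℕ → ℝ, V = fun n => P₀ n * B n := ⟨_, rfl⟩
  obtain ⟨E, hE⟩ : ∃ E : ℕ → ℝ, E = fun n => fex Q S (f n) (a n) (b n) := ⟨_, rfl⟩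
  obtain ⟨CE, hCE⟩ : ∃ CE : ℝ, CE = (6 * qq Q / δ) ^ k * Q := ⟨_, rfl⟩
  have hCE0 : 0 < CE := by rw [hCE]; positivity
  -- the facts, for every constant
  have facts : ∀ K : ℝ, ∀ᶠ n in atTop, 3 ≤ N n ∧ qq Q ≤ Real.log (y n) ∧ 1 ≤ Real.log (y n) ∧ K ^ 2 * qq Q ≤ Real.log (y n) ∧
      Real.log (y n) ≤ Λ n ∧ Λ n ≤ 6 / δ * Real.log (y n) ∧ K ^ 2 * Λ n ^ (7 + 3 * k) ≤ B n ∧ K * Λ n ≤ B n ∧
      (K * (y n + 1)) ^ 2 * (Q * Λ n ^ k) ≤ B n ∧ 0 < B n := by
    intro K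
    filter_upwards [hG.lim.eventually (nfacts hδ hδ1 (k := k) hQ K)] with n h1
    obtain ⟨g1, g2, g3, g4, g5, g6, g7, g8, g9⟩ := h1
    have hs := hG.size n
    rw [hy, hΛ, hB]
    refine ⟨g1, g2, g3, g4, g5, g6, g7.trans hs, g8.trans hs, g9.trans hs, lt_of_lt_of_le ?_ hs⟩
    have : (0 : ℝ) < N n := by exact_mod_cast (show 0 < N n by omega)
    positivity
  have hBN : ∀ᶠ n in atTop, B n ≤ Real.exp (Λ n) := by
    filter_upwards [facts 0] with n h1
    obtain ⟨g1, _, _, _, _, _, _, _, _, g10⟩ := h1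
    rw [hB] at g10 ⊢
    rw [hΛ]
    simp only at g10 ⊢
    obtain ⟨s, hs⟩ := hG.ne
    have hab : a n < b n := by
      have : (a n : ℝ) < b n := by linarith
      exact_mod_cast this
    have e1 := hG.bd n s hs (b n - 1) (by omega)
    have e2 := fge (hG.mono n) hs (b n - 1)
    have e3 : b n ≤ 2 * N n := by omega
    rw [Real.exp_log (by exact_mod_cast (show 0 < 2 * N n by omega))]
    have e4 : (b n : ℝ) ≤ ((2 * N n : ℕ) : ℝ) := by exact_mod_cast e3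
    have e5 : (0 : ℝ) ≤ a n := Nat.cast_nonneg _
    linarith
  -- the lower bounds
  have hVlow : ∀ᶠ n in atTop, 0 < V n ∧ P₀ n ≤ 1 ∧ B n ≤ V n * Λ n ^ k ∧ V n ≤ CE * E n ∧ B n ≤ E n * (Q * Λ n ^ k) := by
    filter_upwards [facts 0] with n h1
    obtain ⟨g1, g2, g3, _, g5, g6, _, _, _, g10⟩ := h1
    have hly : 0 < Real.log (y n) := by linarith
    have hΛ0 : 0 < Λ n := by linarith
    have hP0 : 0 < P₀ n := by
      rw [hP₀]
      positivity
    have hV0 : 0 < V n := by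
      rw [hV]
      exact mul_pos hP0 g10
    have hP1 : P₀ n ≤ 1 := by
      rw [hP₀]
      exact pow_le_one₀ (by positivity) (by rw [div_le_one hly]; exact g2)
    have hPΛ : 1 ≤ P₀ n * Λ n ^ k := by
      rw [hP₀]
      simp only
      rw [← mul_pow]
      refine one_le_pow₀ ?_
      rw [div_mul_eq_mul_div, one_le_div hly]
      nlinarith
    have hge : B n ≤ E n * (Q * Λ n ^ k) := by
      obtain ⟨w1, w2⟩ := hG.win n
      have e1 := fex_ge hQ (hG.mono n) (hG.sing n) (hG.bd n) w2 w1 g1 (le_refl S.card)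
      rw [hE, hB]
      simp only
      have e2 : Real.log ((2 * N n : ℕ) : ℝ) = Λ n := by rw [hΛ]
      rw [e2, inv_pow, ← hk] at e1
      have e3 := mul_le_mul_of_nonneg_right e1 (show 0 ≤ Q * Λ n ^ k by positivity)
      refine le_trans (le_of_eq ?_) e3
      field_simp
    refine ⟨hV0, hP1, ?_, ?_, hge⟩
    · rw [hV]
      simp only
      nlinarith
    · have e1 : P₀ n * Λ n ^ k ≤ (6 * qq Q / δ) ^ k := by
        rw [hP₀]
        simp only
        rw [← mul_pow]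
        refine pow_le_pow_left₀ (by positivity) ?_ k
        rw [div_mul_eq_mul_div, div_le_div_iff₀ hly hδ]
        have e2 : Λ n * δ ≤ 6 * Real.log (y n) := by
          rw [div_mul_eq_mul_div, le_div_iff₀ hδ] at g6
          exact g6
        nlinarith
      have hE0 : 0 ≤ E n := by
        by_contra hcon
        push Not at hcon
        have : E n * (Q * Λ n ^ k) < 0 := mul_neg_of_neg_of_pos hcon (by positivity)
        linarith
      have hVe : V n = P₀ n * B n := by rw [hV]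
      rw [hVe]
      calc P₀ n * B n ≤ P₀ n * (E n * (Q * Λ n ^ k)) := mul_le_mul_of_nonneg_left hge hP0.le
        _ = (P₀ n * Λ n ^ k) * (Q * E n) := by ring
        _ ≤ (6 * qq Q / δ) ^ k * (Q * E n) := mul_le_mul_of_nonneg_right e1 (by positivity)
        _ = CE * E n := by rw [hCE]; ring
  obtain ⟨Sq, hSq⟩ : ∃ Sq : ℕ → ℝ, Sq = fun n => √(V n * L n) := ⟨_, rfl⟩
  have hmain := osc_seq (μ := μ) (p := level Q) (A := A) hA (T := fun n => ft S (f n)) (y := y) (a := a) (b := b) (D := D)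
    (C := C) (s := fun n => √(qq Q / Real.log (y n))) (P₀ := P₀) (B := B) (V := V) (L := L) (Λ := Λ) (S := Sq)
    (by
      filter_upwards [facts D] with n h1
      obtain ⟨_, g2, g3, g4, _⟩ := h1
      have e1 : P₀ n = (qq Q / Real.log (y n)) ^ S.card := by rw [hP₀, ← hk]
      rw [e1, hD]
      exact win_of hQ hG.ne (hG.mono n) (hG.dist n) g2 g3 (by rw [← hD]; exact g4))
    (Eventually.of_forall (fun n => (hG.win n).2)) (fun n => by rw [hB]) (fun n => by rw [hV])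
    (by
      filter_upwards [hVlow] with n h1
      exact ⟨h1.2.1, h1.1⟩)
    hG.Llim hG.sum
    (by
      filter_upwards [facts 0, hBN, hG.Lge] with n h1 h2 h3
      obtain ⟨_, _, g3, _, g5, _⟩ := h1
      refine ⟨by linarith, h2, ?_⟩
      rw [hΛ]
      exact h3)
    (fun n => by rw [hSq])
    (by
      intro K
      filter_upwards [facts K, hVlow, hG.Lle, hG.Llim.eventually_ge_atTop 0] with n h1 h2 h3 h4
      obtain ⟨_, g2, g3, _, g5, _, g7, _, _, g10⟩ := h1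
      obtain ⟨v1, v2, v3, _⟩ := h2
      have hΛ0 : 0 < Λ n := by linarith
      have hLΛ : L n ≤ Λ n := by
        rw [hΛ]
        exact h3
      have hS2 : Sq n ^ 2 = V n * L n := by
        rw [hSq]
        exact Real.sq_sqrt (mul_nonneg v1.le h4)
      have key : (K * (Λ n ^ 3 * B n * Sq n)) ^ 2 ≤ (V n ^ 2) ^ 2 := by
        have e1 : (K * (Λ n ^ 3 * B n * Sq n)) ^ 2 = (K ^ 2 * Λ n ^ 6 * B n ^ 2 * L n) * V n := by
          calc (K * (Λ n ^ 3 * B n * Sq n)) ^ 2 = K ^ 2 * Λ n ^ 6 * B n ^ 2 * Sq n ^ 2 := by ring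
            _ = _ := by rw [hS2]; ring
        rw [e1]
        have e2 : K ^ 2 * Λ n ^ 6 * B n ^ 2 * L n ≤ K ^ 2 * Λ n ^ 7 * B n ^ 2 := by
          calc K ^ 2 * Λ n ^ 6 * B n ^ 2 * L n ≤ K ^ 2 * Λ n ^ 6 * B n ^ 2 * Λ n := by gcongr
            _ = _ := by ring
        have e3 : K ^ 2 * Λ n ^ 7 * B n ^ 2 ≤ V n ^ 3 := by
          have e4 : (K ^ 2 * Λ n ^ 7 * B n ^ 2) * (Λ n ^ k) ^ 3 ≤ V n ^ 3 * (Λ n ^ k) ^ 3 := by
            calc (K ^ 2 * Λ n ^ 7 * B n ^ 2) * (Λ n ^ k) ^ 3 = (K ^ 2 * Λ n ^ (7 + 3 * k)) * B n ^ 2 := by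
                  rw [pow_add, ← pow_mul, mul_comm k 3]
                  ring
              _ ≤ B n * B n ^ 2 := by gcongr
              _ = B n ^ 3 := by ring
              _ ≤ (V n * Λ n ^ k) ^ 3 := by gcongr
              _ = V n ^ 3 * (Λ n ^ k) ^ 3 := by ring
          exact le_of_mul_le_mul_right e4 (by positivity)
        calc (K ^ 2 * Λ n ^ 6 * B n ^ 2 * L n) * V n ≤ V n ^ 3 * V n := mul_le_mul_of_nonneg_right (e2.trans e3) v1.le
          _ = (V n ^ 2) ^ 2 := by ring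
      exact (le_abs_self _).trans (abs_le_of_sq_le_sq key (by positivity)))
    (by
      intro K
      filter_upwards [facts K] with n h1
      exact h1.2.2.2.2.2.2.2.1)
  filter_upwards [hmain] with ω hω ε hε
  obtain ⟨q₀, hq₀⟩ := hω (ε / (2 * √CE)) (by positivity)
  refine ⟨q₀, fun q hq => ?_⟩
  obtain ⟨K, hK⟩ : ∃ K : ℝ, K = (1 + qq Q ^ k * (2 * Q + 1)) / (ε / 2) := ⟨_, rfl⟩
  have hK0 : 0 ≤ K := by rw [hK]; positivity
  filter_upwards [hq₀ q hq, facts K, hVlow, hG.Llim.eventually_ge_atTop 1] with n h1 h2 h3 h4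
  intro u v hu huv hv hl
  obtain ⟨_, g2, g3, _, g5, _, _, _, g9, g10⟩ := h2
  obtain ⟨v1, v2, v3, v4, v5⟩ := h3
  have hΛ0 : 0 < Λ n := by linarith
  have a1 := h1 u v hu huv hv (by rw [hB]; exact hl)
  have a2 := count_close (A := A) hQ (hG.mono n) (hG.per n) (y := y n) huv ((hG.win n).1.trans hu)
    (fun m hm hmv => hG.dist n m (hu.trans hm) (by omega)) g2 g3 ω
  have hE0 : 0 < E n := by
    by_contra hcon
    push Not at hcon
    have : E n * (Q * Λ n ^ k) ≤ 0 := mul_nonpos_of_nonpos_of_nonneg hcon (by positivity)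
    linarith
  have hEe : fex Q S (f n) (a n) (b n) = E n := by rw [hE]
  rw [hEe]
  have b1 : Sq n ≤ √CE * √(2 * E n * L n) := by
    rw [← Real.sqrt_mul hCE0.le, hSq]
    refine Real.sqrt_le_sqrt ?_
    have : V n * L n ≤ CE * E n * L n := mul_le_mul_of_nonneg_right v4 (by linarith)
    have : 0 ≤ CE * E n * L n := by positivity
    linarith
  have hsC : 0 < √CE := Real.sqrt_pos.2 hCE0
  have b2 : ε / (2 * √CE) * Sq n ≤ ε / 2 * √(2 * E n * L n) := by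
    calc ε / (2 * √CE) * Sq n ≤ ε / (2 * √CE) * (√CE * √(2 * E n * L n)) := mul_le_mul_of_nonneg_left b1 (by positivity)
      _ = ε / 2 * √(2 * E n * L n) := by field_simp
  have b3 : y n + qq Q ^ S.card * (2 * Q + y n) ≤ ε / 2 * √(2 * E n * L n) := by
    have c1 : (y n : ℝ) + qq Q ^ S.card * (2 * Q + y n) ≤ (1 + qq Q ^ k * (2 * Q + 1)) * (y n + 1) := by
      rw [← hk]
      have : 0 ≤ qq Q ^ k := by positivity
      have : (0 : ℝ) ≤ y n := Nat.cast_nonneg _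
      have : 0 ≤ qq Q ^ k * (2 * Q * y n) := by positivity
      nlinarith
    have c2 : (1 + qq Q ^ k * (2 * Q + 1)) * ((y n : ℝ) + 1) = ε / 2 * (K * (y n + 1)) := by
      rw [hK]
      field_simp
    have c3 : K * ((y n : ℝ) + 1) ≤ √(2 * E n * L n) := by
      refine Real.le_sqrt_of_sq_le ?_
      have c4 : (K * ((y n : ℝ) + 1)) ^ 2 ≤ E n :=
        le_of_mul_le_mul_right (g9.trans v5) (by positivity)
      nlinarith
    rw [c2] at c1
    exact c1.trans (mul_le_mul_of_nonneg_left c3 (by positivity))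
  have e1 : fN (A ω) S (f n) u v - fex Q S (f n) u v = ((fN (A ω) S (f n) u v - fex Q S (f n) u v) -
      XX (level Q) A (ft S (f n)) (y n) u v ω) + XX (level Q) A (ft S (f n)) (y n) u v ω := by ring
  rw [e1]
  refine (abs_add_le _ _).trans ?_
  have e2 : ε * √(2 * E n * L n) = ε / 2 * √(2 * E n * L n) + ε / 2 * √(2 * E n * L n) := by ring
  rw [e2]
  exact add_le_add (a2.trans b3) (a1.trans b2)

end Pool.Agent.Q106.FL
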