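import Pool.Agent.Q106.FL.Cells

/-!
# The functional law for systems of increasing functions
-/

set_option autoImplicit false

namespace Pool.Agent.Q106.FL

open Finset MeasureTheory ProbabilityTheory Filter Pool.Agent.Q120.GM Pool.Agent.Q106.UR Pool.Agent.Q106.MD
  Pool.Agent.Q106.CH Pool.Agent.Q106.UV
open scoped Topology

variable {σ : Type*} {Q r : ℕ} {S : Fin r → Finset σ} {f : ℕ → Fin r → σ → ℕ → ℕ} {N : ℕ → ℕ} {a b : ℕ → Fin r → ℕ}
  {M : ℕ → ℝ} {δ : ℝ}

theorem FD.N_lim (hG : FD Q S f N a b M δ) : Tendsto N atTop atTop := tendsto_atTop_mono hG.grow tendsto_id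

theorem FD.M_lim (hG : FD Q S f N a b M δ) (hδ : 0 < δ) : Tendsto M atTop atTop := by
  refine tendsto_atTop_mono hG.size ?_
  exact (tendsto_rpow_atTop hδ).comp (tendsto_natCast_atTop_atTop.comp (FD.N_lim hG))

/-- **The data of the cells.** -/
theorem fd_refine (hG : FD Q S f N a b M δ) (hδ : 0 < δ) (hδ1 : δ ≤ 1 / 2) {q : ℕ} (hq : 1 ≤ q) : ∃ n₀ : ℕ,
    FD Q (fun x : Fin (r * q) => S (c1 x)) (fun n x => f (n + n₀) (c1 x)) (fun n => N (n + n₀))
      (fun n x => lft a b (n + n₀) x) (fun n x => rgt a b (n + n₀) x) (fun n => M (n + n₀) / (2 * q)) (δ / 2) := by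
  classical
  have hq0 : (1 : ℝ) ≤ q := by exact_mod_cast hq
  have l1 : Tendsto (fun n => (N n : ℝ) ^ (δ / 2)) atTop atTop :=
    (tendsto_rpow_atTop (by positivity)).comp (tendsto_natCast_atTop_atTop.comp (FD.N_lim hG))
  have l2 : Tendsto (fun n => M n ^ (δ / 2)) atTop atTop := (tendsto_rpow_atTop (by positivity)).comp (FD.M_lim hG hδ)
  obtain ⟨n₀, hn₀⟩ := eventually_atTop.1 ((l1.eventually_ge_atTop (2 * q)).and
    (((FD.M_lim hG hδ).eventually_ge_atTop (2 * q)).and (l2.eventually_ge_atTop (2 * (2 * q) ^ (3 / 2 : ℝ)))))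
  refine ⟨n₀, ?_⟩
  have hn := fun n : ℕ => hn₀ (n + n₀) (by omega)
  have hab : ∀ n i, a n i ≤ b n i := fun n i => (hG.win n i).2
  refine ⟨fun x => hG.ne _, fun n x => hG.mono _ _, fun n x => hG.per _ _, ?_, ?_, ?_, fun n x => hG.sing _ _, ?_, ?_, ?_, ?_,
    ?_, ?_⟩
  · intro n x m h1 h2
    obtain ⟨g1, g2, g3⟩ := cell_bounds hq (hab (n + n₀)) x
    exact hG.dist _ _ m (g1.trans h1) (by omega)
  · intro n
    have := hG.grow (n + n₀)
    omega
  · intro n x s hs m hm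
    obtain ⟨g1, g2, g3⟩ := cell_bounds hq (hab (n + n₀)) x
    exact hG.bd _ _ s hs m (by omega)
  · intro n x
    obtain ⟨g1, g2, g3⟩ := cell_bounds hq (hab (n + n₀)) x
    exact ⟨(hG.win _ _).1.trans g1, g2⟩
  · intro n
    obtain ⟨h1, h2, h3⟩ := hn n
    rw [le_div_iff₀ (by positivity)]
    have hs := hG.size (n + n₀)
    have e1 : (N (n + n₀) : ℝ) ^ δ = (N (n + n₀) : ℝ) ^ (δ / 2) * (N (n + n₀) : ℝ) ^ (δ / 2) := by
      rw [← Real.rpow_add_of_nonneg (Nat.cast_nonneg _) (by positivity) (by positivity)]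
      congr 1
      ring
    rw [e1] at hs
    refine le_trans ?_ hs
    exact mul_le_mul_of_nonneg_left h1 (by positivity)
  · intro n x
    obtain ⟨h1, h2, h3⟩ := hn n
    have e1 := (cell_size hq (hab (n + n₀)) x).2
    have e2 := hG.low (n + n₀) (c1 x)
    have e3 : M (n + n₀) / (2 * q) = 1 / q * M (n + n₀) - M (n + n₀) / (2 * q) := by
      field_simp
      ring
    have e4 : 1 ≤ M (n + n₀) / (2 * q) := by
      rw [one_le_div (by positivity)]
      exact h2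
    have e5 := mul_le_mul_of_nonneg_left e2 (show (0 : ℝ) ≤ 1 / q by positivity)
    linarith
  · intro n x
    obtain ⟨h1, h2, h3⟩ := hn n
    have e1 := (cell_size hq (hab (n + n₀)) x).1
    have e2 := hG.high (n + n₀) (c1 x)
    have e0 := hG.low (n + n₀) (c1 x)
    have hM2 : 2 ≤ M (n + n₀) := by linarith
    have hM0 : 0 < M (n + n₀) := by linarith
    have e3 : 1 / (q : ℝ) * ((b (n + n₀) (c1 x) : ℝ) - a (n + n₀) (c1 x)) ≤ (b (n + n₀) (c1 x) : ℝ) - a (n + n₀) (c1 x) := by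
      have : 1 / (q : ℝ) ≤ 1 := by
        rw [div_le_one (by positivity)]
        exact hq0
      nlinarith
    have e4 : (rgt a b (n + n₀) x : ℝ) - lft a b (n + n₀) x ≤ 2 * M (n + n₀) ^ (3 / 2 - δ) := by linarith
    refine e4.trans ?_
    rw [Real.div_rpow hM0.le (by positivity), le_div_iff₀ (by positivity)]
    have e5 : M (n + n₀) ^ (3 / 2 - δ / 2) = M (n + n₀) ^ (3 / 2 - δ) * M (n + n₀) ^ (δ / 2) := by
      rw [← Real.rpow_add hM0]
      congr 1
      ring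
    have e6 : (2 * (q : ℝ)) ^ (3 / 2 - δ / 2) ≤ (2 * (q : ℝ)) ^ (3 / 2 : ℝ) :=
      Real.rpow_le_rpow_of_exponent_le (by linarith) (by linarith)
    rw [e5]
    calc 2 * M (n + n₀) ^ (3 / 2 - δ) * (2 * (q : ℝ)) ^ (3 / 2 - δ / 2) ≤
        2 * M (n + n₀) ^ (3 / 2 - δ) * (2 * (q : ℝ)) ^ (3 / 2 : ℝ) := by gcongr
      _ = M (n + n₀) ^ (3 / 2 - δ) * (2 * (2 * (q : ℝ)) ^ (3 / 2 : ℝ)) := by ring
      _ ≤ _ := by gcongr
  · intro n x x' m m' h1 h2 h3 h4 he
    obtain ⟨g1, g2, g3⟩ := cell_bounds hq (hab (n + n₀)) x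
    obtain ⟨g1', g2', g3'⟩ := cell_bounds hq (hab (n + n₀)) x'
    have hi : c1 x = c1 x' := hG.uniq _ _ _ m m' (g1.trans h1) (by omega) (g1'.trans h3) (by omega) he
    have hm : m = m' := by
      rw [← hi] at he
      exact ft_inj (hG.ne _) (hG.mono _ _) he
    subst hm
    exact cell_eq hq (hab (n + n₀)) hi h1 h2 h3 h4
  · intro n n' hlt hle
    obtain ⟨h1, h2, h3⟩ := hn n
    obtain ⟨h1', h2', h3'⟩ := hn n'
    have hov := hG.ov (n + n₀) (n' + n₀) (by omega) (by omega)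
    have hc : ovc (fun x : Fin (r * q) => S (c1 x)) (fun n x => f (n + n₀) (c1 x)) (fun n x => lft a b (n + n₀) x)
        (fun n x => rgt a b (n + n₀) x) n n' ≤ ovc S f a b (n + n₀) (n' + n₀) := by
      unfold ovc
      refine card_le_card_of_injOn (fun y => ⟨c1 y.1, y.2⟩) ?_ ?_
      · rintro ⟨x, m⟩ hx
        rw [mem_coe, mem_filter, mem_sigma, mem_Ico] at hx
        obtain ⟨⟨_, k1, k2⟩, x', m', k3, k4, k5⟩ := hx
        simp only at k1 k2 k3 k4 k5
        obtain ⟨g1, g2, g3⟩ := cell_bounds hq (hab (n + n₀)) x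
        obtain ⟨g1', g2', g3'⟩ := cell_bounds hq (hab (n' + n₀)) x'
        rw [mem_coe, mem_filter, mem_sigma, mem_Ico]
        exact ⟨⟨mem_univ _, g1.trans k1, by simp only; omega⟩, c1 x', m', g1'.trans k3, by omega, k5⟩
      · rintro ⟨x, m⟩ hx ⟨x', m'⟩ hx' he
        rw [mem_coe, mem_filter, mem_sigma, mem_Ico] at hx hx'
        obtain ⟨⟨_, k1, k2⟩, _⟩ := hx
        obtain ⟨⟨_, k3, k4⟩, _⟩ := hx'
        simp only at k1 k2 k3 k4
        simp only [Sigma.mk.injEq] at he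
        obtain ⟨he1, he2⟩ := he
        have he3 : m = m' := eq_of_heq he2
        subst he3
        have := cell_eq hq (hab (n + n₀)) he1 k1 k2 k3 k4
        subst this
        rfl
    have hc' : (ovc (fun x : Fin (r * q) => S (c1 x)) (fun n x => f (n + n₀) (c1 x)) (fun n x => lft a b (n + n₀) x)
        (fun n x => rgt a b (n + n₀) x) n n' : ℝ) ≤ (ovc S f a b (n + n₀) (n' + n₀) : ℝ) := by exact_mod_cast hc
    have e1 : ∀ x : ℕ, (N (x + n₀) : ℝ) ^ δ = (N (x + n₀) : ℝ) ^ (δ / 2) * (N (x + n₀) : ℝ) ^ (δ / 2) := by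
      intro x
      rw [← Real.rpow_add_of_nonneg (Nat.cast_nonneg _) (by positivity) (by positivity)]
      congr 1
      ring
    rw [e1 n, e1 n'] at hov
    have e2 : M (n + n₀) / (2 * q) * (M (n' + n₀) / (2 * q)) = M (n + n₀) * M (n' + n₀) / ((2 * q) * (2 * q)) := by
      field_simp
    rw [e2, le_div_iff₀ (by positivity)]
    refine le_trans ?_ hov
    obtain ⟨P, hP⟩ : ∃ P, P = (N (n + n₀) : ℝ) ^ (δ / 2) := ⟨_, rfl⟩
    obtain ⟨P', hP'⟩ : ∃ P', P' = (N (n' + n₀) : ℝ) ^ (δ / 2) := ⟨_, rfl⟩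
    rw [← hP] at h1 ⊢
    rw [← hP'] at h1' ⊢
    have hP0 : 0 ≤ P := by linarith
    have hP0' : 0 ≤ P' := by linarith
    calc ((ovc (fun x : Fin (r * q) => S (c1 x)) (fun n x => f (n + n₀) (c1 x)) (fun n x => lft a b (n + n₀) x)
        (fun n x => rgt a b (n + n₀) x) n n' : ℕ) : ℝ) ^ 2 * (P * P') * (2 * q * (2 * q)) ≤
        (ovc S f a b (n + n₀) (n' + n₀) : ℝ) ^ 2 * (P * P') * (P * P') := by gcongr
      _ = _ := by ring

theorem fex_nonneg (Q : ℕ) (S : Finset σ) (f : σ → ℕ → ℕ) (a b : ℕ) : 0 ≤ fex Q S f a b := by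
  unfold fex fser fw
  refine mul_nonneg (by positivity) (sum_nonneg (fun m _ => prod_nonneg (fun s _ => inv_nonneg.2 (Real.log_natCast_nonneg _))))

theorem log_ratio (n₀ : ℕ) : Tendsto (fun n : ℕ => Real.log n / Real.log ((n + n₀ : ℕ) : ℝ)) atTop (𝓝 1) := by
  have hlim : Tendsto (fun n : ℕ => Real.log (n : ℝ)) atTop atTop := Real.tendsto_log_atTop.comp tendsto_natCast_atTop_atTop
  have h1 : Tendsto (fun n : ℕ => 1 - Real.log 2 / Real.log (n : ℝ)) atTop (𝓝 (1 - 0)) :=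
    tendsto_const_nhds.sub (hlim.const_div_atTop _)
  rw [sub_zero] at h1
  refine tendsto_of_tendsto_of_tendsto_of_le_of_le' h1 tendsto_const_nhds ?_ ?_
  · filter_upwards [eventually_ge_atTop (n₀ + 2), hlim.eventually_ge_atTop 1] with n hn h2
    have hn0 : (0 : ℝ) < n := by exact_mod_cast (show 0 < n by omega)
    have e1 : Real.log ((n + n₀ : ℕ) : ℝ) ≤ Real.log n + Real.log 2 := by
      rw [← Real.log_mul hn0.ne' (by norm_num)]
      refine Real.log_le_log (by exact_mod_cast (show 0 < n + n₀ by omega)) ?_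
      exact_mod_cast (show n + n₀ ≤ n * 2 by omega)
    have e2 : Real.log n ≤ Real.log ((n + n₀ : ℕ) : ℝ) := by
      refine Real.log_le_log hn0 ?_
      exact_mod_cast (show n ≤ n + n₀ by omega)
    have e3 : 0 < Real.log 2 := Real.log_pos (by norm_num)
    rw [le_div_iff₀ (by linarith)]
    have e4 : 0 ≤ 1 - Real.log 2 / Real.log n := by
      rw [sub_nonneg, div_le_one (by linarith)]
      exact Real.log_le_log (by norm_num) (by exact_mod_cast (show 2 ≤ n by omega))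
    calc (1 - Real.log 2 / Real.log n) * Real.log ((n + n₀ : ℕ) : ℝ) ≤ (1 - Real.log 2 / Real.log n) * (Real.log n + Real.log 2) :=
          mul_le_mul_of_nonneg_left e1 e4
      _ = Real.log n - Real.log 2 * Real.log 2 / Real.log n := by
          field_simp
          ring
      _ ≤ Real.log n := by
          have : 0 ≤ Real.log 2 * Real.log 2 / Real.log n := by positivity
          linarith
  · filter_upwards [eventually_ge_atTop 2] with n hn
    have hn0 : (0 : ℝ) < n := by exact_mod_cast (show 0 < n by omega)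
    have e2 : Real.log n ≤ Real.log ((n + n₀ : ℕ) : ℝ) := by
      refine Real.log_le_log hn0 ?_
      exact_mod_cast (show n ≤ n + n₀ by omega)
    have e3 : 0 < Real.log (n : ℝ) := Real.log_pos (by exact_mod_cast (show 1 < n by omega))
    rw [div_le_one (by linarith)]
    exact e2

variable {Ω : Type*} [MeasurableSpace Ω] {μ : Measure Ω} [IsProbabilityMeasure μ] {A : Ω → Set ℕ}

/-- **The law of the increments.** -/
theorem inc_law (hA : IsModel μ (level Q) A) {k₀ : ℕ}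
    (hG : FD Q S (fun n => f (n + k₀)) (fun n => N (n + k₀)) (fun n => a (n + k₀)) (fun n => b (n + k₀)) (fun n => M (n + k₀)) δ) (hQ : 1 ≤ Q) (hδ : 0 < δ) (hδ1 : δ ≤ 1 / 2) {q : ℕ}
    (hq : 1 ≤ q) (hclk : ∀ x : Fin (r * q), Tendsto (fun n => q * fex Q (S (c1 x)) (f n (c1 x)) (lft a b n x) (rgt a b n x) /
      fex Q (S (c1 x)) (f n (c1 x)) (a n (c1 x)) (b n (c1 x))) atTop (𝓝 1)) :
    ∀ᵐ ω ∂μ, Law (fun n => inc q (fP Q (A ω) S f a b n)) := by
  have hq0 : (0 : ℝ) < q := by exact_mod_cast hq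
  obtain ⟨n₀, hG'⟩ := fd_refine hG hδ hδ1 hq
  filter_upwards [f_law hA hG' hQ (show 0 < δ / 2 by positivity) (by linarith)] with ω hω'
  have hω : Law (fD Q (A ω) (fun x : Fin (r * q) => S (c1 x)) (fun n x => f (n + n₀ + k₀) (c1 x))
      (fun n x => lft a b (n + n₀ + k₀) x) (fun n x => rgt a b (n + n₀ + k₀) x)) := hω'
  refine law_shift k₀ (law_shift n₀ (hω.congr (fun x => ?_)))
  have hab : ∀ n i, a (n + k₀) i ≤ b (n + k₀) i := fun n i => (hG.win n i).2
  have hr : Tendsto (fun n : ℕ => √((q * fex Q (S (c1 x)) (f (n + n₀ + k₀) (c1 x)) (lft a b (n + n₀ + k₀) x) (rgt a b (n + n₀ + k₀) x) /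
      fex Q (S (c1 x)) (f (n + n₀ + k₀) (c1 x)) (a (n + n₀ + k₀) (c1 x)) (b (n + n₀ + k₀) (c1 x))) *
      (Real.log n / Real.log ((n + n₀ + k₀ : ℕ) : ℝ)))) atTop (𝓝 1) := by
    have h0 := log_ratio (n₀ + k₀)
    simp only [← Nat.add_assoc] at h0
    have h1 := (((hclk x).comp (tendsto_add_atTop_nat k₀)).comp (tendsto_add_atTop_nat n₀)).mul h0
    have h2 := (Real.continuous_sqrt.tendsto _).comp h1
    simp only [mul_one, Real.sqrt_one] at h2
    exact h2
  have hbd := hω.1 1 one_pos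
  rw [Metric.tendsto_nhds] at hr ⊢
  intro ε hε
  filter_upwards [hr (min (1 / 2) (ε / 2)) (lt_min (by norm_num) (by positivity)), hbd, eventually_ge_atTop 2] with n h1 h2 h3
  obtain ⟨e, he⟩ : ∃ e, e = fex Q (S (c1 x)) (f (n + n₀ + k₀) (c1 x)) (lft a b (n + n₀ + k₀) x) (rgt a b (n + n₀ + k₀) x) := ⟨_, rfl⟩
  obtain ⟨E, hE⟩ : ∃ E, E = fex Q (S (c1 x)) (f (n + n₀ + k₀) (c1 x)) (a (n + n₀ + k₀) (c1 x)) (b (n + n₀ + k₀) (c1 x)) := ⟨_, rfl⟩
  rw [← he, ← hE, Real.dist_eq] at h1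
  have he0 : 0 ≤ e := by rw [he]; exact fex_nonneg _ _ _ _ _
  have hE0 : 0 ≤ E := by rw [hE]; exact fex_nonneg _ _ _ _ _
  have hl0 : 0 < Real.log (n : ℝ) := Real.log_pos (by exact_mod_cast (show 1 < n by omega))
  have hl1 : 0 < Real.log ((n + n₀ + k₀ : ℕ) : ℝ) := Real.log_pos (by exact_mod_cast (show 1 < n + n₀ + k₀ by omega))
  have hpos : 0 < (q * e / E) * (Real.log n / Real.log ((n + n₀ + k₀ : ℕ) : ℝ)) := by
    rw [← Real.sqrt_pos]
    have h4 := (abs_lt.1 (lt_of_lt_of_le h1 (min_le_left _ _))).1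
    linarith
  have hqE : 0 < q * e / E := by
    by_contra hcon
    push Not at hcon
    have : (q * e / E) * (Real.log n / Real.log ((n + n₀ + k₀ : ℕ) : ℝ)) ≤ 0 := mul_nonpos_of_nonpos_of_nonneg hcon (by positivity)
    linarith
  have hE1 : 0 < E := by
    rcases hE0.eq_or_lt with h | h
    · rw [← h, div_zero] at hqE
      exact absurd hqE (lt_irrefl _)
    · exact h
  have he1 : 0 < e := by
    rcases he0.eq_or_lt with h | h
    · rw [← h, mul_zero, zero_div] at hqE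
      exact absurd hqE (lt_irrefl _)
    · exact h
  have hst : ((c2 x : ℕ) : ℝ) / q ≤ ((c2 x : ℕ) : ℝ) / q + 1 / q := by
    have : (0 : ℝ) ≤ 1 / q := by positivity
    linarith
  have hinc : inc q (fP Q (A ω) S f a b (n + n₀ + k₀)) x = √(q : ℝ) * ((fN (A ω) (S (c1 x)) (f (n + n₀ + k₀) (c1 x)) (lft a b (n + n₀ + k₀) x)
      (rgt a b (n + n₀ + k₀) x) - e) / √(2 * E * Real.log ((n + n₀ + k₀ : ℕ) : ℝ))) := by
    unfold inc
    have h4 := fP_sub (Q := Q) (A := A ω) (S := S) (f := f) (a := a) (b := b) (n := n + n₀ + k₀) (i := c1 x) (hab _ _) hst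
    rw [hE, he]
    unfold lft rgt
    rw [← h4]
    rfl
  have hfD : fD Q (A ω) (fun x : Fin (r * q) => S (c1 x)) (fun n x => f (n + n₀ + k₀) (c1 x)) (fun n x => lft a b (n + n₀ + k₀) x)
      (fun n x => rgt a b (n + n₀ + k₀) x) n x = (fN (A ω) (S (c1 x)) (f (n + n₀ + k₀) (c1 x)) (lft a b (n + n₀ + k₀) x)
      (rgt a b (n + n₀ + k₀) x) - e) / √(2 * e * Real.log n) := by
    unfold fD
    rw [he]
  have hle : |fD Q (A ω) (fun x : Fin (r * q) => S (c1 x)) (fun n x => f (n + n₀ + k₀) (c1 x)) (fun n x => lft a b (n + n₀ + k₀) x)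
      (fun n x => rgt a b (n + n₀ + k₀) x) n x| ≤ 2 := by
    refine abs_le_of_sq_le_sq ?_ (by norm_num)
    have := single_le_sum (f := fun x => fD Q (A ω) (fun x : Fin (r * q) => S (c1 x)) (fun n x => f (n + n₀ + k₀) (c1 x))
      (fun n x => lft a b (n + n₀ + k₀) x) (fun n x => rgt a b (n + n₀ + k₀) x) n x ^ 2) (fun x _ => sq_nonneg _) (mem_univ x)
    linarith
  rw [Real.dist_eq, sub_zero, hinc]
  obtain ⟨X, hX⟩ : ∃ X, X = fN (A ω) (S (c1 x)) (f (n + n₀ + k₀) (c1 x)) (lft a b (n + n₀ + k₀) x) (rgt a b (n + n₀ + k₀) x) - e := ⟨_, rfl⟩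
  rw [hfD] at hle ⊢
  rw [← hX] at hle ⊢
  obtain ⟨c, hc⟩ : ∃ c, c = √((q * e / E) * (Real.log n / Real.log ((n + n₀ + k₀ : ℕ) : ℝ))) := ⟨_, rfl⟩
  rw [← hc] at h1
  have hkey : √(q : ℝ) * (X / √(2 * E * Real.log ((n + n₀ + k₀ : ℕ) : ℝ))) = c * (X / √(2 * e * Real.log n)) := by
    have k1 : c * √(2 * E * Real.log ((n + n₀ + k₀ : ℕ) : ℝ)) = √(q : ℝ) * √(2 * e * Real.log n) := by
      rw [hc, ← Real.sqrt_mul hpos.le, ← Real.sqrt_mul hq0.le]
      congr 1
      field_simp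
    have k2 : 0 < √(2 * E * Real.log ((n + n₀ + k₀ : ℕ) : ℝ)) := Real.sqrt_pos.2 (by positivity)
    have k3 : 0 < √(2 * e * Real.log n) := Real.sqrt_pos.2 (by positivity)
    rw [mul_div_assoc', mul_div_assoc', div_eq_div_iff k2.ne' k3.ne']
    calc √(q : ℝ) * X * √(2 * e * Real.log n) = X * (√(q : ℝ) * √(2 * e * Real.log n)) := by ring
      _ = X * (c * √(2 * E * Real.log ((n + n₀ + k₀ : ℕ) : ℝ))) := by rw [k1]
      _ = c * X * √(2 * E * Real.log ((n + n₀ + k₀ : ℕ) : ℝ)) := by ring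
  rw [hkey]
  have e1 : c * (X / √(2 * e * Real.log n)) - X / √(2 * e * Real.log n) = (c - 1) * (X / √(2 * e * Real.log n)) := by ring
  rw [e1, abs_mul]
  have e2 : |c - 1| < ε / 2 := lt_of_lt_of_le h1 (min_le_right _ _)
  have e3 := abs_nonneg (X / √(2 * e * Real.log n))
  have e4 := abs_nonneg (c - 1)
  nlinarith

/-- **The functional law.** -/
theorem row_law (hA : IsModel μ (level Q) A) {k₀ : ℕ}
    (hG : FD Q S (fun n => f (n + k₀)) (fun n => N (n + k₀)) (fun n => a (n + k₀)) (fun n => b (n + k₀)) (fun n => M (n + k₀)) δ)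
    (hQ : 1 ≤ Q) (hδ : 0 < δ) (hδ1 : δ ≤ 1 / 2) {C : ℝ}
    (hN : ∀ᶠ n : ℕ in atTop, Real.log ((2 * N n : ℕ) : ℝ) ≤ Real.exp (C * Real.log n))
    (hclk : ∀ q ≥ 1, ∀ x : Fin (r * q), Tendsto (fun n => q * fex Q (S (c1 x)) (f n (c1 x)) (lft a b n x) (rgt a b n x) /
      fex Q (S (c1 x)) (f n (c1 x)) (a n (c1 x)) (b n (c1 x))) atTop (𝓝 1)) :
    ∀ᵐ ω ∂μ, FLaw (fP Q (A ω) S f a b) := by
  have hab : ∀ n i, a (n + k₀) i ≤ b (n + k₀) i := fun n i => (hG.win n i).2
  have hsh := tendsto_add_atTop_nat k₀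
  have hlog : Tendsto (fun n : ℕ => Real.log (((n + k₀ : ℕ)) : ℝ)) atTop atTop := UR.log_tendsto.comp hsh
  have hOD : ∀ i, OD Q (S i) (fun n => f (n + k₀) i) (fun n => N (n + k₀)) (fun n => a (n + k₀) i) (fun n => b (n + k₀) i)
      (fun n : ℕ => Real.log (((n + k₀ : ℕ)) : ℝ)) δ C := by
    intro i
    refine ⟨hG.ne i, fun n => hG.mono n i, fun n => hG.per n i, fun n => hG.dist n i, fun n => hG.bd n i, fun n => hG.sing n i,
      fun n => hG.win n i, fun n => (hG.size n).trans (hG.low n i), FD.N_lim hG, hlog, ?_, ?_, hsh.eventually hN⟩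
    · have h1 : Summable (fun n : ℕ => 1 / (n : ℝ) ^ 2) := Real.summable_one_div_nat_pow.2 (by norm_num)
      have h2 : Summable (fun n : ℕ => Real.exp (-2 * Real.log (n : ℝ))) := by
        refine (summable_congr_cofinite ?_).1 h1
        rw [Nat.cofinite_eq_atTop]
        filter_upwards [eventually_ge_atTop 1] with n hn
        have hn0 : (0 : ℝ) < n := by exact_mod_cast hn
        rw [show -2 * Real.log (n : ℝ) = Real.log n * (-2 : ℝ) by ring, ← Real.rpow_def_of_pos hn0, Real.rpow_neg hn0.le, one_div]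
        norm_num
      exact (summable_nat_add_iff k₀).2 h2
    · filter_upwards [eventually_ge_atTop 1, (hsh.eventually_ge_atTop 1), (FD.N_lim hG).eventually_ge_atTop 1,
        (FD.N_lim hG).eventually_ge_atTop k₀] with n hn hn1 hN1 hN2
      refine Real.log_le_log (by exact_mod_cast (show 0 < n + k₀ by omega)) ?_
      exact_mod_cast (show n + k₀ ≤ 2 * N (n + k₀) by have := hG.grow n; omega)
  have hosc : ∀ᵐ ω ∂μ, ∀ i, ∀ ε > 0, ∃ q₀ : ℕ, ∀ q ≥ q₀, ∀ᶠ n in atTop, ∀ u v : ℕ, a n i ≤ u → u ≤ v → v ≤ b n i →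
      (v : ℝ) - u ≤ ((b n i : ℝ) - a n i) / q + 1 → |fN (A ω) (S i) (f n i) u v - fex Q (S i) (f n i) u v| ≤
      ε * √(2 * fex Q (S i) (f n i) (a n i) (b n i) * Real.log n) := by
    refine ae_all_iff.2 (fun i => ?_)
    filter_upwards [osc_fun hA (hOD i) hQ hδ (by linarith)] with ω hω ε hε
    obtain ⟨q₀, hq₀⟩ := hω ε hε
    refine ⟨q₀, fun q hq => ?_⟩
    obtain ⟨n₁, hn₁⟩ := eventually_atTop.1 (hq₀ q hq)
    filter_upwards [eventually_ge_atTop (n₁ + k₀)] with n hn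
    have h1 := hn₁ (n - k₀) (by omega)
    have e1 : n - k₀ + k₀ = n := by omega
    simpa only [e1] using h1
  have hinc : ∀ᵐ ω ∂μ, ∀ q : ℕ, 1 ≤ q → Law (fun n => inc q (fP Q (A ω) S f a b n)) := by
    refine ae_all_iff.2 (fun q => ?_)
    by_cases hq : 1 ≤ q
    · filter_upwards [inc_law hA hG hQ hδ hδ1 hq (hclk q hq)] with ω hω _
      exact hω
    · exact Eventually.of_forall (fun ω h => absurd h hq)
  filter_upwards [hosc, hinc] with ω h1 h2
  refine flaw_of (fP_zero Q (A ω) S f a b) ?_ h2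
  intro ε hε
  choose q₀ hq₀ using fun i => h1 i ε hε
  refine ⟨univ.sup q₀ + 1, fun q hq => eventually_all.2 (fun i => ?_)⟩
  have hqi : q₀ i ≤ q := by
    have := le_sup (f := q₀) (mem_univ i)
    omega
  have hq0 : (0 : ℝ) < q := by exact_mod_cast (show 0 < q by omega)
  filter_upwards [hq₀ i q hqi, eventually_ge_atTop k₀] with n hn hnk s t hs hst ht htq
  have habn : a n i ≤ b n i := by
    have h3 := hab (n - k₀) i
    have e1 : n - k₀ + k₀ = n := by omega
    rwa [e1] at h3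
  rw [fP_sub habn hst, abs_div, abs_of_nonneg (Real.sqrt_nonneg _)]
  have hB : (0 : ℝ) ≤ (b n i : ℝ) - a n i := by
    have : (a n i : ℝ) ≤ b n i := by exact_mod_cast habn
    linarith
  have h3 := hn (pt (a n i) (b n i) s) (pt (a n i) (b n i) t) (pt_ge _ _ _) (pt_mono habn hst) (pt_le habn ht) (by
    refine (pt_diff habn hs hst).1.trans ?_
    have := mul_le_mul_of_nonneg_right htq hB
    have e1 : ((b n i : ℝ) - a n i) / q = 1 / q * ((b n i : ℝ) - a n i) := by ring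
    linarith)
  exact div_le_of_le_mul₀ (Real.sqrt_nonneg _) hε.le h3

/-- The clock is linear when the density is nearly constant. -/
theorem clk_of {k₀ : ℕ}
    (hG : FD Q S (fun n => f (n + k₀)) (fun n => N (n + k₀)) (fun n => a (n + k₀)) (fun n => b (n + k₀)) (fun n => M (n + k₀)) δ)
    (hδ : 0 < δ)
    (hw : ∀ i, Tendsto (fun n => fw (S i) (f n i) (a n i) / fw (S i) (f n i) (b n i)) atTop (𝓝 1)) {q : ℕ} (hq : 1 ≤ q)
    (x : Fin (r * q)) : Tendsto (fun n => q * fex Q (S (c1 x)) (f n (c1 x)) (lft a b n x) (rgt a b n x) /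
      fex Q (S (c1 x)) (f n (c1 x)) (a n (c1 x)) (b n (c1 x))) atTop (𝓝 1) := by
  have hq0 : (0 : ℝ) < q := by exact_mod_cast hq
  have hab' : ∀ n ≥ k₀, ∀ i, 3 ≤ a n i ∧ a n i ≤ b n i := by
    intro n hn i
    have h3 := hG.win (n - k₀) i
    have e1 : n - k₀ + k₀ = n := by omega
    simpa only [e1] using h3
  obtain ⟨i, hi⟩ : ∃ i, i = c1 x := ⟨_, rfl⟩
  have hBlim : Tendsto (fun n => (b n i : ℝ) - a n i) atTop atTop :=
    (tendsto_add_atTop_iff_nat k₀).1 (tendsto_atTop_mono (fun n => hG.low n i) (FD.M_lim hG hδ))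
  obtain ⟨κ, hκ⟩ : ∃ κ : ℕ → ℝ, κ = fun n => fw (S i) (f n i) (a n i) / fw (S i) (f n i) (b n i) := ⟨_, rfl⟩
  have hκ1 : Tendsto κ atTop (𝓝 1) := by rw [hκ]; exact hw i
  obtain ⟨η, hη⟩ : ∃ η : ℕ → ℝ, η = fun n => q / ((b n i : ℝ) - a n i) := ⟨_, rfl⟩
  have hη0 : Tendsto η atTop (𝓝 0) := by rw [hη]; exact hBlim.const_div_atTop _
  have hup : Tendsto (fun n => (1 + η n) * κ n) atTop (𝓝 1) := by
    have := (tendsto_const_nhds (x := (1 : ℝ))).add hη0
    have := this.mul hκ1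
    simpa using this
  have hlow : Tendsto (fun n => (1 - η n) * (κ n)⁻¹) atTop (𝓝 1) := by
    have h1 := (tendsto_const_nhds (x := (1 : ℝ))).sub hη0
    have h2 := h1.mul (hκ1.inv₀ one_ne_zero)
    simpa using h2
  have key : ∀ᶠ n in atTop, (1 - η n) * (κ n)⁻¹ ≤ q * fex Q (S (c1 x)) (f n (c1 x)) (lft a b n x) (rgt a b n x) /
      fex Q (S (c1 x)) (f n (c1 x)) (a n (c1 x)) (b n (c1 x)) ∧ q * fex Q (S (c1 x)) (f n (c1 x)) (lft a b n x) (rgt a b n x) /
      fex Q (S (c1 x)) (f n (c1 x)) (a n (c1 x)) (b n (c1 x)) ≤ (1 + η n) * κ n := by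
    filter_upwards [hBlim.eventually_ge_atTop (q + 1), eventually_ge_atTop k₀] with n h1 hnk
    have hab : ∀ i, a n i ≤ b n i := fun i => (hab' n hnk i).2
    rw [← hi]
    obtain ⟨g1, g2, g3⟩ := cell_bounds hq hab x
    have hs := cell_size hq hab x
    rw [← hi] at g1 g3 hs
    obtain ⟨u, hu⟩ : ∃ u, u = lft a b n x := ⟨_, rfl⟩
    obtain ⟨v, hv⟩ : ∃ v, v = rgt a b n x := ⟨_, rfl⟩
    rw [← hu, ← hv] at hs g2 ⊢
    rw [← hu] at g1
    rw [← hv] at g3
    obtain ⟨B, hB⟩ : ∃ B, B = (b n i : ℝ) - a n i := ⟨_, rfl⟩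
    rw [← hB] at h1 hs
    have hB0 : 0 < B := by linarith
    have ha3 := (hab' n hnk i).1
    have en : n - k₀ + k₀ = n := by omega
    have hmono : ∀ s ∈ S i, StrictMono (f n i s) := by
      have h3 := hG.mono (n - k₀) i
      simpa only [en] using h3
    have hF0 : 0 < fser Q (S i) (f n i) := by
      have h3 := hG.sing (n - k₀) i
      simpa only [en] using h3
    obtain ⟨F, hF⟩ : ∃ F, F = fser Q (S i) (f n i) := ⟨_, rfl⟩
    obtain ⟨α, hα⟩ : ∃ α, α = fw (S i) (f n i) (a n i) := ⟨_, rfl⟩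
    obtain ⟨β, hβ⟩ : ∃ β, β = fw (S i) (f n i) (b n i) := ⟨_, rfl⟩
    have hβ0 : 0 < β := by
      rw [hβ]
      unfold fw
      refine prod_pos (fun s hs' => inv_pos.2 ?_)
      have e1 := fge hmono hs' (b n i)
      have e2 := hab i
      have := log3 (m := f n i s (b n i)) (by omega)
      linarith
    have hβα : β ≤ α := by
      rw [hα, hβ]
      exact fw_anti hmono ha3 (hab i)
    have hα0 : 0 < α := by linarith
    have hsum : ∀ x y : ℕ, a n i ≤ x → x ≤ y → y ≤ b n i → ((y : ℝ) - x) * β ≤ ∑ m ∈ Ico x y, fw (S i) (f n i) m ∧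
        ∑ m ∈ Ico x y, fw (S i) (f n i) m ≤ ((y : ℝ) - x) * α := by
      intro x y h2 h3 h4
      have e1 : ∀ m ∈ Ico x y, β ≤ fw (S i) (f n i) m ∧ fw (S i) (f n i) m ≤ α := by
        intro m hm
        rw [mem_Ico] at hm
        rw [hα, hβ]
        exact ⟨fw_anti hmono (by omega) (by omega), fw_anti hmono ha3 (by omega)⟩
      have e2 := sum_le_sum (fun m hm => (e1 m hm).1)
      have e3 := sum_le_sum (fun m hm => (e1 m hm).2)
      rw [sum_const, Nat.card_Ico, nsmul_eq_mul, Nat.cast_sub h3] at e2 e3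
      exact ⟨e2, e3⟩
    obtain ⟨s1, s2⟩ := hsum u v g1 g2 g3
    obtain ⟨t1, t2⟩ := hsum (a n i) (b n i) le_rfl (hab i) le_rfl
    obtain ⟨X, hX⟩ : ∃ X, X = ∑ m ∈ Ico u v, fw (S i) (f n i) m := ⟨_, rfl⟩
    obtain ⟨Y, hY⟩ : ∃ Y, Y = ∑ m ∈ Ico (a n i) (b n i), fw (S i) (f n i) m := ⟨_, rfl⟩
    rw [← hX] at s1 s2
    rw [← hY, ← hB] at t1 t2
    have hY0 : 0 < Y := lt_of_lt_of_le (by positivity) t1
    have e1 : q * fex Q (S i) (f n i) u v / fex Q (S i) (f n i) (a n i) (b n i) = q * X / Y := by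
      unfold fex
      rw [← hF, ← hX, ← hY]
      have : F ≠ 0 := by rw [hF]; exact hF0.ne'
      field_simp
    have hκn : κ n = α / β := by rw [hκ, hα, hβ]
    have hηn : η n = q / B := by rw [hη, hB]
    rw [e1, hκn, hηn]
    have hvu1 : q * ((v : ℝ) - u) ≤ B + q := by
      have := mul_le_mul_of_nonneg_left hs.1 hq0.le
      have e2 : q * (1 / q * B + 1) = B + q := by field_simp
      linarith
    have hvu2 : B - q ≤ q * ((v : ℝ) - u) := by
      have := mul_le_mul_of_nonneg_left hs.2 hq0.le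
      have e2 : q * (1 / q * B - 1) = B - q := by field_simp
      linarith
    constructor
    · rw [le_div_iff₀ hY0]
      have e2 : (1 - q / B) * (α / β)⁻¹ * Y ≤ (1 - q / B) * (α / β)⁻¹ * (B * α) := by
        refine mul_le_mul_of_nonneg_left t2 (mul_nonneg ?_ (by positivity))
        rw [sub_nonneg, div_le_one hB0]
        linarith
      have e3 : (1 - q / B) * (α / β)⁻¹ * (B * α) = (B - q) * β := by
        field_simp
      have e4 : (B - q) * β ≤ q * ((v : ℝ) - u) * β := mul_le_mul_of_nonneg_right hvu2 hβ0.le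
      have e5 := mul_le_mul_of_nonneg_left s1 hq0.le
      linarith
    · rw [div_le_iff₀ hY0]
      have e2 : (1 + q / B) * (α / β) * (B * β) ≤ (1 + q / B) * (α / β) * Y := by
        refine mul_le_mul_of_nonneg_left t1 (by positivity)
      have e3 : (1 + q / B) * (α / β) * (B * β) = (B + q) * α := by
        field_simp
      have e4 : q * ((v : ℝ) - u) * α ≤ (B + q) * α := mul_le_mul_of_nonneg_right hvu1 hα0.le
      have e5 := mul_le_mul_of_nonneg_left s2 hq0.le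
      linarith
  exact tendsto_of_tendsto_of_tendsto_of_le_of_le' hlow hup (key.mono fun _ h => h.1) (key.mono fun _ h => h.2)

end Pool.Agent.Q106.FL
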