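import Pool.Agent.Q106.UV.Fun2

/-!
# Oscillations of the numbers of patterns: probabilities
-/

set_option autoImplicit false

namespace Pool.Agent.Q106.FL

open Finset MeasureTheory ProbabilityTheory Filter Pool.Agent.Q120.GM Pool.Agent.Q106.UR Pool.Agent.Q106.MD
open scoped Topology

variable {Ω : Type*} [MeasurableSpace Ω] {μ : Measure Ω} [IsProbabilityMeasure μ] {ι : Type*} [DecidableEq ι]
  {p : ι → ℝ} {A : Ω → Set ι} {T : ℕ → Finset ι}

/-- The centred number of the patterns at the places `m ≥ y` in `[u, v)`. -/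
noncomputable def XX (p : ι → ℝ) (A : Ω → Set ι) (T : ℕ → Finset ι) (y u v : ℕ) (ω : Ω) : ℝ :=
  ∑ m ∈ (Ico u v).filter (fun m => y ≤ m), (ind A (T m) ω - pT p (T m))

omit [MeasurableSpace Ω] [IsProbabilityMeasure μ] [DecidableEq ι] in
theorem XX_add {y u v w : ℕ} (h1 : u ≤ v) (h2 : v ≤ w) (ω : Ω) : XX p A T y u w ω = XX p A T y u v ω + XX p A T y v w ω := by
  unfold XX
  rw [← Ico_union_Ico_eq_Ico h1 h2, filter_union, sum_union]
  exact disjoint_filter_filter (Ico_disjoint_Ico_consecutive _ _ _)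

omit [DecidableEq ι] in
theorem XX_meas (hA : IsModel μ p A) (y u v : ℕ) : Measurable (XX p A T y u v) := by
  unfold XX
  exact Finset.measurable_sum _ (fun m _ => (meas_ind hA _).sub_const _)

omit [DecidableEq ι] in
theorem XX_bdd (hA : IsModel μ p A) (y u v : ℕ) (ω : Ω) : |XX p A T y u v ω| ≤ ((Ico u v).filter (fun m => y ≤ m)).card := by
  unfold XX
  refine (abs_sum_le_sum_abs _ _).trans ?_
  refine (sum_le_sum (g := fun _ => (1 : ℝ)) (fun m _ => ?_)).trans (by simp)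
  rw [abs_le]
  have := ind_nonneg (A := A) (T m) ω
  have := ind_le_one (A := A) (T m) ω
  have := pT_nonneg hA (T m)
  have := pT_le_one hA (T m)
  constructor <;> linarith

/-- The hypotheses on the patterns in a window. -/
structure Win (p : ι → ℝ) (T : ℕ → Finset ι) (y a b : ℕ) (D s P₀ : ℝ) : Prop where
  oneD : 1 ≤ D
  spos : 0 < s
  sone : s ≤ 1
  sD : s * D ≤ 1
  P0 : 0 ≤ P₀
  small : ∀ m, a ≤ m → m < b → y ≤ m → ∀ x ∈ T m, p x ≤ s ^ 2
  ne : ∀ m, a ≤ m → m < b → y ≤ m → (T m).Nonempty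
  inj : ∀ m m', a ≤ m → m < b → y ≤ m → a ≤ m' → m' < b → y ≤ m' → T m = T m' → m = m'
  deg : ∀ m, a ≤ m → m < b → y ≤ m →
    ((((Ico a b).filter (fun m => y ≤ m)).filter (fun m' => ¬ Disjoint (T m') (T m))).card : ℝ) ≤ D
  prob : ∀ m, a ≤ m → m < b → y ≤ m → pT p (T m) ≤ P₀

theorem markov {X : Ω → ℝ} (hX : Measurable X) {B θ τ E : ℝ} (hB : ∀ ω, |X ω| ≤ B) (hθ : 0 ≤ θ)
    (h : ∫ ω, Real.exp (θ * X ω) ∂μ ≤ Real.exp E) : μ.real {ω | τ ≤ X ω} ≤ Real.exp (E - θ * τ) := by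
  have hint : Integrable (fun ω => Real.exp (θ * X ω)) μ := by
    refine int_bdd ((measurable_const.mul hX).exp) (Real.exp (θ * B)) (fun ω => ?_)
    rw [abs_of_pos (Real.exp_pos _)]
    exact Real.exp_le_exp.2 (mul_le_mul_of_nonneg_left ((le_abs_self _).trans (hB ω)) hθ)
  refine (measure_ge_le_exp_mul_mgf τ hθ hint).trans ?_
  unfold ProbabilityTheory.mgf
  rw [show E - θ * τ = -θ * τ + E by ring, Real.exp_add]
  exact mul_le_mul_of_nonneg_left h (Real.exp_pos _).le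

/-- **The tail bound.** -/
theorem tail (hA : IsModel μ p A) {y a b : ℕ} {D s P₀ : ℝ} (hW : Win p T y a b D s P₀) {u v : ℕ} (hu : a ≤ u) (hv : v ≤ b)
    {ℓ θ τ : ℝ} (hℓ : ((v - u : ℕ) : ℝ) ≤ ℓ) (hθ : 0 ≤ θ) (hθD : 56 * (D * θ) ≤ 1) :
    μ.real {ω | τ ≤ |XX p A T y u v ω|} ≤ 2 * Real.exp (θ ^ 2 * (P₀ * ℓ) + 29 * (D ^ 2 * θ ^ 3) * ℓ - θ * τ) := by
  obtain ⟨J, hJ⟩ : ∃ J, J = (Ico u v).filter (fun m => y ≤ m) := ⟨_, rfl⟩
  have hmem : ∀ m ∈ J, a ≤ m ∧ m < b ∧ y ≤ m := by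
    intro m hm
    rw [hJ, mem_filter, mem_Ico] at hm
    exact ⟨by omega, by omega, hm.2⟩
  have hcard : (J.card : ℝ) ≤ ℓ := by
    refine le_trans ?_ hℓ
    have : J.card ≤ v - u := by
      rw [hJ]
      refine (card_filter_le _ _).trans ?_
      rw [Nat.card_Ico]
    exact_mod_cast this
  have hdeg : ∀ j ∈ J, ((nb T J j).card : ℝ) ≤ D := by
    intro j hj
    obtain ⟨h1, h2, h3⟩ := hmem j hj
    refine le_trans ?_ (hW.deg j h1 h2 h3)
    have : (nb T J j).card ≤ (((Ico a b).filter (fun m => y ≤ m)).filter (fun m' => ¬ Disjoint (T m') (T j))).card := by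
      refine card_le_card ?_
      unfold nb
      refine filter_subset_filter _ ?_
      rw [hJ]
      exact filter_subset_filter _ (Ico_subset_Ico hu hv)
    exact_mod_cast this
  have key : ∀ c : ℝ, |c| = θ → ∫ ω, Real.exp (c * XX p A T y u v ω) ∂μ ≤
      Real.exp (θ ^ 2 * (P₀ * ℓ) + 29 * (D ^ 2 * θ ^ 3) * ℓ) := by
    intro c hc
    have h1 := (pat hA J T (fun _ => c) (h := θ) (D := D) (s := s) hθ (fun _ _ => hc.le) hW.oneD hθD hW.spos hW.sone
      (fun j hj => hW.small j (hmem j hj).1 (hmem j hj).2.1 (hmem j hj).2.2)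
      (fun j hj => hW.ne j (hmem j hj).1 (hmem j hj).2.1 (hmem j hj).2.2)
      (fun i hi j hj => hW.inj i j (hmem i hi).1 (hmem i hi).2.1 (hmem i hi).2.2 (hmem j hj).1 (hmem j hj).2.1 (hmem j hj).2.2)
      hdeg rfl).2
    have h2 : ∀ ω, c * XX p A T y u v ω = ∑ j ∈ J, c * (ind A (T j) ω - pT p (T j)) := by
      intro ω
      unfold XX
      rw [mul_sum, hJ]
    simp_rw [h2]
    refine h1.trans (Real.exp_le_exp.2 ?_)
    have hc2 : c ^ 2 = θ ^ 2 := by rw [← hc, sq_abs]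
    have h3 : ∑ i ∈ J, c ^ 2 * pT p (T i) ≤ θ ^ 2 * (P₀ * ℓ) := by
      rw [← mul_sum, hc2]
      refine mul_le_mul_of_nonneg_left ?_ (sq_nonneg _)
      refine (sum_le_sum (fun j hj => hW.prob j (hmem j hj).1 (hmem j hj).2.1 (hmem j hj).2.2)).trans ?_
      rw [sum_const, nsmul_eq_mul, mul_comm]
      exact mul_le_mul_of_nonneg_left hcard hW.P0
    have h4 : 0 ≤ ∑ i ∈ J, c ^ 2 * pT p (T i) := sum_nonneg (fun i _ => mul_nonneg (sq_nonneg _) (pT_nonneg hA _))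
    have h5 : s * D * ∑ i ∈ J, c ^ 2 * pT p (T i) ≤ 1 * ∑ i ∈ J, c ^ 2 * pT p (T i) := mul_le_mul_of_nonneg_right hW.sD h4
    have h6 : 29 * (D ^ 2 * θ ^ 3) * (J.card : ℝ) ≤ 29 * (D ^ 2 * θ ^ 3) * ℓ := mul_le_mul_of_nonneg_left hcard (by positivity)
    linarith
  have hmeas := XX_meas (T := T) hA y u v
  have hb := XX_bdd (T := T) hA y u v
  have m1 := markov hmeas (τ := τ) hb hθ (key θ (abs_of_nonneg hθ))
  have m2 := markov (X := fun ω => -XX p A T y u v ω) hmeas.neg (τ := τ) (fun ω => by rw [abs_neg]; exact hb ω) hθ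
    (E := θ ^ 2 * (P₀ * ℓ) + 29 * (D ^ 2 * θ ^ 3) * ℓ) (by
      have := key (-θ) (by rw [abs_neg, abs_of_nonneg hθ])
      refine le_trans (le_of_eq ?_) this
      refine integral_congr_ae (Eventually.of_forall (fun ω => ?_))
      simp only
      congr 1
      ring)
  have hsub : {ω | τ ≤ |XX p A T y u v ω|} ⊆ {ω | τ ≤ XX p A T y u v ω} ∪ {ω | τ ≤ -XX p A T y u v ω} := by
    intro ω hω
    simp only [Set.mem_setOf_eq] at hω
    rcases le_abs.1 hω with h | h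
    · exact Or.inl h
    · exact Or.inr h
  refine (measureReal_mono hsub).trans ((measureReal_union_le _ _).trans ?_)
  linarith

/-- The bad event: a large oscillation on the mesh or next to the mesh. -/
def Bad (p : ι → ℝ) (A : Ω → Set ι) (T : ℕ → Finset ι) (y a b w : ℕ) (ℓ τ : ℝ) : Set Ω :=
  (⋃ x ∈ (range ((b - a) / w + 1) ×ˢ range ((b - a) / w + 1)).filter (fun x : ℕ × ℕ =>
      (((a + x.2 * w) - (a + x.1 * w) : ℕ) : ℝ) ≤ ℓ ∧ a + x.2 * w ≤ b),
    {ω | τ ≤ |XX p A T y (a + x.1 * w) (a + x.2 * w) ω|}) ∪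
  ⋃ x ∈ (range ((b - a) / w + 1) ×ˢ range w).filter (fun x : ℕ × ℕ => a + x.1 * w + x.2 ≤ b),
    {ω | τ ≤ |XX p A T y (a + x.1 * w) (a + x.1 * w + x.2) ω|}

theorem bad_prob (hA : IsModel μ p A) {y a b w : ℕ} {D s P₀ : ℝ} (hW : Win p T y a b D s P₀)
    {ℓ τ θ₁ θ₂ : ℝ} (hθ₁ : 0 ≤ θ₁) (hθ₁D : 56 * (D * θ₁) ≤ 1) (hθ₂ : 0 ≤ θ₂) (hθ₂D : 56 * (D * θ₂) ≤ 1) {ℓ₂ : ℝ}
    (hw : (w : ℝ) ≤ ℓ₂) :
    μ.real (Bad p A T y a b w ℓ τ) ≤
      (((b - a) / w + 1 : ℕ) : ℝ) ^ 2 * (2 * Real.exp (θ₁ ^ 2 * (P₀ * ℓ) + 29 * (D ^ 2 * θ₁ ^ 3) * ℓ - θ₁ * τ)) +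
      (((b - a) / w + 1 : ℕ) : ℝ) * w * (2 * Real.exp (θ₂ ^ 2 * (P₀ * ℓ₂) + 29 * (D ^ 2 * θ₂ ^ 3) * ℓ₂ - θ₂ * τ)) := by
  unfold Bad
  refine (measureReal_union_le _ _).trans (add_le_add ?_ ?_)
  · refine (measureReal_biUnion_finset_le _ _).trans ?_
    refine (sum_le_sum (g := fun _ => 2 * Real.exp (θ₁ ^ 2 * (P₀ * ℓ) + 29 * (D ^ 2 * θ₁ ^ 3) * ℓ - θ₁ * τ)) ?_).trans ?_
    · intro x hx
      rw [mem_filter] at hx
      exact tail hA hW (by omega) hx.2.2 hx.2.1 hθ₁ hθ₁D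
    · rw [sum_const, nsmul_eq_mul]
      refine mul_le_mul_of_nonneg_right ?_ (by positivity)
      have : ((range ((b - a) / w + 1) ×ˢ range ((b - a) / w + 1)).filter (fun x : ℕ × ℕ =>
          (((a + x.2 * w) - (a + x.1 * w) : ℕ) : ℝ) ≤ ℓ ∧ a + x.2 * w ≤ b)).card ≤ ((b - a) / w + 1) ^ 2 := by
        refine (card_filter_le _ _).trans ?_
        rw [card_product, card_range, sq]
      exact_mod_cast this
  · refine (measureReal_biUnion_finset_le _ _).trans ?_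
    refine (sum_le_sum (g := fun _ => 2 * Real.exp (θ₂ ^ 2 * (P₀ * ℓ₂) + 29 * (D ^ 2 * θ₂ ^ 3) * ℓ₂ - θ₂ * τ)) ?_).trans ?_
    · intro x hx
      rw [mem_filter, mem_product, mem_range, mem_range] at hx
      refine tail hA hW (by omega) hx.2 ?_ hθ₂ hθ₂D
      refine le_trans ?_ hw
      exact_mod_cast (show a + x.1 * w + x.2 - (a + x.1 * w) ≤ w by omega)
    · rw [sum_const, nsmul_eq_mul]
      refine mul_le_mul_of_nonneg_right ?_ (by positivity)
      have : ((range ((b - a) / w + 1) ×ˢ range w).filter (fun x : ℕ × ℕ => a + x.1 * w + x.2 ≤ b)).card ≤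
          ((b - a) / w + 1) * w := by
        refine (card_filter_le _ _).trans ?_
        rw [card_product, card_range, card_range]
      exact_mod_cast this

omit [MeasurableSpace Ω] [IsProbabilityMeasure μ] [DecidableEq ι] in
/-- **The oscillation outside the bad event.** -/
theorem osc_of_good {y a b w : ℕ} {ℓ τ : ℝ} (hw : 1 ≤ w) {ω : Ω} (hω : ω ∉ Bad p A T y a b w ℓ τ) {u v : ℕ} (hu : a ≤ u)
    (huv : u ≤ v) (hv : v ≤ b) (hl : ((v - u + w : ℕ) : ℝ) ≤ ℓ) : |XX p A T y u v ω| ≤ 3 * τ := by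
  unfold Bad at hω
  rw [Set.mem_union, not_or] at hω
  obtain ⟨h1, h2⟩ := hω
  simp only [Set.mem_iUnion, not_exists, Set.mem_setOf_eq, not_le] at h1 h2
  obtain ⟨i, hi⟩ : ∃ i, i = (u - a) / w := ⟨_, rfl⟩
  obtain ⟨j, hj⟩ : ∃ j, j = (v - a) / w := ⟨_, rfl⟩
  have hw0 : 0 < w := hw
  have di := Nat.div_add_mod (u - a) w
  have dj := Nat.div_add_mod (v - a) w
  have mi := Nat.mod_lt (u - a) hw0
  have mj := Nat.mod_lt (v - a) hw0
  rw [← hi] at di
  rw [← hj] at dj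
  have hij : i ≤ j := by
    rw [hi, hj]
    exact Nat.div_le_div_right (by omega)
  have hjK : j ≤ (b - a) / w := by
    rw [hj]
    exact Nat.div_le_div_right (by omega)
  have hcomm1 : w * i = i * w := mul_comm _ _
  have hcomm2 : w * j = j * w := mul_comm _ _
  have hmono : i * w ≤ j * w := Nat.mul_le_mul_right w hij
  have eu : a + i * w + (u - a) % w = u := by omega
  have ev : a + j * w + (v - a) % w = v := by omega
  have a1 := h2 (i, (u - a) % w) (by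
    rw [mem_filter, mem_product, mem_range, mem_range]
    refine ⟨⟨by omega, mi⟩, ?_⟩
    simp only
    omega)
  have a2 := h2 (j, (v - a) % w) (by
    rw [mem_filter, mem_product, mem_range, mem_range]
    refine ⟨⟨by omega, mj⟩, ?_⟩
    simp only
    omega)
  have a3 := h1 (i, j) (by
    rw [mem_filter, mem_product, mem_range, mem_range]
    refine ⟨⟨by omega, by omega⟩, ?_, ?_⟩
    · refine le_trans ?_ hl
      simp only
      have : a + j * w - (a + i * w) ≤ v - u + w := by omega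
      exact_mod_cast this
    · simp only
      omega)
  simp only at a1 a2 a3
  rw [eu] at a1
  rw [ev] at a2
  have e1 := XX_add (p := p) (A := A) (T := T) (y := y) (u := a + i * w) (v := u) (w := v) (by omega) huv ω
  have e2 := XX_add (p := p) (A := A) (T := T) (y := y) (u := a + i * w) (v := a + j * w) (w := v) (by omega) (by omega) ω
  have e3 : XX p A T y u v ω = XX p A T y (a + i * w) (a + j * w) ω + XX p A T y (a + j * w) v ω - XX p A T y (a + i * w) u ω := by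
    linarith
  rw [e3]
  refine (abs_sub _ _).trans ?_
  have := abs_add_le (XX p A T y (a + i * w) (a + j * w) ω) (XX p A T y (a + j * w) v ω)
  linarith

end Pool.Agent.Q106.FL
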