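import Pool.Agent.Q106.FL.Row
import Pool.Agent.Q106.UV.Fun3

/-!
# The functional law for the counts of tuples in windows
-/

set_option autoImplicit false

namespace Pool.Agent.Q106.FL

open Finset MeasureTheory ProbabilityTheory Filter
open scoped Topology
open Pool.Agent.Q120.GM (IsModel level)

/-- The number of the `m`, `a ≤ m < b`, such that all `m + h` (`h ∈ H`) are in `A`. -/
noncomputable def count (A : Set ℕ) (H : Finset ℕ) (a b : ℕ) : ℝ :=
  ({m : ℕ | a ≤ m ∧ m < b ∧ ∀ h ∈ H, m + h ∈ A}.ncard : ℝ)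

/-- The singular series of level `Q` of `H`: `(Q / φ(Q))^|H|` times the proportion of the residues `m` modulo `Q` such that
all `m + h` are coprime to `Q`. -/
noncomputable def series (Q : ℕ) (H : Finset ℕ) : ℝ :=
  (((range Q).filter (fun m => ∀ h ∈ H, (m + h).Coprime Q)).card : ℝ) / Q * ((Q : ℝ) / Nat.totient Q) ^ H.card

/-- The predicted number. -/
noncomputable def predicted (Q : ℕ) (H : Finset ℕ) (a b : ℕ) : ℝ :=
  series Q H * ∑ m ∈ Ico a b, ∏ h ∈ H, (Real.log ((m + h : ℕ) : ℝ))⁻¹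

/-- The path of the `n`-th window `[a, b)`, `a = a n`, `b = b n`: its value at the time `t ∈ [0, 1]` is the deviation of the
number in the first part `[a, a + ⌊t (b - a)⌋)` of the window from the predicted number, divided by the square root of
`2 · (predicted number of the whole window) · log n`. -/
noncomputable def path (A : Set ℕ) (Q : ℕ) (H : Finset ℕ) (a b : ℕ → ℕ) (n : ℕ) (t : ℝ) : ℝ :=
  (count A H (a n) (a n + ⌊t * ((b n : ℝ) - a n)⌋₊) - predicted Q H (a n) (a n + ⌊t * ((b n : ℝ) - a n)⌋₊)) /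
    Real.sqrt (2 * predicted Q H (a n) (b n) * Real.log n)

/-- Admissible data, for the `n ≥ k₀`: tuples `H i` with `0 ∈ H i` and positive singular series, windows `[a n i, b n i)`
which for equal tuples are disjoint (`uniq`), `N n` bounds all numbers, the lengths of the windows are between
`M n ≥ (N n)^δ` and `(M n)^(3/2 - δ)`, the density of the model is nearly constant in a window (`clock`) and `N n` does not
grow too fast (`time`). -/
structure Data (Q k₀ : ℕ) {r : ℕ} (H : Fin r → Finset ℕ) (a b : ℕ → Fin r → ℕ) (N : ℕ → ℕ) (M : ℕ → ℝ) (δ : ℝ) :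
    Prop where
  pos : 0 < δ
  zero : ∀ i, 0 ∈ H i
  sing : ∀ i, 0 < series Q (H i)
  uniq : ∀ n ≥ k₀, ∀ n' ≥ k₀, ∀ i i', H i = H i' → (n = n' ∧ i = i') ∨ Disjoint (Ico (a n i) (b n i)) (Ico (a n' i') (b n' i'))
  grow : ∀ n ≥ k₀, n ≤ N n
  bound : ∀ n ≥ k₀, ∀ i, ∀ h ∈ H i, b n i + h ≤ N n
  win : ∀ n ≥ k₀, ∀ i, 3 ≤ a n i ∧ a n i ≤ b n i
  size : ∀ n ≥ k₀, (N n : ℝ) ^ δ ≤ M n
  low : ∀ n ≥ k₀, ∀ i, M n ≤ (b n i : ℝ) - a n i
  high : ∀ n ≥ k₀, ∀ i, (b n i : ℝ) - a n i ≤ M n ^ (3 / 2 - δ)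
  clock : ∀ i, Tendsto (fun n => Real.log (b n i) / Real.log (a n i)) atTop (𝓝 1)
  time : ∃ C : ℝ, ∀ᶠ n : ℕ in atTop, Real.log (N n) ≤ (n : ℝ) ^ C

/-- The functions. -/
def tf (h m : ℕ) : ℕ := m + h

theorem tf_mono (h : ℕ) : StrictMono (tf h) := by
  intro m m' hm
  unfold tf
  omega

theorem mem_tup {H : Finset ℕ} {m x : ℕ} : x ∈ UV.ft H tf m ↔ ∃ h ∈ H, m + h = x := by
  rw [UV.mem_ft]
  rfl

theorem tup_eq {H H' : Finset ℕ} {m m' : ℕ} (h0 : 0 ∈ H) (h0' : 0 ∈ H') (h : UV.ft H tf m = UV.ft H' tf m') :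
    m = m' ∧ H = H' := by
  have e1 : m ∈ UV.ft H' tf m' := by
    rw [← h]
    exact mem_tup.2 ⟨0, h0, rfl⟩
  have e2 : m' ∈ UV.ft H tf m := by
    rw [h]
    exact mem_tup.2 ⟨0, h0', rfl⟩
  obtain ⟨g1, _, g2⟩ := mem_tup.1 e1
  obtain ⟨g3, _, g4⟩ := mem_tup.1 e2
  have e3 : m = m' := by omega
  subst e3
  refine ⟨rfl, ?_⟩
  ext g
  constructor
  · intro hg
    have h1 : m + g ∈ UV.ft H' tf m := by
      rw [← h]
      exact mem_tup.2 ⟨g, hg, rfl⟩
    obtain ⟨g', hg', e⟩ := mem_tup.1 h1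
    have : g' = g := by omega
    rwa [this] at hg'
  · intro hg
    have h1 : m + g ∈ UV.ft H tf m := by
      rw [h]
      exact mem_tup.2 ⟨g, hg, rfl⟩
    obtain ⟨g', hg', e⟩ := mem_tup.1 h1
    have : g' = g := by omega
    rwa [this] at hg'

theorem ser_eq (Q : ℕ) (H : Finset ℕ) : UV.fser Q H tf = series Q H := rfl

theorem count_eq (A : Set ℕ) (H : Finset ℕ) (a b : ℕ) : count A H a b = UV.fN A H tf a b := rfl

theorem predicted_eq (Q : ℕ) (H : Finset ℕ) (a b : ℕ) : predicted Q H a b = UV.fex Q H tf a b := rfl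

theorem path_eq (A : Set ℕ) (Q : ℕ) {r : ℕ} (H : Fin r → Finset ℕ) (a b : ℕ → Fin r → ℕ) :
    (fun n i => path A Q (H i) (fun n => a n i) (fun n => b n i) n) = fP Q A H (fun _ _ => tf) a b := rfl

/-- The ratio of the logarithms. -/
theorem shift_ratio {a b : ℕ → ℕ} (hb : Tendsto (fun n => (b n : ℝ)) atTop atTop)
    (hw : ∀ᶠ n in atTop, 3 ≤ a n ∧ a n ≤ b n) (hc : Tendsto (fun n => Real.log (b n) / Real.log (a n)) atTop (𝓝 1)) (h : ℕ) :
    Tendsto (fun n => (Real.log ((a n + h : ℕ) : ℝ))⁻¹ / (Real.log ((b n + h : ℕ) : ℝ))⁻¹) atTop (𝓝 1) := by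
  have hl : Tendsto (fun n => Real.log (b n : ℝ)) atTop atTop := Real.tendsto_log_atTop.comp hb
  have h1 : Tendsto (fun n => Real.log (b n) / Real.log (a n) * (1 + h / Real.log (b n : ℝ))) atTop (𝓝 1) := by
    have := hc.mul ((tendsto_const_nhds (x := (1 : ℝ))).add (hl.const_div_atTop (h : ℝ)))
    simpa using this
  refine tendsto_of_tendsto_of_tendsto_of_le_of_le' tendsto_const_nhds h1 ?_ ?_
  · filter_upwards [hw] with n hn
    rw [inv_div_inv]
    have ha : (1 : ℝ) < ((a n + h : ℕ) : ℝ) := by exact_mod_cast (show 1 < a n + h by omega)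
    rw [one_le_div (Real.log_pos ha)]
    exact Real.log_le_log (by linarith) (by exact_mod_cast (show a n + h ≤ b n + h by omega))
  · filter_upwards [hw] with n hn
    rw [inv_div_inv]
    have ha0 : (1 : ℝ) < (a n : ℝ) := by exact_mod_cast (show 1 < a n by omega)
    have hb0 : (1 : ℝ) < (b n : ℝ) := by exact_mod_cast (show 1 < b n by omega)
    have hla := Real.log_pos ha0
    have hlb := Real.log_pos hb0
    have e1 : Real.log (a n : ℝ) ≤ Real.log ((a n + h : ℕ) : ℝ) :=
      Real.log_le_log (by linarith) (by exact_mod_cast (show a n ≤ a n + h by omega))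
    have e2 : Real.log ((b n + h : ℕ) : ℝ) ≤ Real.log (b n) + h := by
      have h3 : ((b n + h : ℕ) : ℝ) ≤ b n * Real.exp h := by
        push_cast
        have h4 := Real.add_one_le_exp (h : ℝ)
        have h5 : (0 : ℝ) ≤ h := Nat.cast_nonneg _
        nlinarith
      calc Real.log ((b n + h : ℕ) : ℝ) ≤ Real.log (b n * Real.exp h) :=
            Real.log_le_log (by exact_mod_cast (show 0 < b n + h by omega)) h3
        _ = _ := by rw [Real.log_mul (by linarith) (Real.exp_pos _).ne', Real.log_exp]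
    have e3 : Real.log (b n) / Real.log (a n) * (1 + h / Real.log (b n : ℝ)) = (Real.log (b n) + h) / Real.log (a n) := by
      field_simp
    rw [e3]
    have e4 : 0 ≤ Real.log (b n : ℝ) + h := by positivity
    exact div_le_div₀ e4 e2 hla e1

variable {Q k₀ r : ℕ} {H : Fin r → Finset ℕ} {a b : ℕ → Fin r → ℕ} {N : ℕ → ℕ} {M : ℕ → ℝ} {δ : ℝ}

/-- **The functional law for tuples.** -/
theorem tup_law {Ω : Type} [MeasurableSpace Ω] {μ : Measure Ω} [IsProbabilityMeasure μ] {A : Ω → Set ℕ}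
    (hQ : 1 ≤ Q) (hA : IsModel μ (level Q) A) (hr : 1 ≤ r) (hD : Data Q k₀ H a b N M δ) :
    ∀ᵐ ω ∂μ, FLaw (fun n i => path (A ω) Q (H i) (fun n => a n i) (fun n => b n i) n) := by
  obtain ⟨δ', hδ'⟩ : ∃ δ', δ' = min δ (1 / 2) := ⟨_, rfl⟩
  have h0 : 0 < δ' := by rw [hδ']; exact lt_min hD.pos (by norm_num)
  have h1 : δ' ≤ 1 / 2 := by rw [hδ']; exact min_le_right _ _
  have h2 : δ' ≤ δ := by rw [hδ']; exact min_le_left _ _
  have hi : Fin r := ⟨0, hr⟩
  have hN1 : ∀ n ≥ k₀, 1 ≤ N n := by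
    intro n hn
    have h3 := hD.bound n hn hi 0 (hD.zero hi)
    have h4 := hD.win n hn hi
    omega
  have hM1 : ∀ n ≥ k₀, 1 ≤ M n := by
    intro n hn
    refine (Real.one_le_rpow ?_ hD.pos.le).trans (hD.size n hn)
    exact_mod_cast hN1 n hn
  have hG : UV.FD Q H (fun n => (fun _ _ => tf : ℕ → Fin r → ℕ → ℕ → ℕ) (n + k₀)) (fun n => N (n + k₀))
      (fun n => a (n + k₀)) (fun n => b (n + k₀)) (fun n => M (n + k₀)) δ' :=
    { ne := fun i => ⟨0, hD.zero i⟩
      mono := fun n i s _ => tf_mono s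
      per := by
        intro n i s _ m
        have h3 : m + Q ≡ m [MOD Q] := by
          unfold Nat.ModEq
          rw [Nat.add_mod_right]
        exact h3.add_right _
      dist := by
        intro n i m _ _ s hs s' hs' h
        simp only [tf] at h
        omega
      grow := fun n => by
        have := hD.grow (n + k₀) (by omega)
        omega
      bd := by
        intro n i s hs m hm
        have h3 := hD.bound (n + k₀) (by omega) i s hs
        simp only [tf]
        omega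
      sing := fun n i => hD.sing i
      win := fun n i => hD.win (n + k₀) (by omega) i
      size := fun n => (Real.rpow_le_rpow_of_exponent_le (by exact_mod_cast hN1 (n + k₀) (by omega)) h2).trans
        (hD.size (n + k₀) (by omega))
      low := fun n i => hD.low (n + k₀) (by omega) i
      high := fun n i => (hD.high (n + k₀) (by omega) i).trans
        (Real.rpow_le_rpow_of_exponent_le (hM1 (n + k₀) (by omega)) (by linarith))
      uniq := by
        intro n i i' m m' hm1 hm2 hm1' hm2' h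
        obtain ⟨e1, e2⟩ := tup_eq (hD.zero i) (hD.zero i') h
        rcases hD.uniq (n + k₀) (by omega) (n + k₀) (by omega) i i' e2 with h3 | h3
        · exact h3.2
        · exfalso
          subst e1
          exact Finset.disjoint_left.1 h3 (mem_Ico.2 ⟨hm1, hm2⟩) (mem_Ico.2 ⟨hm1', hm2'⟩)
      ov := by
        intro n n' hlt _
        have h3 : UV.ovc H (fun n => (fun _ _ => tf : ℕ → Fin r → ℕ → ℕ → ℕ) (n + k₀)) (fun n => a (n + k₀))
            (fun n => b (n + k₀)) n n' = 0 := by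
          refine UV.ovc_zero (fun i m i' m' hm1 hm2 hm1' hm2' h => ?_)
          obtain ⟨e1, e2⟩ := tup_eq (hD.zero i) (hD.zero i') h
          rcases hD.uniq (n + k₀) (by omega) (n' + k₀) (by omega) i i' e2 with h4 | h4
          · omega
          · subst e1
            exact Finset.disjoint_left.1 h4 (mem_Ico.2 ⟨hm1, hm2⟩) (mem_Ico.2 ⟨hm1', hm2'⟩)
        rw [h3, Nat.cast_zero, zero_pow (by norm_num), zero_mul]
        have h4 := hM1 (n + k₀) (by omega)
        have h5 := hM1 (n' + k₀) (by omega)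
        positivity }
  -- the growth
  obtain ⟨C, hC⟩ := hD.time
  have htime : ∀ᶠ n : ℕ in atTop, Real.log ((2 * N n : ℕ) : ℝ) ≤ Real.exp ((|C| + 1) * Real.log n) := by
    filter_upwards [hC, eventually_ge_atTop 2, eventually_ge_atTop k₀] with n h3 h4 h5
    have hn0 : (2 : ℝ) ≤ n := by exact_mod_cast h4
    have hN0 : (0 : ℝ) < N n := by exact_mod_cast hN1 n h5
    have e1 : Real.log ((2 * N n : ℕ) : ℝ) = Real.log 2 + Real.log (N n) := by
      push_cast
      rw [Real.log_mul (by norm_num) hN0.ne']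
    have e2 : (n : ℝ) ^ C ≤ (n : ℝ) ^ |C| := Real.rpow_le_rpow_of_exponent_le (by linarith) (le_abs_self C)
    have e3 : (1 : ℝ) ≤ (n : ℝ) ^ |C| := Real.one_le_rpow (by linarith) (abs_nonneg C)
    have e4 : Real.exp ((|C| + 1) * Real.log n) = (n : ℝ) ^ |C| * n := by
      rw [mul_comm, ← Real.rpow_def_of_pos (by linarith), Real.rpow_add (by linarith), Real.rpow_one]
    have e5 : Real.log 2 ≤ 1 := by
      have := Real.log_two_lt_d9
      linarith
    rw [e1, e4]
    nlinarith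
  -- the clock
  have hclk : ∀ q ≥ 1, ∀ x : Fin (r * q), Tendsto (fun n => q * UV.fex Q (H (c1 x)) ((fun _ _ => tf : ℕ → Fin r → ℕ → ℕ → ℕ) n
      (c1 x)) (lft a b n x) (rgt a b n x) / UV.fex Q (H (c1 x)) ((fun _ _ => tf : ℕ → Fin r → ℕ → ℕ → ℕ) n (c1 x))
      (a n (c1 x)) (b n (c1 x))) atTop (𝓝 1) := by
    intro q hq x
    refine clk_of (f := (fun _ _ => tf : ℕ → Fin r → ℕ → ℕ → ℕ)) hG h0 (fun i => ?_) hq x
    have hb : Tendsto (fun n => (b n i : ℝ)) atTop atTop := by
      refine (tendsto_add_atTop_iff_nat k₀).1 (tendsto_atTop_mono (fun n => ?_) (FD.M_lim hG h0))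
      have h3 := hD.low (n + k₀) (by omega) i
      have h4 : (0 : ℝ) ≤ a (n + k₀) i := Nat.cast_nonneg _
      linarith
    have hw : ∀ᶠ n in atTop, 3 ≤ a n i ∧ a n i ≤ b n i := by
      filter_upwards [eventually_ge_atTop k₀] with n hn
      exact hD.win n hn i
    have h3 : ∀ n, UV.fw (H i) tf (a n i) / UV.fw (H i) tf (b n i) =
        ∏ h ∈ H i, (Real.log ((a n i + h : ℕ) : ℝ))⁻¹ / (Real.log ((b n i + h : ℕ) : ℝ))⁻¹ := by
      intro n
      unfold UV.fw tf
      rw [prod_div_distrib]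
    simp only [h3]
    have h4 := tendsto_finsetProd (H i) (fun h _ => shift_ratio hb hw (hD.clock i) h)
    simpa using h4
  rw [show (fun ω => FLaw (fun n i => path (A ω) Q (H i) (fun n => a n i) (fun n => b n i) n)) =
    fun ω => FLaw (fP Q (A ω) H (fun _ _ => tf) a b) from rfl]
  exact row_law hA (k₀ := k₀) hG hQ h0 h1 htime hclk

end Pool.Agent.Q106.FL
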